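import Mathlib
import Pool.Agent.H26R2.Bass.Main

/-!
# Traces of idempotent matrices over `ℚ[G]` are invariant under the Galois action
-/

set_option autoImplicit false

namespace Pool.Agent.Y69.NK

open Finset Pool.Agent.H23R2.Cyc Pool.Agent.H26R2.Bass Pool.Agent.H26R2.IdemLI

noncomputable section

variable {G : Type} [Group G] {n : ℕ}

theorem tf_sum_io {R : Type} [CommRing R] (E : Matrix (Fin n) (Fin n) (MonoidAlgebra R G))
    (g : G) : tf (ind R g) E = ∑ s ∈ msupp E, (cm E s).trace * ind R g s := by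
  conv_lhs => rw [eq_sum_io E]
  rw [map_sum, ← Finset.sum_coe_sort (msupp E) (fun s => (cm E s).trace * ind R g s)]
  exact Finset.sum_congr rfl fun s _ => tf_io (ind R g) (cm E s.1) s.1

theorem tf_frob {q : ℕ} [hq : Fact q.Prime] (E : Matrix (Fin n) (Fin n) (MonoidAlgebra (ZMod q) G))
    (hE : E * E = E) (g h : G) (hgh : ∀ s ∈ msupp E, IsConj (s ^ q) g ↔ IsConj s h) :
    tf (ind (ZMod q) g) E = tf (ind (ZMod q) h) E := by
  classical
  have hpow : ∀ m : ℕ, E ^ (m + 1) = E := fun m => IsIdempotentElem.pow_succ_eq m hE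
  have h1 : E ^ q = E := by
    have := hpow (q - 1)
    rwa [Nat.sub_add_cancel hq.out.one_lt.le] at this
  have key : ∀ S : Finset {s // s ∈ msupp E},
      tf (ind (ZMod q) g) ((∑ s ∈ S, io (cm E s.1) s.1) ^ q) =
        ∑ s ∈ S, tf (ind (ZMod q) g) ((io (cm E s.1) s.1) ^ q) := by
    intro S
    induction S using Finset.induction_on with
    | empty => rw [Finset.sum_empty, Finset.sum_empty, zero_pow hq.out.ne_zero, map_zero]
    | insert a S ha ih =>
      rw [Finset.sum_insert ha, Finset.sum_insert ha,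
        Pool.Agent.H71R2.Idem.trace_add_pow q _ (tf_mul_comm _ (ind_comm g)), ih]
  have h2 := key Finset.univ
  rw [← eq_sum_io, h1] at h2
  rw [h2, tf_sum_io, ← Finset.sum_coe_sort (msupp E) (fun s => (cm E s).trace * ind (ZMod q) h s)]
  refine Finset.sum_congr rfl fun s _ => ?_
  rw [io_pow, tf_io, ZMod.trace_pow_card, ZMod.pow_card]
  congr 1
  unfold Pool.Agent.H26R2.Bass.ind
  by_cases h3 : IsConj (s : G) h
  · rw [if_pos h3, if_pos ((hgh _ s.2).2 h3)]
  · rw [if_neg h3, if_neg (fun h => h3 ((hgh _ s.2).1 h))]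

theorem isConj_pow' {x y : G} (h : IsConj x y) (k : ℕ) : IsConj (x ^ k) (y ^ k) := by
  obtain ⟨c, hc⟩ := isConj_iff.1 h
  refine isConj_iff.2 ⟨c, ?_⟩
  rw [← hc, conj_pow]

theorem isConj_orderOf {x y : G} (h : IsConj x y) : orderOf x = orderOf y := by
  obtain ⟨c, hc⟩ := isConj_iff.1 h
  rw [← hc]
  exact (orderOf_injective (MulAut.conj c).toMonoidHom (MulAut.conj c).injective x).symm

/-- Galois invariance -/
theorem galois (e : Matrix (Fin n) (Fin n) (MonoidAlgebra ℚ G)) (he : e * e = e) (g : G)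
    (hg : orderOf g ≠ 0) (a : ℕ) (ha : a.Coprime (orderOf g)) :
    tf (ind ℚ g) e = tf (ind ℚ (g ^ a)) e := by
  classical
  by_contra hne
  set r : ℚ := tf (ind ℚ g) e - tf (ind ℚ (g ^ a)) e with hr
  have hr0 : r ≠ 0 := sub_ne_zero.2 hne
  -- the bounds
  set M₁ : ℕ := (msupp e).sup orderOf with hM₁
  set M₂ : ℕ := Finset.univ.sup fun x : Fin n × Fin n =>
    (e x.1 x.2).coeff.support.sup fun s => ((e x.1 x.2).coeff s).den with hM₂
  have : NeZero (orderOf g) := ⟨hg⟩
  have hu : IsUnit (a : ZMod (orderOf g)) := (ZMod.isUnit_iff_coprime a _).2 ha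
  have hu' : IsUnit ((↑(hu.unit⁻¹) : ZMod (orderOf g)).val : ZMod (orderOf g)) := by
    rw [ZMod.natCast_zmod_val]
    exact Units.isUnit _
  have hinf := Nat.infinite_setOfPred_prime_and_eq_mod hu'
  obtain ⟨q, ⟨hq, hqa⟩, hqb⟩ := hinf.exists_gt (M₁ + M₂ + r.num.natAbs)
  have hqp : Fact q.Prime := ⟨hq⟩
  rw [ZMod.natCast_zmod_val] at hqa
  have hmul : (q * a : ℕ) ≡ 1 [MOD orderOf g] := by
    rw [← ZMod.natCast_eq_natCast_iff]
    push_cast
    rw [hqa]
    exact hu.val_inv_mul
  -- the reduction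
  have hsmall : ∀ i j s, ‖(((e i j).coeff s : ℚ) : ℚ_[q])‖ ≤ 1 := by
    intro i j s
    apply Padic.norm_rat_le_one
    intro hd
    by_cases h0 : (e i j).coeff s = 0
    · rw [h0] at hd
      exact hq.one_lt.ne' (Nat.dvd_one.1 (by simpa using hd))
    · have h1 : ((e i j).coeff s).den ≤ M₂ :=
        (Finset.le_sup (f := fun s => ((e i j).coeff s).den) (Finsupp.mem_support_iff.2 h0)).trans
          (Finset.le_sup (f := fun x : Fin n × Fin n =>
            (e x.1 x.2).coeff.support.sup fun s => ((e x.1 x.2).coeff s).den) (mem_univ (i, j)))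
      have h2 := Nat.le_of_dvd (Rat.den_pos _) hd
      omega
  obtain ⟨e', he', hee'⟩ := exists_lift (G := G) (n := n) (PadicInt.Coe.ringHom (p := q))
    Subtype.val_injective (e.map (ch (Rat.castHom ℚ_[q]) G)) (by rw [← Matrix.map_mul, he]) (by
      intro i j s
      refine ⟨⟨((e i j).coeff s : ℚ), hsmall i j s⟩, ?_⟩
      rw [Matrix.map_apply, ch_coeff]
      rfl)
  have key : ∀ h : G, (PadicInt.Coe.ringHom (p := q)) (tf (ind ℤ_[q] h) e') =
      ((tf (ind ℚ h) e : ℚ) : ℚ_[q]) := by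
    intro h
    have h1 := tf_ch (PadicInt.Coe.ringHom (p := q)) h e'
    rw [hee'] at h1
    have h2 := tf_ch (Rat.castHom ℚ_[q]) h e
    exact h1.symm.trans h2
  -- the supports
  have hsupp : ∀ s, s ∈ msupp (e'.map (ch (PadicInt.toZMod (p := q)) G)) → s ∈ msupp e := by
    intro s hs
    unfold msupp at hs
    simp only [Finset.mem_biUnion, Finset.mem_univ, true_and, Finsupp.mem_support_iff] at hs
    obtain ⟨i, j, hij⟩ := hs
    apply mem_msupp e i j s
    intro h0
    apply hij
    rw [Matrix.map_apply, ch_coeff]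
    have h1 := congrArg (fun X : Matrix (Fin n) (Fin n) (MonoidAlgebra ℚ_[q] G) =>
      (X i j).coeff s) hee'
    simp only [Matrix.map_apply, ch_coeff] at h1
    rw [h0, map_zero] at h1
    have h2 : (e' i j).coeff s = 0 := Subtype.val_injective h1
    rw [h2, map_zero]
  have hconj : ∀ s ∈ msupp (e'.map (ch (PadicInt.toZMod (p := q)) G)),
      IsConj (s ^ q) g ↔ IsConj s (g ^ a) := by
    intro s hs
    constructor
    · intro h
      have h1 : orderOf (s ^ q) = orderOf g := isConj_orderOf h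
      have h2 : orderOf s ≠ 0 := by
        intro h3
        rw [orderOf_pow' s hq.ne_zero, h3] at h1
        simp at h1
        exact hg h1.symm
      have h3 : orderOf s ≤ M₁ := Finset.le_sup (hsupp s hs)
      have h4 : (orderOf s).Coprime q := by
        rw [Nat.coprime_comm, hq.coprime_iff_not_dvd]
        intro hd
        have := Nat.le_of_dvd (Nat.pos_of_ne_zero h2) hd
        omega
      have h5 : orderOf s = orderOf g := by
        rw [← h1, Nat.Coprime.orderOf_pow h4]
      have h6 : s ^ (q * a) = s := by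
        conv_rhs => rw [← pow_one s]
        rw [pow_eq_pow_iff_modEq, h5]
        exact hmul
      have h7 := isConj_pow' h a
      rwa [← pow_mul, h6] at h7
    · intro h
      have h7 := isConj_pow' h q
      have h8 : (g ^ a) ^ q = g := by
        rw [← pow_mul, mul_comm]
        conv_rhs => rw [← pow_one g]
        rw [pow_eq_pow_iff_modEq]
        exact hmul
      rwa [h8] at h7
  have hfrob := tf_frob (e'.map (ch (PadicInt.toZMod (p := q)) G))
    (by rw [← Matrix.map_mul, he']) g (g ^ a) hconj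
  rw [tf_ch, tf_ch, ← sub_eq_zero, ← map_sub] at hfrob
  have hnorm : ‖tf (ind ℤ_[q] g) e' - tf (ind ℤ_[q] (g ^ a)) e'‖ < 1 := by
    have h1 : tf (ind ℤ_[q] g) e' - tf (ind ℤ_[q] (g ^ a)) e' ∈
        RingHom.ker (PadicInt.toZMod (p := q)) := hfrob
    rw [PadicInt.ker_toZMod, IsLocalRing.mem_maximalIdeal, PadicInt.mem_nonunits] at h1
    exact h1
  have hnorm' : ‖((r : ℚ) : ℚ_[q])‖ < 1 := by
    have h1 : ((r : ℚ) : ℚ_[q]) = (PadicInt.Coe.ringHom (p := q))
        (tf (ind ℤ_[q] g) e' - tf (ind ℤ_[q] (g ^ a)) e') := by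
      rw [map_sub, key, key, hr]
      push_cast
      rfl
    rw [h1]
    exact hnorm
  have hdvd : (q : ℤ) ∣ r.num := by
    rw [← Padic.norm_intCast_lt_one_iff]
    have h1 : (r.num : ℚ_[q]) = (r : ℚ_[q]) * (r.den : ℚ_[q]) := by
      have := Rat.mul_den_eq_num r
      have h2 := congrArg (fun x : ℚ => (x : ℚ_[q])) this
      push_cast at h2
      exact h2.symm
    rw [h1, norm_mul]
    have h2 : ‖(r.den : ℚ_[q])‖ ≤ 1 := by
      have := Padic.norm_int_le_one (p := q) (r.den : ℤ)
      exact_mod_cast this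
    calc ‖(r : ℚ_[q])‖ * ‖(r.den : ℚ_[q])‖ ≤ ‖(r : ℚ_[q])‖ * 1 := by gcongr
      _ < 1 := by rwa [mul_one]
  have h9 : q ≤ r.num.natAbs := by
    refine Nat.le_of_dvd (Int.natAbs_pos.2 (Rat.num_ne_zero.2 hr0)) ?_
    exact Int.natCast_dvd.1 hdvd
  omega

end

end Pool.Agent.Y69.NK
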