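import Mathlib

/-!
The group `K₀` of a ring, defined by idempotent matrices, and Bass's group `K₋₁`.
-/

set_option autoImplicit false

noncomputable section

namespace Pool.Agent.Y69.NK

open Matrix

section eqv

variable {A : Type} [Ring A] {I J K L : Type} [Fintype I] [Fintype J] [Fintype K]
  [Fintype L]

/-- Equivalence of idempotent matrices, possibly of different sizes: the images are isomorphic. -/
def Eqv (P : Matrix I I A) (Q : Matrix J J A) : Prop :=
  ∃ (x : Matrix I J A) (y : Matrix J I A), x * y = P ∧ y * x = Q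

lemma Eqv.refl {P : Matrix I I A} (hP : P * P = P) : Eqv P P := ⟨P, P, hP, hP⟩

lemma Eqv.symm {P : Matrix I I A} {Q : Matrix J J A} (h : Eqv P Q) : Eqv Q P := by
  obtain ⟨v, w, h1, h2⟩ := h
  exact ⟨w, v, h2, h1⟩

lemma Eqv.trans {P : Matrix I I A} {Q : Matrix J J A} {R : Matrix K K A} (hP : P * P = P)
    (hR : R * R = R) (h : Eqv P Q) (h' : Eqv Q R) : Eqv P R := by
  obtain ⟨x, y, h1, h2⟩ := h
  obtain ⟨z, w, h3, h4⟩ := h'
  refine ⟨x * z, w * y, ?_, ?_⟩
  · calc (x * z) * (w * y) = x * (z * w) * y := by simp only [Matrix.mul_assoc]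
      _ = (x * y) * (x * y) := by rw [h3, ← h2]; simp only [Matrix.mul_assoc]
      _ = P := by rw [h1, hP]
  · calc (w * y) * (x * z) = w * (y * x) * z := by simp only [Matrix.mul_assoc]
      _ = (w * z) * (w * z) := by rw [h2, ← h3]; simp only [Matrix.mul_assoc]
      _ = R := by rw [h4, hR]

lemma idem_blocks {P : Matrix I I A} {Q : Matrix J J A} (hP : P * P = P) (hQ : Q * Q = Q) :
    fromBlocks P 0 0 Q * fromBlocks P 0 0 Q = fromBlocks P 0 0 Q := by
  rw [fromBlocks_multiply, hP, hQ]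
  simp

lemma Eqv.blocks {P : Matrix I I A} {Q : Matrix J J A} {P' : Matrix K K A} {Q' : Matrix L L A}
    (h : Eqv P P') (h' : Eqv Q Q') : Eqv (fromBlocks P 0 0 Q) (fromBlocks P' 0 0 Q') := by
  obtain ⟨x, y, h1, h2⟩ := h
  obtain ⟨z, w, h3, h4⟩ := h'
  refine ⟨fromBlocks x 0 0 z, fromBlocks y 0 0 w, ?_, ?_⟩
  · rw [fromBlocks_multiply]
    simp [h1, h3]
  · rw [fromBlocks_multiply]
    simp [h2, h4]

lemma idem_submatrix {P : Matrix I I A} (hP : P * P = P) (e : J ≃ I) :
    P.submatrix e e * P.submatrix e e = P.submatrix e e := by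
  rw [submatrix_mul_equiv, hP]

lemma Eqv.submatrix {P : Matrix I I A} (hP : P * P = P) (e : J ≃ I) :
    Eqv P (P.submatrix e e) := by
  refine ⟨P.submatrix id e, P.submatrix e id, ?_, ?_⟩
  · rw [submatrix_mul_equiv, hP, submatrix_id_id]
  · have : P.submatrix e id * P.submatrix id e =
        P.submatrix e (Equiv.refl I) * P.submatrix (Equiv.refl I) e := rfl
    rw [this, submatrix_mul_equiv, hP]

lemma Eqv.of_submatrix {P : Matrix I I A} {Q : Matrix J J A} (hP : P * P = P) (e : J ≃ I)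
    (h : Q = P.submatrix e e) : Eqv P Q := by
  rw [h]; exact Eqv.submatrix hP e

lemma Eqv.blocks_zero {P : Matrix I I A} (hP : P * P = P) :
    Eqv P (fromBlocks P 0 0 (0 : Matrix J J A)) := by
  refine ⟨(fromBlocks P 0 0 (0 : Matrix J J A)).submatrix Sum.inl id,
    (fromBlocks P 0 0 (0 : Matrix J J A)).submatrix id Sum.inl, ?_, ?_⟩
  · ext i j
    simp only [mul_apply, submatrix_apply, Fintype.sum_sum_type, id]
    have h1 : ∑ x : I, fromBlocks P 0 0 (0 : Matrix J J A) (Sum.inl i) (Sum.inl x) *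
        fromBlocks P 0 0 (0 : Matrix J J A) (Sum.inl x) (Sum.inl j) = (P * P) i j := rfl
    rw [h1, hP]
    simp
  · ext i j
    simp only [mul_apply, submatrix_apply, id]
    rcases i with i | i
    · rcases j with j | j
      · have h1 : ∑ x : I, fromBlocks P 0 0 (0 : Matrix J J A) (Sum.inl i) (Sum.inl x) *
          fromBlocks P 0 0 (0 : Matrix J J A) (Sum.inl x) (Sum.inl j) = (P * P) i j := rfl
        rw [h1, hP]
        simp
      · simp
    · rcases j with j | j <;> simp

end eqv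

/-- an idempotent matrix over `A` -/
structure Idm (A : Type) [Ring A] where
  /-- the size -/
  n : ℕ
  /-- the matrix -/
  mat : Matrix (Fin n) (Fin n) A
  idem : mat * mat = mat

section K

variable {A : Type} [Ring A]

lemma Idm.equivalence (A : Type) [Ring A] :
    Equivalence fun P Q : Idm A => Eqv P.mat Q.mat :=
  ⟨fun P => Eqv.refl P.idem, fun h => Eqv.symm h,
    fun {P _ R} h h' => Eqv.trans P.idem R.idem h h'⟩

instance Idm.setoid (A : Type) [Ring A] : Setoid (Idm A) where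
  r P Q := Eqv P.mat Q.mat
  iseqv := Idm.equivalence A

/-- equivalence classes of idempotent matrices over `A` -/
def V (A : Type) [Ring A] : Type := Quotient (Idm.setoid A)

lemma idem_add (P Q : Idm A) :
    (fromBlocks P.mat 0 0 Q.mat).submatrix finSumFinEquiv.symm finSumFinEquiv.symm *
      (fromBlocks P.mat 0 0 Q.mat).submatrix finSumFinEquiv.symm finSumFinEquiv.symm =
    (fromBlocks P.mat 0 0 Q.mat).submatrix finSumFinEquiv.symm finSumFinEquiv.symm :=
  idem_submatrix (idem_blocks P.idem Q.idem) _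

/-- block sum of idempotent matrices -/
def Idm.add (P Q : Idm A) : Idm A where
  n := P.n + Q.n
  mat := (fromBlocks P.mat 0 0 Q.mat).submatrix finSumFinEquiv.symm finSumFinEquiv.symm
  idem := idem_add P Q

/-- the matrix of size zero -/
def Idm.zero (A : Type) [Ring A] : Idm A where
  n := 0
  mat := 0
  idem := mul_zero _

/-- class of an idempotent matrix -/
def V.mk (P : Idm A) : V A := Quotient.mk _ P

lemma V.mk_eq {P Q : Idm A} : V.mk P = V.mk Q ↔ Eqv P.mat Q.mat :=
  ⟨fun h => Quotient.exact h, fun h => Quotient.sound h⟩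

lemma Eqv.add {P Q P' Q' : Idm A} (h : Eqv P.mat P'.mat) (h' : Eqv Q.mat Q'.mat) :
    Eqv (P.add Q).mat (P'.add Q').mat := by
  have h1 := Eqv.blocks h h'
  have h2 := Eqv.submatrix (idem_blocks P.idem Q.idem)
    (finSumFinEquiv (m := P.n) (n := Q.n)).symm
  have h3 := Eqv.submatrix (idem_blocks P'.idem Q'.idem)
    (finSumFinEquiv (m := P'.n) (n := Q'.n)).symm
  exact Eqv.trans (P.add Q).idem (P'.add Q').idem
    (Eqv.trans (P.add Q).idem (idem_blocks P'.idem Q'.idem) h2.symm h1) h3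

instance : Zero (V A) := ⟨V.mk (Idm.zero A)⟩

lemma V.add_wd (P Q P' Q' : Idm A) (h : P ≈ P') (h' : Q ≈ Q') :
    V.mk (P.add Q) = V.mk (P'.add Q') := V.mk_eq.2 (Eqv.add h h')

instance : Add (V A) := ⟨fun x y => Quotient.liftOn₂ x y (fun P Q => V.mk (P.add Q))
  V.add_wd⟩

lemma V.mk_add (P Q : Idm A) : V.mk P + V.mk Q = V.mk (P.add Q) := rfl

lemma V.zero_def : (0 : V A) = V.mk (Idm.zero A) := rfl

lemma V.ind {p : V A → Prop} (h : ∀ P, p (V.mk P)) (x : V A) : p x := Quotient.ind h x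

lemma V.exists_rep (x : V A) : ∃ P, V.mk P = x := Quotient.exists_rep x

/-- comparison of a general block sum -/
lemma Idm.add_eqv (P Q : Idm A) : Eqv (fromBlocks P.mat 0 0 Q.mat) (P.add Q).mat :=
  Eqv.submatrix (idem_blocks P.idem Q.idem) (finSumFinEquiv (m := P.n) (n := Q.n)).symm

lemma V.add_assoc' (x y z : V A) : x + y + z = x + (y + z) := by
  induction x using V.ind with | _ P
  induction y using V.ind with | _ Q
  induction z using V.ind with | _ R
  rw [V.mk_add, V.mk_add, V.mk_add, V.mk_add, V.mk_eq]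
  have h1 := Idm.add_eqv (P.add Q) R
  have h2 := Eqv.blocks (Idm.add_eqv P Q) (Eqv.refl R.idem)
  have h3 := Idm.add_eqv P (Q.add R)
  have h4 := Eqv.blocks (Eqv.refl P.idem) (Idm.add_eqv Q R)
  have hL := idem_blocks (idem_blocks P.idem Q.idem) R.idem
  have hR := idem_blocks P.idem (idem_blocks Q.idem R.idem)
  have h5 : Eqv (fromBlocks (fromBlocks P.mat 0 0 Q.mat) 0 0 R.mat)
      (fromBlocks P.mat 0 0 (fromBlocks Q.mat 0 0 R.mat)) := by
    refine Eqv.of_submatrix hL (Equiv.sumAssoc _ _ _).symm ?_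
    ext i j
    rcases i with i | i | i <;> rcases j with j | j | j <;> rfl
  have h6 := Eqv.trans hL ((P.add Q).add R).idem h2 h1
  have h7 := Eqv.trans hR (P.add (Q.add R)).idem h4 h3
  exact Eqv.trans ((P.add Q).add R).idem (P.add (Q.add R)).idem h6.symm
    (Eqv.trans hL (P.add (Q.add R)).idem h5 h7)

lemma V.add_comm' (x y : V A) : x + y = y + x := by
  induction x using V.ind with | _ P
  induction y using V.ind with | _ Q
  rw [V.mk_add, V.mk_add, V.mk_eq]
  have h1 := Idm.add_eqv P Q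
  have h2 := Idm.add_eqv Q P
  have hL := idem_blocks P.idem Q.idem
  have h5 : Eqv (fromBlocks P.mat 0 0 Q.mat) (fromBlocks Q.mat 0 0 P.mat) := by
    refine Eqv.of_submatrix hL (Equiv.sumComm _ _) ?_
    ext i j
    rcases i with i | i <;> rcases j with j | j <;> rfl
  exact Eqv.trans (P.add Q).idem (Q.add P).idem h1.symm
    (Eqv.trans hL (Q.add P).idem h5 h2)

lemma V.add_zero' (x : V A) : x + 0 = x := by
  induction x using V.ind with | _ P
  rw [V.zero_def, V.mk_add, V.mk_eq]
  have h1 := Idm.add_eqv P (Idm.zero A)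
  have h2 : Eqv P.mat (fromBlocks P.mat 0 0 (Idm.zero A).mat) := Eqv.blocks_zero P.idem
  exact (Eqv.trans P.idem (Idm.add _ _).idem h2 h1).symm

lemma V.zero_add' (x : V A) : 0 + x = x := by
  rw [V.add_comm', V.add_zero']

instance : AddCommMonoid (V A) where
  add_assoc := V.add_assoc'
  zero_add := V.zero_add'
  add_zero := V.add_zero'
  add_comm := V.add_comm'
  nsmul := nsmulRec

/-- the group `K₀(A)` of a ring -/
def K0 (A : Type) [Ring A] : Type := Algebra.GrothendieckAddGroup (V A)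

instance instK0 (A : Type) [Ring A] : AddCommGroup (K0 A) :=
  Algebra.GrothendieckAddGroup.instAddCommGroup (M := V A)

/-- the canonical map into the Grothendieck group -/
def K0.ofV (A : Type) [Ring A] : V A →+ K0 A := Algebra.GrothendieckAddGroup.of

/-- the class in `K₀(A)` of an idempotent matrix over `A` -/
def K0.cls (P : Idm A) : K0 A := K0.ofV A (V.mk P)

lemma K0.cls_eq {P Q : Idm A} :
    K0.cls P = K0.cls Q ↔ ∃ R : Idm A, Eqv (P.add R).mat (Q.add R).mat := by
  unfold K0.cls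
  constructor
  · intro h
    have h1 := ((AddLocalization.addMonoidOf (⊤ : AddSubmonoid (V A))).eq_iff_exists).1 h
    obtain ⟨⟨c, hct⟩, hc⟩ := h1
    obtain ⟨R, rfl⟩ := V.exists_rep c
    have hc' : V.mk R + V.mk P = V.mk R + V.mk Q := hc
    refine ⟨R, ?_⟩
    rw [add_comm, add_comm (V.mk R), V.mk_add, V.mk_add, V.mk_eq] at hc'
    exact hc'
  · rintro ⟨R, hR⟩
    rw [← V.mk_eq, ← V.mk_add, ← V.mk_add] at hR
    have h1 := congrArg (K0.ofV A) hR
    rw [map_add, map_add] at h1
    exact add_right_cancel h1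

/-- every element of `K₀` is a difference of classes -/
lemma K0.exists_sub (x : K0 A) : ∃ P Q : Idm A, x = K0.cls P - K0.cls Q := by
  obtain ⟨⟨a, b⟩, hab⟩ := (AddLocalization.addMonoidOf (⊤ : AddSubmonoid (V A))).surj x
  obtain ⟨P, rfl⟩ := V.exists_rep a
  obtain ⟨Q, hQ⟩ := V.exists_rep (b : V A)
  refine ⟨P, Q, ?_⟩
  rw [eq_sub_iff_add_eq]
  have h1 : x + K0.ofV A (b : V A) = K0.ofV A (V.mk P) := hab
  rw [← hQ] at h1
  exact h1

section maps

variable {B C : Type} [Ring B] [Ring C]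

lemma idem_map {I : Type} [Fintype I] {P : Matrix I I A} (hP : P * P = P) (f : A →+* B) :
    P.map f * P.map f = P.map f := by
  rw [← Matrix.map_mul, hP]

lemma Eqv.map {I J : Type} [Fintype I] [Fintype J] {P : Matrix I I A} {Q : Matrix J J A}
    (h : Eqv P Q) (f : A →+* B) : Eqv (P.map f) (Q.map f) := by
  obtain ⟨x, y, h1, h2⟩ := h
  refine ⟨x.map f, y.map f, ?_, ?_⟩
  · rw [← h1, Matrix.map_mul]
  · rw [← h2, Matrix.map_mul]

/-- the image of an idempotent matrix under a ring homomorphism -/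
def Idm.map (f : A →+* B) (P : Idm A) : Idm B where
  n := P.n
  mat := P.mat.map f
  idem := idem_map P.idem f

lemma Idm.map_add_eqv (f : A →+* B) (P Q : Idm A) :
    (P.add Q).map f = (P.map f).add (Q.map f) := by
  unfold Idm.map Idm.add
  congr 1
  ext i j
  simp only [map_apply, submatrix_apply]
  rcases h1 : finSumFinEquiv.symm i with a | a <;> rcases h2 : finSumFinEquiv.symm j with b | b <;>
    simp

lemma V.map_wd (f : A →+* B) (P Q : Idm A) (h : P ≈ Q) : V.mk (P.map f) = V.mk (Q.map f) :=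
  V.mk_eq.2 (Eqv.map h f)

/-- the underlying function of `V.map` -/
def V.mapFun (f : A →+* B) (x : V A) : V B :=
  Quotient.liftOn x (fun P => V.mk (P.map f)) (V.map_wd f)

lemma V.mapFun_zero (f : A →+* B) : V.mapFun f 0 = 0 := by
  show V.mk _ = V.mk _
  rw [V.mk_eq]
  refine Eqv.of_submatrix (Idm.idem _) (Equiv.refl _) ?_
  ext i j
  exact i.elim0

lemma V.mapFun_add (f : A →+* B) (x y : V A) :
    V.mapFun f (x + y) = V.mapFun f x + V.mapFun f y := by
  obtain ⟨P, rfl⟩ := V.exists_rep x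
  obtain ⟨Q, rfl⟩ := V.exists_rep y
  show V.mk _ = V.mk _
  rw [Idm.map_add_eqv]

/-- the map induced by a ring homomorphism on classes of idempotent matrices -/
def V.map (f : A →+* B) : V A →+ V B where
  toFun := V.mapFun f
  map_zero' := V.mapFun_zero f
  map_add' := V.mapFun_add f

lemma V.map_mk (f : A →+* B) (P : Idm A) : V.map f (V.mk P) = V.mk (P.map f) := rfl

/-- the homomorphism `K₀(f) : K₀(A) → K₀(B)` induced by a ring homomorphism `f : A → B` -/
def K0.map (f : A →+* B) : K0 A →+ K0 B :=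
  Algebra.GrothendieckAddGroup.lift ((K0.ofV B).comp (V.map f))

lemma K0.map_cls (f : A →+* B) (P : Idm A) : K0.map f (K0.cls P) = K0.cls (P.map f) := by
  have h := (Algebra.GrothendieckAddGroup.lift
    (M := V A) (G := K0 B)).left_inv ((K0.ofV B).comp (V.map f))
  have h2 := DFunLike.congr_fun h (V.mk P)
  exact h2

lemma K0.hom_ext {G : Type} [AddGroup G] {f g : K0 A →+ G} (h : ∀ P, f (K0.cls P) = g (K0.cls P)) :
    f = g := by
  ext x
  obtain ⟨P, Q, rfl⟩ := K0.exists_sub x
  rw [map_sub, map_sub, h, h]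

lemma Idm.map_map (f : A →+* B) (g : B →+* C) (P : Idm A) :
    (P.map f).map g = P.map (g.comp f) := rfl

lemma K0.map_comp (f : A →+* B) (g : B →+* C) (x : K0 A) :
    K0.map g (K0.map f x) = K0.map (g.comp f) x := by
  obtain ⟨P, Q, rfl⟩ := K0.exists_sub x
  simp only [map_sub, K0.map_cls, Idm.map_map]

end maps

section general

variable {I J : Type} [Fintype I] [Fintype J]

/-- the class of an idempotent matrix with an arbitrary index set -/
def cl (P : Matrix I I A) (hP : P * P = P) : K0 A :=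
  K0.cls ⟨Fintype.card I, P.submatrix (Fintype.equivFin I).symm (Fintype.equivFin I).symm,
    idem_submatrix hP _⟩

lemma cl_eqv (P : Matrix I I A) (hP : P * P = P) :
    Eqv P (P.submatrix (Fintype.equivFin I).symm (Fintype.equivFin I).symm) :=
  Eqv.submatrix hP _

lemma cl_congr {P : Matrix I I A} {Q : Matrix J J A} (hP : P * P = P) (hQ : Q * Q = Q)
    (h : Eqv P Q) : cl P hP = cl Q hQ := by
  unfold cl K0.cls
  congr 1
  rw [V.mk_eq]
  exact Eqv.trans (idem_submatrix hP _) (idem_submatrix hQ _)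
    (Eqv.trans (idem_submatrix hP _) hQ (cl_eqv P hP).symm h) (cl_eqv Q hQ)

lemma cl_idm (P : Idm A) : K0.cls P = cl P.mat P.idem := by
  unfold cl K0.cls
  congr 1
  rw [V.mk_eq]
  exact cl_eqv P.mat P.idem

lemma cl_blocks {P : Matrix I I A} {Q : Matrix J J A} (hP : P * P = P) (hQ : Q * Q = Q) :
    cl (fromBlocks P 0 0 Q) (idem_blocks hP hQ) = cl P hP + cl Q hQ := by
  have h1 : cl P hP + cl Q hQ = K0.cls (Idm.add ⟨Fintype.card I, P.submatrix
      (Fintype.equivFin I).symm (Fintype.equivFin I).symm, idem_submatrix hP _⟩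
      ⟨Fintype.card J, Q.submatrix (Fintype.equivFin J).symm (Fintype.equivFin J).symm,
        idem_submatrix hQ _⟩) := by
    unfold cl K0.cls
    rw [← V.mk_add, map_add]
  rw [h1, cl_idm]
  apply cl_congr
  refine Eqv.trans (idem_blocks hP hQ) (Idm.idem _) ?_ (Idm.add_eqv _ _)
  exact Eqv.blocks (cl_eqv P hP) (cl_eqv Q hQ)

/-- equality in `K₀` means stable equivalence -/
lemma cl_eq {P : Matrix I I A} {Q : Matrix J J A} (hP : P * P = P) (hQ : Q * Q = Q)
    (h : cl P hP = cl Q hQ) : ∃ k : ℕ, Eqv (fromBlocks P 0 0 (1 : Matrix (Fin k) (Fin k) A))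
      (fromBlocks Q 0 0 (1 : Matrix (Fin k) (Fin k) A)) := by
  unfold cl at h
  obtain ⟨R, hR⟩ := K0.cls_eq.1 h
  refine ⟨R.n, ?_⟩
  have hR1 : (1 - R.mat) * (1 - R.mat) = 1 - R.mat := by
    have h1 : (1 - R.mat) * R.mat = 0 := by rw [sub_mul, one_mul, R.idem, sub_self]
    rw [mul_sub, mul_one, h1, sub_zero]
  have hR2 : R.mat * (1 - R.mat) = 0 := by rw [mul_sub, mul_one, R.idem, sub_self]
  have hR3 : (1 - R.mat) * R.mat = 0 := by rw [sub_mul, one_mul, R.idem, sub_self]
  -- `R ⊕ (1 - R)` is equivalent to `1`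
  have h2 : Eqv (fromBlocks R.mat 0 0 (1 - R.mat)) (1 : Matrix (Fin R.n) (Fin R.n) A) := by
    refine ⟨Matrix.of fun i j => Sum.elim (fun a => R.mat a j) (fun a => (1 - R.mat) a j) i,
      Matrix.of fun j i => Sum.elim (fun a => R.mat j a) (fun a => (1 - R.mat) j a) i, ?_, ?_⟩
    · ext1 i j
      rcases i with i | i <;> rcases j with j | j
      · exact congrFun (congrFun R.idem i) j
      · exact congrFun (congrFun hR2 i) j
      · exact congrFun (congrFun hR3 i) j
      · exact congrFun (congrFun hR1 i) j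
    · ext1 i j
      rw [Matrix.mul_apply, Fintype.sum_sum_type]
      have h3 := congrFun (congrFun R.idem i) j
      have h4 := congrFun (congrFun hR1 i) j
      rw [Matrix.mul_apply] at h3 h4
      refine (congrArg₂ (· + ·) h3 h4).trans ?_
      show R.mat i j + (1 - R.mat) i j = _
      rw [Matrix.sub_apply, add_sub_cancel]
  have key : ∀ {X : Type} [Fintype X] (S : Matrix X X A) (hS : S * S = S)
      (S' : Idm A) (_ : Eqv S S'.mat),
      Eqv (fromBlocks S 0 0 (1 : Matrix (Fin R.n) (Fin R.n) A))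
        (fromBlocks (S'.add R).mat 0 0 (1 - R.mat)) := by
    intro X _ S hS S' hSS
    have a1 : Eqv (fromBlocks S 0 0 (1 : Matrix (Fin R.n) (Fin R.n) A))
        (fromBlocks S'.mat 0 0 (fromBlocks R.mat 0 0 (1 - R.mat))) := Eqv.blocks hSS h2.symm
    have a2 : Eqv (fromBlocks S'.mat 0 0 (fromBlocks R.mat 0 0 (1 - R.mat)))
        (fromBlocks (fromBlocks S'.mat 0 0 R.mat) 0 0 (1 - R.mat)) := by
      refine Eqv.of_submatrix (idem_blocks S'.idem (idem_blocks R.idem hR1))
        (Equiv.sumAssoc _ _ _) ?_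
      ext i j
      rcases i with (i | i) | i <;> rcases j with (j | j) | j <;> rfl
    have a3 : Eqv (fromBlocks (fromBlocks S'.mat 0 0 R.mat) 0 0 (1 - R.mat))
        (fromBlocks (S'.add R).mat 0 0 (1 - R.mat)) :=
      Eqv.blocks (Idm.add_eqv S' R) (Eqv.refl hR1)
    have b0 := idem_blocks hS (mul_one (1 : Matrix (Fin R.n) (Fin R.n) A))
    have b1 := idem_blocks (idem_blocks S'.idem R.idem) hR1
    have b2 := idem_blocks (S'.add R).idem hR1
    exact Eqv.trans b0 b2 (Eqv.trans b0 b1 a1 a2) a3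
  have h5 := key P hP ⟨Fintype.card I, P.submatrix (Fintype.equivFin I).symm
    (Fintype.equivFin I).symm, idem_submatrix hP _⟩ (cl_eqv P hP)
  have h6 := key Q hQ ⟨Fintype.card J, Q.submatrix (Fintype.equivFin J).symm
    (Fintype.equivFin J).symm, idem_submatrix hQ _⟩ (cl_eqv Q hQ)
  have h7 := Eqv.blocks hR (Eqv.refl hR1)
  have c0 := idem_blocks hP (mul_one (1 : Matrix (Fin R.n) (Fin R.n) A))
  have c1 := idem_blocks hQ (mul_one (1 : Matrix (Fin R.n) (Fin R.n) A))
  exact Eqv.trans c0 c1 (Eqv.trans c0 (idem_blocks (Idm.idem _) hR1) h5 h7) h6.symm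

lemma map_cl {B : Type} [Ring B] (f : A →+* B) {P : Matrix I I A} (hP : P * P = P) :
    K0.map f (cl P hP) = cl (P.map f) (idem_map hP f) := by
  unfold cl
  rw [K0.map_cls]
  rfl

lemma exists_cl (x : K0 A) : ∃ (n m : ℕ) (P : Matrix (Fin n) (Fin n) A)
    (Q : Matrix (Fin m) (Fin m) A) (hP : P * P = P) (hQ : Q * Q = Q), x = cl P hP - cl Q hQ := by
  obtain ⟨P, Q, rfl⟩ := K0.exists_sub x
  exact ⟨P.n, Q.n, P.mat, Q.mat, P.idem, Q.idem, by rw [cl_idm, cl_idm]⟩

end general

end K

/-- the inclusion of `A[t]` into `A[t, t⁻¹]` -/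
def incPos (A : Type) [Ring A] : Polynomial A →+* LaurentPolynomial A := Polynomial.toLaurent

/-- the homomorphism `A[t] → A[t, t⁻¹]` with `t ↦ t⁻¹`, an isomorphism onto `A[t⁻¹]` -/
def incNeg (A : Type) [Ring A] : Polynomial A →+* LaurentPolynomial A :=
  (AddMonoidAlgebra.mapDomainRingHom A (negAddMonoidHom : ℤ →+ ℤ)).comp Polynomial.toLaurent

/-- the subgroup of `K₀(A[t, t⁻¹])` generated by the images of `K₀(A[t])` and `K₀(A[t⁻¹])` -/
def NilPart (A : Type) [Ring A] : AddSubgroup (K0 (LaurentPolynomial A)) :=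
  (K0.map (incPos A)).range ⊔ (K0.map (incNeg A)).range

/-- Bass's group `K₋₁(A)`: the cokernel of `K₀(A[t]) ⊕ K₀(A[t⁻¹]) → K₀(A[t, t⁻¹])` -/
def KNegOne (A : Type) [Ring A] : Type := K0 (LaurentPolynomial A) ⧸ NilPart A

instance instKNegOne (A : Type) [Ring A] : AddCommGroup (KNegOne A) :=
  QuotientAddGroup.Quotient.addCommGroup (NilPart A)

end Pool.Agent.Y69.NK

end
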