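import Mathlib

/-!
# Band operators on Laurent polynomials over a noncommutative ring

`Op B` is the ring of the right `B`-linear endomorphisms of `B[t, t⁻¹]` with band matrix. The
operators with finite matrix form an ideal, on which traces are defined.
-/

set_option autoImplicit false

namespace Pool.Agent.Y69.NK

open LaurentPolynomial Finset

noncomputable section

variable {B : Type} [Ring B]

/-- right linear -/
def Lin (φ : AddMonoid.End (LaurentPolynomial B)) : Prop := ∀ s b, φ (s * C b) = φ s * C b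

/-- band matrix -/
def Bd (d : ℕ) (φ : AddMonoid.End (LaurentPolynomial B)) : Prop :=
  ∀ j i : ℤ, (d : ℤ) < |i - j| → (φ (T j)).coeff i = 0

theorem coeff_mul_C (s : LaurentPolynomial B) (b : B) (i : ℤ) :
    (s * C b).coeff i = s.coeff i * b := by
  rw [← single_eq_C, AddMonoidAlgebra.coeff_mul_single_zero]

theorem eq_sum_T (s : LaurentPolynomial B) (S : Finset ℤ) (hS : ∀ k, k ∉ S → s.coeff k = 0) :
    s = ∑ k ∈ S, T k * C (s.coeff k) := by
  ext i
  rw [AddMonoidAlgebra.coeff_sum, Finset.sum_apply']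
  simp only [coeff_mul_C, T_apply]
  by_cases hi : i ∈ S
  · rw [Finset.sum_eq_single i]
    · rw [if_pos rfl, one_mul]
    · intro b _ hb
      rw [if_neg hb, zero_mul]
    · intro h
      exact absurd hi h
  · rw [hS i hi, Finset.sum_eq_zero]
    intro k hk
    rw [if_neg, zero_mul]
    rintro rfl
    exact hi hk

theorem Lin.apply {φ : AddMonoid.End (LaurentPolynomial B)} (h : Lin φ) (s : LaurentPolynomial B)
    (S : Finset ℤ) (hS : ∀ k, k ∉ S → s.coeff k = 0) (i : ℤ) :
    (φ s).coeff i = ∑ k ∈ S, (φ (T k)).coeff i * s.coeff k := by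
  conv_lhs => rw [eq_sum_T s S hS]
  rw [map_sum, AddMonoidAlgebra.coeff_sum, Finset.sum_apply']
  exact Finset.sum_congr rfl fun k _ => by rw [h, coeff_mul_C]

theorem bd_support (s : LaurentPolynomial B) : ∃ K : ℕ, ∀ k : ℤ, k ∉ Finset.Icc (-(K : ℤ)) K →
    s.coeff k = 0 := by
  refine ⟨s.coeff.support.sup Int.natAbs, fun k hk => ?_⟩
  by_contra h
  apply hk
  have h1 := Finset.le_sup (f := Int.natAbs) (Finsupp.mem_support_iff.2 h)
  rw [Finset.mem_Icc]
  omega

theorem Bd.mul {φ ψ : AddMonoid.End (LaurentPolynomial B)} {d e : ℕ} (hl : Lin φ) (hφ : Bd d φ)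
    (hψ : Bd e ψ) : Bd (d + e) (φ * ψ) := by
  intro j i hij
  show (φ (ψ (T j))).coeff i = 0
  rw [hl.apply (ψ (T j)) (Finset.Icc (j - e) (j + e)) (fun k hk => hψ j k (by
    rw [Finset.mem_Icc] at hk
    by_contra hcon
    apply hk
    have := abs_le.1 (not_lt.1 hcon)
    omega))]
  refine Finset.sum_eq_zero fun k hk => ?_
  rw [Finset.mem_Icc] at hk
  rw [hφ k i, zero_mul]
  push_cast at hij
  rw [lt_abs] at hij ⊢
  omega

/-- the ring of band operators -/
def Op (B : Type) [Ring B] : Subring (AddMonoid.End (LaurentPolynomial B)) where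
  carrier := {φ | Lin φ ∧ ∃ d, Bd d φ}
  mul_mem' := by
    rintro φ ψ ⟨h1, d, h2⟩ ⟨h3, e, h4⟩
    refine ⟨fun s b => ?_, d + e, h2.mul h1 h4⟩
    show φ (ψ _) = φ (ψ _) * _
    rw [h3, h1]
  one_mem' := by
    refine ⟨fun s b => rfl, 0, fun j i hij => ?_⟩
    show (T j : LaurentPolynomial B).coeff i = 0
    rw [T_apply, if_neg]
    rintro rfl
    simp at hij
  add_mem' := by
    rintro φ ψ ⟨h1, d, h2⟩ ⟨h3, e, h4⟩
    refine ⟨fun s b => ?_, max d e, fun j i hij => ?_⟩
    · show φ _ + ψ _ = (φ _ + ψ _) * _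
      rw [h1, h3, add_mul]
    · show (φ (T j) + ψ (T j)).coeff i = 0
      rw [AddMonoidAlgebra.coeff_add, Finsupp.add_apply, h2 j i, h4 j i, add_zero]
      · push_cast at hij
        exact (le_max_right _ _).trans_lt hij
      · push_cast at hij
        exact (le_max_left _ _).trans_lt hij
  zero_mem' := by
    refine ⟨fun s b => ?_, 0, fun j i _ => rfl⟩
    show (0 : LaurentPolynomial B) = 0 * _
    rw [zero_mul]
  neg_mem' := by
    rintro φ ⟨h1, d, h2⟩
    refine ⟨fun s b => ?_, d, fun j i hij => ?_⟩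
    · show -φ _ = (-φ _) * _
      rw [h1, neg_mul]
    · show (-φ (T j)).coeff i = 0
      rw [AddMonoidAlgebra.coeff_neg, Finsupp.neg_apply, h2 j i hij, neg_zero]

/-- the entries of the matrix of an operator -/
def ent (φ : Op B) (i j : ℤ) : B := (φ.1 (T j)).coeff i

theorem ent_add (φ ψ : Op B) (i j : ℤ) : ent (φ + ψ) i j = ent φ i j + ent ψ i j := by
  show (φ.1 (T j) + ψ.1 (T j)).coeff i = _
  rw [AddMonoidAlgebra.coeff_add, Finsupp.add_apply]
  rfl

theorem ent_neg (φ : Op B) (i j : ℤ) : ent (-φ) i j = -ent φ i j := by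
  show (-φ.1 (T j)).coeff i = _
  rw [AddMonoidAlgebra.coeff_neg, Finsupp.neg_apply]
  rfl

theorem ent_sub (φ ψ : Op B) (i j : ℤ) : ent (φ - ψ) i j = ent φ i j - ent ψ i j := by
  rw [sub_eq_add_neg, ent_add, ent_neg, sub_eq_add_neg]

theorem ent_zero (i j : ℤ) : ent (0 : Op B) i j = 0 := rfl

theorem ent_one (i j : ℤ) : ent (1 : Op B) i j = if i = j then 1 else 0 := by
  show (T j : LaurentPolynomial B).coeff i = _
  rw [T_apply]
  by_cases h : i = j
  · rw [if_pos h, if_pos h.symm]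
  · rw [if_neg h, if_neg (Ne.symm h)]

theorem ent_sum {ι : Type} (s : Finset ι) (f : ι → Op B) (i j : ℤ) :
    ent (∑ x ∈ s, f x) i j = ∑ x ∈ s, ent (f x) i j := by
  classical
  induction s using Finset.induction_on with
  | empty => rw [Finset.sum_empty, Finset.sum_empty, ent_zero]
  | insert a s ha ih => rw [Finset.sum_insert ha, Finset.sum_insert ha, ent_add, ih]

theorem ent_mul (φ ψ : Op B) (i j : ℤ) (S : Finset ℤ) (hS : ∀ k, k ∉ S → ent ψ k j = 0) :
    ent (φ * ψ) i j = ∑ k ∈ S, ent φ i k * ent ψ k j := by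
  show (φ.1 (ψ.1 (T j))).coeff i = _
  rw [φ.2.1.apply _ S hS]
  rfl

theorem ent_ext {φ ψ : Op B} (h : ∀ i j, ent φ i j = ent ψ i j) : φ = ψ := by
  apply Subtype.ext
  apply AddMonoidHom.ext
  intro s
  obtain ⟨K, hK⟩ := bd_support s
  have h1 := φ.2.1.apply s _ hK
  have h2 := ψ.2.1.apply s _ hK
  apply LaurentPolynomial.ext
  intro i
  refine (h1 i).trans (Eq.trans ?_ (h2 i).symm)
  exact Finset.sum_congr rfl fun k _ => by
    have := h i k
    unfold ent at this
    rw [this]

theorem coeff_mul_T (a : LaurentPolynomial B) (i j : ℤ) : (a * T j).coeff i = a.coeff (i - j) := by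
  unfold T
  rw [AddMonoidAlgebra.coeff_mul_single_apply, mul_one, sub_eq_add_neg]

/-- the multiplication operators -/
def lm (B : Type) [Ring B] : LaurentPolynomial B →+* Op B :=
  (Module.toAddMonoidEnd (LaurentPolynomial B) (LaurentPolynomial B)).codRestrict (Op B) (by
    intro a
    refine ⟨fun s b => ?_, ?_⟩
    · show a * (s * C b) = a * s * C b
      rw [mul_assoc]
    · obtain ⟨K, hK⟩ := bd_support a
      refine ⟨K, fun j i hij => ?_⟩
      show (a * T j).coeff i = 0
      rw [coeff_mul_T]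
      apply hK
      rw [Finset.mem_Icc]
      rw [lt_abs] at hij
      omega)

theorem ent_lm (a : LaurentPolynomial B) (i j : ℤ) : ent (lm B a) i j = a.coeff (i - j) :=
  coeff_mul_T a i j

/-- the truncation, as an additive map -/
def truncHom (B : Type) [Ring B] : AddMonoid.End (LaurentPolynomial B) where
  toFun s := AddMonoidAlgebra.ofCoeff (s.coeff.filter fun i => 0 ≤ i)
  map_zero' := by
    ext i
    show (Finsupp.filter (fun i : ℤ => 0 ≤ i) (0 : ℤ →₀ B)) i = 0
    rw [Finsupp.filter_apply, Finsupp.zero_apply, ite_self]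
  map_add' x y := by
    ext i
    simp [Finsupp.filter_add]

theorem truncHom_coeff (s : LaurentPolynomial B) (i : ℤ) :
    (truncHom B s).coeff i = if 0 ≤ i then s.coeff i else 0 := by
  show (s.coeff.filter fun i => 0 ≤ i) i = _
  rw [Finsupp.filter_apply]

/-- the truncation -/
def tru (B : Type) [Ring B] : Op B := ⟨truncHom B, fun s b => by
    apply LaurentPolynomial.ext
    intro i
    rw [truncHom_coeff, coeff_mul_C, coeff_mul_C, truncHom_coeff]
    split_ifs
    · rfl
    · rw [zero_mul], 0, fun j i hij => by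
    rw [truncHom_coeff, T_apply]
    have : j ≠ i := by
      rintro rfl
      simp at hij
    rw [if_neg this, ite_self]⟩

theorem ent_tru (i j : ℤ) : ent (tru B) i j = if i = j ∧ 0 ≤ j then 1 else 0 := by
  show (truncHom B (T j)).coeff i = _
  rw [truncHom_coeff, T_apply]
  by_cases h : j = i
  · subst h
    by_cases h2 : 0 ≤ j
    · rw [if_pos h2, if_pos rfl, if_pos ⟨rfl, h2⟩]
    · rw [if_neg h2, if_neg (fun h3 => h2 h3.2)]
  · rw [if_neg h, ite_self, if_neg (fun h3 => h h3.1.symm)]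

/-- operators with finite matrix, supported on the columns of index at most `K` -/
def Fn (K : ℕ) (φ : Op B) : Prop := ∀ i j : ℤ, (K : ℤ) < |j| → ent φ i j = 0

theorem Fn.mono {K K' : ℕ} {φ : Op B} (h : Fn K φ) (hK : K ≤ K') : Fn K' φ := fun i j hj =>
  h i j (lt_of_le_of_lt (by exact_mod_cast hK) hj)

theorem band (φ : Op B) : ∃ d : ℕ, ∀ i j : ℤ, (d : ℤ) < |i - j| → ent φ i j = 0 := by
  obtain ⟨d, hd⟩ := φ.2.2
  exact ⟨d, fun i j h => hd j i h⟩

/-- operators with finite matrix -/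
def Fin (φ : Op B) : Prop := ∃ K : ℕ, ∀ i j : ℤ, ((K : ℤ) < |j| ∨ (K : ℤ) < |i|) → ent φ i j = 0

theorem Fin.of_col {φ : Op B} {K : ℕ} (h : Fn K φ) : Fin φ := by
  obtain ⟨d, hd⟩ := band φ
  refine ⟨K + d, fun i j hij => ?_⟩
  by_cases h1 : (K : ℤ) < |j|
  · exact h i j h1
  · rcases hij with h2 | h2
    · push_cast at h2
      exact absurd (lt_of_le_of_lt (by omega) h2) h1
    · apply hd
      push_cast at h2
      rw [lt_abs] at *
      omega

theorem Fin.add {φ ψ : Op B} (h : Fin φ) (h' : Fin ψ) : Fin (φ + ψ) := by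
  obtain ⟨K, hK⟩ := h
  obtain ⟨K', hK'⟩ := h'
  refine ⟨max K K', fun i j hij => ?_⟩
  push_cast at hij
  rw [ent_add, hK i j, hK' i j, add_zero]
  · rcases hij with h | h
    · exact Or.inl ((le_max_right _ _).trans_lt h)
    · exact Or.inr ((le_max_right _ _).trans_lt h)
  · rcases hij with h | h
    · exact Or.inl ((le_max_left _ _).trans_lt h)
    · exact Or.inr ((le_max_left _ _).trans_lt h)

theorem Fin.neg {φ : Op B} (h : Fin φ) : Fin (-φ) := by
  obtain ⟨K, hK⟩ := h
  exact ⟨K, fun i j hij => by rw [ent_neg, hK i j hij, neg_zero]⟩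

theorem Fin.sub {φ ψ : Op B} (h : Fin φ) (h' : Fin ψ) : Fin (φ - ψ) := by
  rw [sub_eq_add_neg]
  exact h.add h'.neg

theorem Fin.zero : Fin (0 : Op B) := ⟨0, fun _ _ _ => rfl⟩

theorem Fin.sum {ι : Type} (s : Finset ι) (f : ι → Op B) (h : ∀ x ∈ s, Fin (f x)) :
    Fin (∑ x ∈ s, f x) := by
  classical
  induction s using Finset.induction_on with
  | empty => exact Fin.zero
  | insert a s ha ih =>
    rw [Finset.sum_insert ha]
    exact (h a (mem_insert_self a s)).add (ih fun x hx => h x (mem_insert_of_mem hx))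

theorem Fin.mul_left (ψ : Op B) {φ : Op B} (h : Fin φ) : Fin (ψ * φ) := by
  obtain ⟨K, hK⟩ := h
  refine Fin.of_col (K := K) fun i j hj => ?_
  rw [ent_mul ψ φ i j ∅ (fun k _ => hK k j (Or.inl hj)), Finset.sum_empty]

theorem Fin.mul_right (ψ : Op B) {φ : Op B} (h : Fin φ) : Fin (φ * ψ) := by
  obtain ⟨K, hK⟩ := h
  obtain ⟨d, hd⟩ := band ψ
  refine Fin.of_col (K := K + d) fun i j hj => ?_
  rw [ent_mul φ ψ i j (Finset.Icc (j - d) (j + d)) (fun k hk => hd k j (by
    rw [Finset.mem_Icc] at hk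
    by_contra hcon
    apply hk
    have := abs_le.1 (not_lt.1 hcon)
    omega))]
  refine Finset.sum_eq_zero fun k hk => ?_
  rw [Finset.mem_Icc] at hk
  rw [hK i k, zero_mul]
  left
  push_cast at hj
  rw [lt_abs] at hj ⊢
  omega

/-- the commutator of the truncation and a multiplication operator is finite -/
theorem fin_comm (a : LaurentPolynomial B) : Fin (lm B a * tru B - tru B * lm B a) := by
  obtain ⟨K, hK⟩ := bd_support a
  refine Fin.of_col (K := K) fun i j hj => ?_
  have h1 : ent (lm B a * tru B) i j = if 0 ≤ j then a.coeff (i - j) else 0 := by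
    rw [ent_mul _ _ i j {j} (fun k hk => by
      rw [ent_tru, if_neg]
      rintro ⟨rfl, _⟩
      exact hk (Finset.mem_singleton_self _)), Finset.sum_singleton, ent_lm, ent_tru]
    by_cases h : 0 ≤ j
    · rw [if_pos ⟨rfl, h⟩, if_pos h, mul_one]
    · rw [if_neg (fun h' => h h'.2), if_neg h, mul_zero]
  have h2 : ent (tru B * lm B a) i j = if 0 ≤ i then a.coeff (i - j) else 0 := by
    show (truncHom B (a * T j)).coeff i = _
    rw [truncHom_coeff, coeff_mul_T]
  rw [ent_sub, h1, h2]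
  by_cases hij : a.coeff (i - j) = 0
  · rw [hij, ite_self, ite_self, sub_zero]
  · have h3 : i - j ∈ Finset.Icc (-(K : ℤ)) K := by
      by_contra hcon
      exact hij (hK _ hcon)
    rw [Finset.mem_Icc] at h3
    rw [lt_abs] at hj
    by_cases h0 : 0 ≤ j
    · rw [if_pos h0, if_pos (by omega), sub_self]
    · rw [if_neg h0, if_neg (by omega), sub_self]

section trace

variable {M : Type} [AddCommGroup M]

/-- the trace of a finite operator, for a trace function `τ` on `B` -/
def tr (τ : B →+ M) (φ : Op B) : M := ∑ᶠ j : ℤ, τ (ent φ j j)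

theorem tr_eq (τ : B →+ M) (φ : Op B) (S : Finset ℤ) (h : ∀ j, j ∉ S → ent φ j j = 0) :
    tr τ φ = ∑ j ∈ S, τ (ent φ j j) := by
  unfold tr
  rw [finsum_eq_sum_of_support_subset]
  intro j hj
  rw [Function.mem_support] at hj
  rw [Finset.mem_coe]
  by_contra hcon
  exact hj (by rw [h j hcon, map_zero])

theorem Fin.exists {φ : Op B} (h : Fin φ) : ∃ K : ℕ, ∀ K' : ℕ, K ≤ K' → ∀ i j : ℤ,
    (i ∉ Finset.Icc (-(K' : ℤ)) K' ∨ j ∉ Finset.Icc (-(K' : ℤ)) K') → ent φ i j = 0 := by
  obtain ⟨K, hK⟩ := h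
  refine ⟨K, fun K' hKK' i j hij => hK i j ?_⟩
  simp only [Finset.mem_Icc] at hij
  rw [lt_abs, lt_abs]
  omega

theorem tr_add (τ : B →+ M) {φ ψ : Op B} (h : Fin φ) (h' : Fin ψ) :
    tr τ (φ + ψ) = tr τ φ + tr τ ψ := by
  obtain ⟨K, hK⟩ := h.exists
  obtain ⟨K', hK'⟩ := h'.exists
  have h1 := hK (max K K') (le_max_left _ _)
  have h2 := hK' (max K K') (le_max_right _ _)
  rw [tr_eq τ φ _ (fun j hj => h1 j j (Or.inl hj)), tr_eq τ ψ _ (fun j hj => h2 j j (Or.inl hj)),
    tr_eq τ (φ + ψ) _ (fun j hj => by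
      rw [ent_add, h1 j j (Or.inl hj), h2 j j (Or.inl hj), add_zero]), ← Finset.sum_add_distrib]
  exact Finset.sum_congr rfl fun j _ => by rw [ent_add, map_add]

theorem tr_neg (τ : B →+ M) (φ : Op B) : tr τ (-φ) = -tr τ φ := by
  unfold tr
  rw [← finsum_neg_distrib]
  exact finsum_congr fun j => by rw [ent_neg, map_neg]

theorem tr_zero (τ : B →+ M) : tr τ (0 : Op B) = 0 := by
  unfold tr
  exact finsum_eq_zero_of_forall_eq_zero fun j => by rw [ent_zero, map_zero]

theorem tr_sum (τ : B →+ M) {ι : Type} (s : Finset ι) (f : ι → Op B) (h : ∀ x ∈ s, Fin (f x)) :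
    tr τ (∑ x ∈ s, f x) = ∑ x ∈ s, tr τ (f x) := by
  classical
  induction s using Finset.induction_on with
  | empty => rw [Finset.sum_empty, Finset.sum_empty, tr_zero]
  | insert a s ha ih =>
    have h2 : ∀ x ∈ s, Fin (f x) := fun x hx => h x (mem_insert_of_mem hx)
    rw [Finset.sum_insert ha, Finset.sum_insert ha, tr_add τ (h a (mem_insert_self a s))
      (Fin.sum s f h2), ih h2]

theorem tr_comm (τ : B →+ M) (hτ : ∀ x y, τ (x * y) = τ (y * x)) (ψ : Op B) {φ : Op B}
    (h : Fin φ) : tr τ (ψ * φ) = tr τ (φ * ψ) := by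
  obtain ⟨K, hK⟩ := h.exists
  have h1 := hK K le_rfl
  have h2 : ∀ j k, ent (ψ * φ) j k = ∑ l ∈ Finset.Icc (-(K : ℤ)) K, ent ψ j l * ent φ l k :=
    fun j k => ent_mul ψ φ j k _ (fun l hl => h1 l k (Or.inl hl))
  have h3 : ∀ j k, ent (φ * ψ) j k = ∑ l ∈ Finset.Icc (-(K : ℤ)) K, ent φ j l * ent ψ l k := by
    intro j k
    obtain ⟨K', hK'⟩ := band ψ
    rw [ent_mul φ ψ j k (Finset.Icc (-(K : ℤ)) K ∪ Finset.Icc (k - K') (k + K')) (fun l hl => by
      apply hK'
      rw [Finset.mem_union, not_or, Finset.mem_Icc, Finset.mem_Icc] at hl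
      rw [lt_abs]
      omega)]
    refine (Finset.sum_subset Finset.subset_union_left fun l _ hl => ?_).symm
    rw [h1 j l (Or.inr hl), zero_mul]
  rw [tr_eq τ (ψ * φ) (Finset.Icc (-(K : ℤ)) K) (fun j hj => by
      rw [h2]
      exact Finset.sum_eq_zero fun l _ => by rw [h1 l j (Or.inr hj), mul_zero]),
    tr_eq τ (φ * ψ) (Finset.Icc (-(K : ℤ)) K) (fun j hj => by
      rw [h3]
      exact Finset.sum_eq_zero fun l _ => by rw [h1 j l (Or.inl hj), zero_mul])]
  simp only [h2, h3, map_sum]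
  rw [Finset.sum_comm]
  exact Finset.sum_congr rfl fun j _ => Finset.sum_congr rfl fun k _ => hτ _ _

end trace

end

end Pool.Agent.Y69.NK
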