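import Mathlib
import Pool.Agent.Y69.NK.Op

/-!
# Matrices of band operators: traces, relative index of two idempotents
-/

set_option autoImplicit false
set_option linter.unusedSectionVars false
set_option linter.unusedSimpArgs false

namespace Pool.Agent.Y69.NK

open LaurentPolynomial Finset Matrix

noncomputable section

section one

variable {B : Type} [Ring B] {ι κ l : Type} [Fintype ι] [Fintype κ] [Fintype l]
variable {M : Type} [AddCommGroup M]

/-- all entries are finite -/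
def MFin (Φ : Matrix ι κ (Op B)) : Prop := ∀ r s, Fin (Φ r s)

theorem MFin.add {Φ Ψ : Matrix ι κ (Op B)} (h : MFin Φ) (h' : MFin Ψ) : MFin (Φ + Ψ) :=
  fun r s => (h r s).add (h' r s)

theorem MFin.sub {Φ Ψ : Matrix ι κ (Op B)} (h : MFin Φ) (h' : MFin Ψ) : MFin (Φ - Ψ) :=
  fun r s => (h r s).sub (h' r s)

theorem MFin.neg {Φ : Matrix ι κ (Op B)} (h : MFin Φ) : MFin (-Φ) :=
  fun r s => (h r s).neg

theorem MFin.zero : MFin (0 : Matrix ι κ (Op B)) := fun _ _ => Fin.zero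

theorem MFin.mul_left {Φ : Matrix κ l (Op B)} (h : MFin Φ) (Ψ : Matrix ι κ (Op B)) :
    MFin (Ψ * Φ) := fun r s => by
  rw [Matrix.mul_apply]
  exact Fin.sum _ _ fun x _ => (h x s).mul_left _

theorem MFin.mul_right {Φ : Matrix ι κ (Op B)} (h : MFin Φ) (Ψ : Matrix κ l (Op B)) :
    MFin (Φ * Ψ) := fun r s => by
  rw [Matrix.mul_apply]
  exact Fin.sum _ _ fun x _ => (h r x).mul_right _

theorem MFin.blocks {Φ : Matrix ι ι (Op B)} {Ψ : Matrix κ κ (Op B)} (h : MFin Φ) (h' : MFin Ψ) :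
    MFin (fromBlocks Φ 0 0 Ψ) := by
  rintro (r | r) (s | s)
  · exact h r s
  · exact Fin.zero
  · exact Fin.zero
  · exact h' r s

/-- the trace of a matrix of finite operators -/
def TR (τ : B →+ M) (Φ : Matrix ι ι (Op B)) : M := ∑ r, tr τ (Φ r r)

theorem TR_add (τ : B →+ M) {Φ Ψ : Matrix ι ι (Op B)} (h : MFin Φ) (h' : MFin Ψ) :
    TR τ (Φ + Ψ) = TR τ Φ + TR τ Ψ := by
  unfold TR
  rw [← Finset.sum_add_distrib]
  exact Finset.sum_congr rfl fun r _ => tr_add τ (h r r) (h' r r)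

theorem TR_neg (τ : B →+ M) (Φ : Matrix ι ι (Op B)) : TR τ (-Φ) = -TR τ Φ := by
  unfold TR
  rw [← Finset.sum_neg_distrib]
  exact Finset.sum_congr rfl fun r _ => tr_neg τ (Φ r r)

theorem TR_sub (τ : B →+ M) {Φ Ψ : Matrix ι ι (Op B)} (h : MFin Φ) (h' : MFin Ψ) :
    TR τ (Φ - Ψ) = TR τ Φ - TR τ Ψ := by
  rw [sub_eq_add_neg, TR_add τ h h'.neg, TR_neg, sub_eq_add_neg]

theorem TR_zero (τ : B →+ M) : TR τ (0 : Matrix ι ι (Op B)) = 0 :=
  Finset.sum_eq_zero fun _ _ => tr_zero τ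

theorem TR_comm (τ : B →+ M) (hτ : ∀ x y, τ (x * y) = τ (y * x)) (Ψ : Matrix ι κ (Op B))
    {Φ : Matrix κ ι (Op B)} (h : MFin Φ) : TR τ (Ψ * Φ) = TR τ (Φ * Ψ) := by
  unfold TR
  have h1 : ∀ r, tr τ ((Ψ * Φ) r r) = ∑ s, tr τ (Ψ r s * Φ s r) := fun r => by
    rw [Matrix.mul_apply]
    exact tr_sum τ _ _ fun x _ => (h x r).mul_left _
  have h2 : ∀ s, tr τ ((Φ * Ψ) s s) = ∑ r, tr τ (Φ s r * Ψ r s) := fun s => by
    rw [Matrix.mul_apply]
    exact tr_sum τ _ _ fun x _ => (h s x).mul_right _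
  rw [Finset.sum_congr rfl fun r _ => h1 r, Finset.sum_congr rfl fun s _ => h2 s,
    Finset.sum_comm]
  exact Finset.sum_congr rfl fun s _ => Finset.sum_congr rfl fun r _ => tr_comm τ hτ _ (h s r)

theorem TR_blocks (τ : B →+ M) (Φ : Matrix ι ι (Op B)) (Ψ : Matrix κ κ (Op B)) :
    TR τ (fromBlocks Φ 0 0 Ψ) = TR τ Φ + TR τ Ψ := by
  unfold TR
  rw [Fintype.sum_sum_type]
  rfl

theorem TR_submatrix (τ : B →+ M) (Φ : Matrix ι ι (Op B)) (e : κ ≃ ι) :
    TR τ (Φ.submatrix e e) = TR τ Φ := by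
  unfold TR
  exact e.sum_comp fun r => tr τ (Φ r r)

theorem MFin.exists {Φ : Matrix ι κ (Op B)} (h : MFin Φ) : ∃ K : ℕ, ∀ r s, ∀ i j : ℤ,
    (i ∉ Finset.Icc (-(K : ℤ)) K ∨ j ∉ Finset.Icc (-(K : ℤ)) K) → ent (Φ r s) i j = 0 := by
  choose K hK using fun r s => (h r s).exists
  refine ⟨Finset.univ.sup fun x : ι × κ => K x.1 x.2, fun r s => hK r s _ ?_⟩
  exact Finset.le_sup (f := fun x : ι × κ => K x.1 x.2) (mem_univ (r, s))

variable (M) in
/-- A finite perturbation of a coordinate projection gives an idempotent matrix over `B`. -/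
theorem extract [DecidableEq ι] (E : Matrix ι ι (Op B)) (hE : E * E = E) (c : ι → Prop)
    [DecidablePred c]
    (h : MFin (E - Matrix.diagonal fun r => if c r then (1 : Op B) else 0)) :
    ∃ (m : ℕ) (e : Matrix (_root_.Fin m) (_root_.Fin m) B) (c' : ℕ), e * e = e ∧
      ∀ τ : B →+ M, ∑ i, τ (e i i) =
        c' • τ 1 + TR τ (E - Matrix.diagonal fun r => if c r then (1 : Op B) else 0) := by
  obtain ⟨K, hK⟩ := h.exists
  set W := Finset.Icc (-(K : ℤ)) K with hW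
  set D : Matrix ι ι (Op B) := Matrix.diagonal fun r => if c r then (1 : Op B) else 0 with hD
  have hDent : ∀ r s i j, ent (D r s) i j = if r = s ∧ c r ∧ i = j then 1 else 0 := by
    intro r s i j
    rw [hD, Matrix.diagonal_apply]
    by_cases h1 : r = s
    · by_cases h2 : c r
      · rw [if_pos h1, if_pos h2, ent_one]
        by_cases h3 : i = j
        · rw [if_pos h3, if_pos ⟨h1, h2, h3⟩]
        · rw [if_neg h3, if_neg (fun h => h3 h.2.2)]
      · rw [if_pos h1, if_neg h2, ent_zero, if_neg (fun h => h2 h.2.1)]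
    · rw [if_neg h1, ent_zero, if_neg (fun h => h1 h.1)]
  have hEent : ∀ r s i j, ent (E r s) i j = ent ((E - D) r s) i j + ent (D r s) i j := by
    intro r s i j
    rw [← ent_add, Matrix.sub_apply, sub_add_cancel]
  have hout : ∀ r s i j, j ∈ W → i ∉ W → ent (E r s) i j = 0 := by
    intro r s i j hj hi
    rw [hEent, hK r s i j (Or.inl hi), hDent, if_neg, add_zero]
    rintro ⟨_, _, rfl⟩
    exact hi hj
  let e0 : Matrix (ι × W) (ι × W) B := Matrix.of fun x y => ent (E x.1 y.1) x.2 y.2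
  have he0 : e0 * e0 = e0 := by
    ext x y
    rw [Matrix.mul_apply, Fintype.sum_prod_type]
    have h1 : ∀ t, ∑ k : W, e0 x (t, k) * e0 (t, k) y =
        ent (E x.1 t * E t y.1) x.2 y.2 := by
      intro t
      rw [ent_mul (E x.1 t) (E t y.1) x.2 y.2 W (fun k hk => hout _ _ _ _ y.2.2 hk)]
      exact Finset.sum_coe_sort W fun k => ent (E x.1 t) x.2 k * ent (E t y.1) k y.2
    rw [Finset.sum_congr rfl fun t _ => h1 t, ← ent_sum, ← Matrix.mul_apply, hE]
    rfl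
  let σ := Fintype.equivFin (ι × W)
  refine ⟨Fintype.card (ι × W), e0.submatrix σ.symm σ.symm,
    Finset.card (Finset.univ.filter fun x : ι × W => c x.1), ?_, fun τ => ?_⟩
  · rw [Matrix.submatrix_mul_equiv, he0]
  · have h1 : ∑ i, τ ((e0.submatrix σ.symm σ.symm) i i) = ∑ x : ι × W, τ (e0 x x) :=
      σ.symm.sum_comp fun x => τ (e0 x x)
    rw [h1]
    have h2 : ∀ x : ι × W, τ (e0 x x) = (if c x.1 then τ 1 else 0) +
        τ (ent ((E - D) x.1 x.1) x.2 x.2) := by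
      intro x
      show τ (ent (E x.1 x.1) x.2 x.2) = _
      rw [hEent, map_add, add_comm, hDent]
      by_cases h3 : c x.1
      · rw [if_pos ⟨rfl, h3, rfl⟩, if_pos h3]
      · rw [if_neg (fun h => h3 h.2.1), if_neg h3, map_zero]
    rw [Finset.sum_congr rfl fun x _ => h2 x, Finset.sum_add_distrib]
    congr 1
    · rw [← Finset.sum_filter, Finset.sum_const]
    · rw [Fintype.sum_prod_type]
      unfold TR
      refine Finset.sum_congr rfl fun r _ => ?_
      rw [tr_eq τ _ W (fun j hj => hK r r j j (Or.inl hj))]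
      exact Finset.sum_coe_sort W fun k => τ (ent ((E - D) r r) k k)

variable (M) in
/-- The relative index of two idempotents whose difference is finite. -/
theorem rel_index (R₁ R₂ : Matrix ι ι (Op B)) (h₁ : R₁ * R₁ = R₁) (h₂ : R₂ * R₂ = R₂)
    (h : MFin (R₁ - R₂)) :
    ∃ (m : ℕ) (e : Matrix (_root_.Fin m) (_root_.Fin m) B) (c' : ℕ), e * e = e ∧
      ∀ τ : B →+ M, (∀ x y, τ (x * y) = τ (y * x)) → ∑ i, τ (e i i) =
        c' • τ 1 + TR τ (R₁ - R₂) := by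
  classical
  let z : Matrix (ι ⊕ ι) (ι ⊕ ι) (Op B) := fromBlocks R₂ (1 - R₂) (1 - R₂) R₂
  have h3 : R₂ * (1 - R₂) = 0 := by rw [mul_sub, mul_one, h₂, sub_self]
  have h4 : (1 - R₂) * R₂ = 0 := by rw [sub_mul, one_mul, h₂, sub_self]
  have h5 : (1 - R₂) * (1 - R₂) = 1 - R₂ := by rw [mul_sub, mul_one, h4, sub_zero]
  have hz : z * z = 1 := by
    show fromBlocks _ _ _ _ * fromBlocks _ _ _ _ = _
    rw [fromBlocks_multiply, h₂, h3, h4, h5, add_sub_cancel, sub_add_cancel, add_zero,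
      fromBlocks_one]
  let E := z * fromBlocks R₁ 0 0 (1 - R₂) * z
  have hE : E * E = E := by
    show z * fromBlocks R₁ 0 0 (1 - R₂) * z * (z * fromBlocks R₁ 0 0 (1 - R₂) * z) = _
    have : z * fromBlocks R₁ 0 0 (1 - R₂) * z * (z * fromBlocks R₁ 0 0 (1 - R₂) * z) =
        z * (fromBlocks R₁ 0 0 (1 - R₂) * (z * z) * fromBlocks R₁ 0 0 (1 - R₂)) * z := by
      simp only [mul_assoc]
    rw [this, hz, mul_one, fromBlocks_multiply, h₁, h5]
    simp only [mul_zero, zero_mul, add_zero, zero_add]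
    rfl
  have hD : (Matrix.diagonal fun r : ι ⊕ ι => if r.isLeft then (1 : Op B) else 0) =
      fromBlocks 1 0 0 0 := by
    ext1 r s
    rcases r with r | r <;> rcases s with s | s
    · by_cases hrs : r = s
      · subst hrs
        simp
      · simp [Matrix.diagonal_apply, hrs]
    · simp
    · simp
    · by_cases hrs : r = s
      · subst hrs
        simp
      · simp [Matrix.diagonal_apply, hrs]
  have h6 : z * fromBlocks R₂ 0 0 (1 - R₂) * z = fromBlocks 1 0 0 0 := by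
    show fromBlocks _ _ _ _ * fromBlocks _ _ _ _ * fromBlocks _ _ _ _ = _
    rw [fromBlocks_multiply, h₂, h3, h4, h5]
    simp only [mul_zero, add_zero, zero_add, zero_mul]
    rw [fromBlocks_multiply, h₂, h3, h4, h5]
    simp only [mul_zero, add_zero, zero_add, zero_mul, add_sub_cancel]
  have h7 : E - (Matrix.diagonal fun r : ι ⊕ ι => if r.isLeft then (1 : Op B) else 0) =
      z * fromBlocks (R₁ - R₂) 0 0 0 * z := by
    rw [hD, ← h6]
    show z * fromBlocks R₁ 0 0 (1 - R₂) * z - _ = _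
    rw [← sub_mul, ← mul_sub]
    congr 2
    ext1 r s
    rcases r with r | r <;> rcases s with s | s <;> simp
  have h8 : MFin (fromBlocks (R₁ - R₂) 0 0 0 : Matrix (ι ⊕ ι) (ι ⊕ ι) (Op B)) :=
    h.blocks MFin.zero
  obtain ⟨m, e, c', he, hτ⟩ := extract M E hE (fun r : ι ⊕ ι => r.isLeft) (by
    rw [h7]
    exact (h8.mul_left z).mul_right z)
  refine ⟨m, e, c', he, fun τ hc => ?_⟩
  rw [hτ τ, h7, mul_assoc, TR_comm τ hc z (h8.mul_right z), mul_assoc, hz, mul_one, TR_blocks,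
    TR_zero, add_zero]

end one

section base

variable {B B' : Type} [Ring B] [Ring B'] (θ : B →+* B')
variable {M : Type} [AddCommGroup M]

/-- `φ'` is obtained from `φ` by change of rings -/
def Rel (φ : Op B) (φ' : Op B') : Prop := ∀ i j, ent φ' i j = θ (ent φ i j)

variable {θ}

theorem Rel.add {φ ψ : Op B} {φ' ψ' : Op B'} (h : Rel θ φ φ') (h' : Rel θ ψ ψ') :
    Rel θ (φ + ψ) (φ' + ψ') := fun i j => by
  rw [ent_add, ent_add, map_add, h, h']

theorem Rel.sub {φ ψ : Op B} {φ' ψ' : Op B'} (h : Rel θ φ φ') (h' : Rel θ ψ ψ') :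
    Rel θ (φ - ψ) (φ' - ψ') := fun i j => by
  rw [ent_sub, ent_sub, map_sub, h, h']

theorem Rel.zero : Rel θ 0 0 := fun i j => by
  rw [ent_zero, ent_zero, map_zero]

theorem Rel.one : Rel θ 1 1 := fun i j => by
  rw [ent_one, ent_one]
  split_ifs
  · exact (map_one θ).symm
  · exact (map_zero θ).symm

theorem Rel.tru : Rel θ (tru B) (tru B') := fun i j => by
  rw [ent_tru, ent_tru]
  split_ifs
  · exact (map_one θ).symm
  · exact (map_zero θ).symm

theorem Rel.mul {φ ψ : Op B} {φ' ψ' : Op B'} (h : Rel θ φ φ') (h' : Rel θ ψ ψ') :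
    Rel θ (φ * ψ) (φ' * ψ') := fun i j => by
  obtain ⟨d, hd⟩ := band ψ
  have h1 : ∀ k, k ∉ Finset.Icc (j - d) (j + d) → ent ψ k j = 0 := fun k hk => by
    apply hd
    rw [Finset.mem_Icc] at hk
    rw [lt_abs]
    omega
  rw [ent_mul φ' ψ' i j (Finset.Icc (j - d) (j + d)) (fun k hk => by rw [h', h1 k hk, map_zero]),
    ent_mul φ ψ i j _ h1, map_sum]
  exact Finset.sum_congr rfl fun k _ => by rw [h, h', map_mul]

theorem Rel.sum {ι : Type} (s : Finset ι) {f : ι → Op B} {g : ι → Op B'}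
    (h : ∀ x ∈ s, Rel θ (f x) (g x)) : Rel θ (∑ x ∈ s, f x) (∑ x ∈ s, g x) := fun i j => by
  rw [ent_sum, ent_sum, map_sum]
  exact Finset.sum_congr rfl fun x hx => h x hx i j

theorem Rel.lm (a : LaurentPolynomial B) :
    Rel θ (lm B a) (lm B' (AddMonoidAlgebra.mapRingHom ℤ θ a)) := fun i j => by
  rw [ent_lm, ent_lm]
  rfl

theorem Rel.fin {φ : Op B} {φ' : Op B'} (h : Rel θ φ φ') (hφ : Fin φ) : Fin φ' := by
  obtain ⟨K, hK⟩ := hφ
  exact ⟨K, fun i j hij => by rw [h, hK i j hij, map_zero]⟩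

theorem Rel.tr {φ : Op B} {φ' : Op B'} (h : Rel θ φ φ') (τ : B' →+ M) :
    tr τ φ' = tr (τ.comp (θ : B →+ B')) φ := by
  unfold NK.tr
  exact finsum_congr fun j => by
    rw [h]
    rfl

theorem Rel.unique {φ : Op B} {φ' φ'' : Op B'} (h : Rel θ φ φ') (h' : Rel θ φ φ'') : φ' = φ'' :=
  ent_ext fun i j => by rw [h, h']

variable {ι κ l : Type} [Fintype ι] [Fintype κ] [Fintype l]

variable (θ) in
/-- change of rings for matrices -/
def MRel (Φ : Matrix ι κ (Op B)) (Φ' : Matrix ι κ (Op B')) : Prop :=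
  ∀ r s, Rel θ (Φ r s) (Φ' r s)

theorem MRel.add {Φ Ψ : Matrix ι κ (Op B)} {Φ' Ψ' : Matrix ι κ (Op B')} (h : MRel θ Φ Φ')
    (h' : MRel θ Ψ Ψ') : MRel θ (Φ + Ψ) (Φ' + Ψ') := fun r s => (h r s).add (h' r s)

theorem MRel.sub {Φ Ψ : Matrix ι κ (Op B)} {Φ' Ψ' : Matrix ι κ (Op B')} (h : MRel θ Φ Φ')
    (h' : MRel θ Ψ Ψ') : MRel θ (Φ - Ψ) (Φ' - Ψ') := fun r s => (h r s).sub (h' r s)

theorem MRel.mul {Φ : Matrix ι κ (Op B)} {Ψ : Matrix κ l (Op B)} {Φ' : Matrix ι κ (Op B')}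
    {Ψ' : Matrix κ l (Op B')} (h : MRel θ Φ Φ') (h' : MRel θ Ψ Ψ') : MRel θ (Φ * Ψ) (Φ' * Ψ') :=
  fun r s => by
  rw [Matrix.mul_apply, Matrix.mul_apply]
  exact Rel.sum _ fun x _ => (h r x).mul (h' x s)

theorem MRel.zero : MRel θ (0 : Matrix ι κ (Op B)) 0 := fun _ _ => Rel.zero

theorem MRel.blocks {Φ : Matrix ι ι (Op B)} {Ψ : Matrix κ κ (Op B)} {Φ' : Matrix ι ι (Op B')}
    {Ψ' : Matrix κ κ (Op B')} (h : MRel θ Φ Φ') (h' : MRel θ Ψ Ψ') :
    MRel θ (fromBlocks Φ 0 0 Ψ) (fromBlocks Φ' 0 0 Ψ') := by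
  rintro (r | r) (s | s)
  · exact h r s
  · exact Rel.zero
  · exact Rel.zero
  · exact h' r s

theorem MRel.fin {Φ : Matrix ι κ (Op B)} {Φ' : Matrix ι κ (Op B')} (h : MRel θ Φ Φ')
    (hΦ : MFin Φ) : MFin Φ' := fun r s => (h r s).fin (hΦ r s)

theorem MRel.TR {Φ : Matrix ι ι (Op B)} {Φ' : Matrix ι ι (Op B')} (h : MRel θ Φ Φ')
    (τ : B' →+ M) : TR τ Φ' = TR (τ.comp (θ : B →+ B')) Φ :=
  Finset.sum_congr rfl fun r _ => (h r r).tr τ

theorem MRel.lm (X : Matrix ι κ (LaurentPolynomial B)) :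
    MRel θ (X.map (lm B)) ((X.map (AddMonoidAlgebra.mapRingHom ℤ θ)).map (lm B')) :=
  fun _ _ => Rel.lm _

theorem MRel.unique {Φ : Matrix ι κ (Op B)} {Φ' Φ'' : Matrix ι κ (Op B')} (h : MRel θ Φ Φ')
    (h' : MRel θ Φ Φ'') : Φ' = Φ'' := by
  ext1 r s
  exact (h r s).unique (h' r s)

end base

end

end Pool.Agent.Y69.NK
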