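import Mathlib
import Pool.Agent.Y69.NK.Mat
import Pool.Agent.Y69.NK.K0

/-!
# Polarisations of idempotent matrices over Laurent polynomial rings
-/

set_option autoImplicit false
set_option linter.unusedSectionVars false
set_option linter.unusedSimpArgs false

namespace Pool.Agent.Y69.NK

open LaurentPolynomial Finset Matrix

noncomputable section

variable {B : Type} [Ring B] {ι κ l : Type} [Fintype ι] [Fintype κ] [Fintype l]
  [DecidableEq ι] [DecidableEq κ] [DecidableEq l]
variable {M : Type} [AddCommGroup M]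

/-- the operator of a matrix -/
abbrev op (X : Matrix ι κ (LaurentPolynomial B)) : Matrix ι κ (Op B) := X.map (lm B)

variable (B ι) in
/-- the truncation -/
def pI : Matrix ι ι (Op B) := Matrix.diagonal fun _ => tru B

theorem op_mul (X : Matrix ι κ (LaurentPolynomial B)) (Y : Matrix κ l (LaurentPolynomial B)) :
    op (X * Y) = op X * op Y := Matrix.map_mul

theorem op_one : op (1 : Matrix ι ι (LaurentPolynomial B)) = 1 :=
  Matrix.map_one _ (map_zero _) (map_one _)

theorem tru_sq : tru B * tru B = tru B := ent_ext fun i j => by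
  rw [ent_mul _ _ i j {j} (fun k hk => by
    rw [ent_tru, if_neg]
    rintro ⟨rfl, _⟩
    exact hk (Finset.mem_singleton_self _)), Finset.sum_singleton, ent_tru, ent_tru]
  by_cases h1 : i = j
  · by_cases h2 : 0 ≤ j
    · rw [if_pos ⟨h1, h2⟩, if_pos ⟨rfl, h2⟩, mul_one]
    · rw [if_neg (fun h => h2 h.2), if_neg (fun h => h2 h.2), mul_zero]
  · rw [if_neg (fun h => h1 h.1), zero_mul]

theorem pI_sq : pI B ι * pI B ι = pI B ι := by
  unfold pI
  rw [Matrix.diagonal_mul_diagonal]
  simp only [tru_sq]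

theorem fin_op_comm (X : Matrix ι κ (LaurentPolynomial B)) :
    MFin (op X * pI B κ - pI B ι * op X) := fun r s => by
  unfold pI
  rw [Matrix.sub_apply, Matrix.mul_diagonal, Matrix.diagonal_mul]
  exact fin_comm _

/-- a polarisation of the idempotent matrix `F` -/
def Pol (F : Matrix ι ι (LaurentPolynomial B)) (R : Matrix ι ι (Op B)) : Prop :=
  R * R = R ∧ op F * R = R ∧ R * op F = R ∧ MFin (R - op F * pI B ι)

theorem ent_tru_mul (φ : Op B) (i j : ℤ) :
    ent (tru B * φ) i j = if 0 ≤ i then ent φ i j else 0 := by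
  show (truncHom B (φ.1 (T j))).coeff i = _
  rw [truncHom_coeff]
  rfl

theorem ent_mul_tru (φ : Op B) (i j : ℤ) :
    ent (φ * tru B) i j = if 0 ≤ j then ent φ i j else 0 := by
  rw [ent_mul _ _ i j {j} (fun k hk => by
    rw [ent_tru, if_neg]
    rintro ⟨rfl, _⟩
    exact hk (Finset.mem_singleton_self _)), Finset.sum_singleton, ent_tru]
  by_cases h2 : 0 ≤ j
  · rw [if_pos ⟨rfl, h2⟩, if_pos h2, mul_one]
  · rw [if_neg (fun h => h2 h.2), if_neg h2, mul_zero]

/-- nonnegative exponents -/
theorem pol_pos {F : Matrix ι ι (LaurentPolynomial B)} (hF : F * F = F)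
    (h : ∀ r s, ∀ i : ℤ, i < 0 → (F r s).coeff i = 0) : Pol F (op F * pI B ι * op F) := by
  have hFF : op F * op F = op F := by rw [← op_mul, hF]
  have h1 : pI B ι * op F * pI B ι = op F * pI B ι := by
    ext1 r s
    unfold pI
    rw [Matrix.mul_diagonal, Matrix.diagonal_mul, Matrix.mul_diagonal]
    apply ent_ext
    intro i j
    rw [ent_mul_tru, ent_mul_tru, ent_tru_mul]
    by_cases hj : 0 ≤ j
    · rw [if_pos hj, if_pos hj]
      by_cases hi : 0 ≤ i
      · rw [if_pos hi]
      · rw [if_neg hi]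
        show 0 = ent (lm B (F r s)) i j
        rw [ent_lm, h r s (i - j) (by omega)]
    · rw [if_neg hj, if_neg hj]
  refine ⟨?_, ?_, ?_, ?_⟩
  · calc op F * pI B ι * op F * (op F * pI B ι * op F)
        = op F * (pI B ι * (op F * op F) * pI B ι) * op F := by simp only [mul_assoc]
      _ = op F * pI B ι * op F := by rw [hFF, h1, ← mul_assoc (op F), hFF]
  · rw [← mul_assoc, ← mul_assoc, hFF]
  · rw [mul_assoc, hFF]
  · have h2 : op F * pI B ι * op F - op F * pI B ι =
        -(op F * (op F * pI B ι - pI B ι * op F)) := by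
      rw [mul_sub, ← mul_assoc, ← mul_assoc, hFF]
      abel
    rw [h2]
    exact ((fin_op_comm F).mul_left _).neg

/-- nonpositive exponents -/
theorem pol_neg {F : Matrix ι ι (LaurentPolynomial B)} (hF : F * F = F)
    (h : ∀ r s, ∀ i : ℤ, 0 < i → (F r s).coeff i = 0) : Pol F (op F * pI B ι * op F) := by
  have hFF : op F * op F = op F := by rw [← op_mul, hF]
  have h1 : pI B ι * op F * pI B ι = pI B ι * op F := by
    ext1 r s
    unfold pI
    rw [Matrix.mul_diagonal, Matrix.diagonal_mul]
    apply ent_ext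
    intro i j
    rw [ent_mul_tru, ent_tru_mul]
    by_cases hj : 0 ≤ j
    · rw [if_pos hj]
    · rw [if_neg hj]
      by_cases hi : 0 ≤ i
      · rw [if_pos hi]
        show 0 = ent (lm B (F r s)) i j
        rw [ent_lm, h r s (i - j) (by omega)]
      · rw [if_neg hi]
  refine ⟨?_, ?_, ?_, ?_⟩
  · calc op F * pI B ι * op F * (op F * pI B ι * op F)
        = op F * (pI B ι * (op F * op F) * pI B ι) * op F := by simp only [mul_assoc]
      _ = op F * pI B ι * op F := by
        rw [hFF, h1, ← mul_assoc (op F), mul_assoc (op F * pI B ι), hFF]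
  · rw [← mul_assoc, ← mul_assoc, hFF]
  · rw [mul_assoc, hFF]
  · have h2 : op F * pI B ι * op F - op F * pI B ι =
        -(op F * (op F * pI B ι - pI B ι * op F)) := by
      rw [mul_sub, ← mul_assoc, ← mul_assoc, hFF]
      abel
    rw [h2]
    exact ((fin_op_comm F).mul_left _).neg

variable (B) in
/-- a coordinate projection -/
def eD (c : κ → Prop) [DecidablePred c] : Matrix κ κ (LaurentPolynomial B) :=
  Matrix.diagonal fun r => if c r then 1 else 0

theorem eD_sq (c : κ → Prop) [DecidablePred c] : eD B c * eD B c = eD B c := by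
  unfold eD
  rw [Matrix.diagonal_mul_diagonal]
  congr 1
  ext1 r
  split_ifs <;> simp

theorem eD_pI (c : κ → Prop) [DecidablePred c] :
    op (eD B c) * pI B κ = pI B κ * op (eD B c) := by
  ext1 r s
  unfold pI
  rw [Matrix.mul_diagonal, Matrix.diagonal_mul]
  have h : op (eD B c) r s = if r = s ∧ c r then 1 else 0 := by
    show lm B ((Matrix.diagonal fun r => if c r then 1 else 0 :
      Matrix κ κ (LaurentPolynomial B)) r s) = _
    rw [Matrix.diagonal_apply]
    by_cases h1 : r = s
    · by_cases h2 : c r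
      · rw [if_pos h1, if_pos h2, if_pos ⟨h1, h2⟩, map_one]
      · rw [if_pos h1, if_neg h2, if_neg (fun h => h2 h.2), map_zero]
    · rw [if_neg h1, if_neg (fun h => h1 h.1), map_zero]
  rw [h]
  split_ifs <;> simp

/-- matrices conjugate to a coordinate projection -/
theorem pol_conj (U : Matrix ι κ (LaurentPolynomial B)) (U' : Matrix κ ι (LaurentPolynomial B))
    (hU : U' * U = 1) (c : κ → Prop) [DecidablePred c] :
    Pol (U * eD B c * U') (op U * (op (eD B c) * pI B κ) * op U') := by
  have h0 : op U' * op U = 1 := by rw [← op_mul, hU, op_one]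
  have h1 : op (eD B c) * op (eD B c) = op (eD B c) := by rw [← op_mul, eD_sq]
  have h2 : op (eD B c) * pI B κ * (op (eD B c) * pI B κ) = op (eD B c) * pI B κ := by
    calc op (eD B c) * pI B κ * (op (eD B c) * pI B κ)
        = op (eD B c) * (pI B κ * op (eD B c)) * pI B κ := by simp only [mul_assoc]
      _ = op (eD B c) * op (eD B c) * (pI B κ * pI B κ) := by
        rw [← eD_pI]
        simp only [mul_assoc]
      _ = _ := by rw [h1, pI_sq]
  refine ⟨?_, ?_, ?_, ?_⟩
  · calc op U * (op (eD B c) * pI B κ) * op U' * (op U * (op (eD B c) * pI B κ) * op U')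
        = op U * (op (eD B c) * pI B κ * (op U' * op U) * (op (eD B c) * pI B κ)) * op U' := by
          simp only [Matrix.mul_assoc]
      _ = _ := by rw [h0, Matrix.mul_one, h2]
  · rw [op_mul, op_mul]
    calc op U * op (eD B c) * op U' * (op U * (op (eD B c) * pI B κ) * op U')
        = op U * (op (eD B c) * (op U' * op U) * op (eD B c)) * pI B κ * op U' := by
          simp only [Matrix.mul_assoc]
      _ = _ := by
        rw [h0, Matrix.mul_one, h1]
        simp only [Matrix.mul_assoc]
  · rw [op_mul, op_mul]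
    calc op U * (op (eD B c) * pI B κ) * op U' * (op U * op (eD B c) * op U')
        = op U * (op (eD B c) * pI B κ * (op U' * op U) * op (eD B c)) * op U' := by
          simp only [Matrix.mul_assoc]
      _ = _ := by
        rw [h0, Matrix.mul_one, Matrix.mul_assoc (op (eD B c)) (pI B κ), ← eD_pI,
          ← Matrix.mul_assoc (op (eD B c)) (op (eD B c)), h1]
  · rw [op_mul, op_mul]
    have h3 : op U * (op (eD B c) * pI B κ) * op U' - op U * op (eD B c) * op U' * pI B ι =
        -(op U * op (eD B c) * (op U' * pI B ι - pI B κ * op U')) := by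
      rw [Matrix.mul_sub]
      simp only [Matrix.mul_assoc]
      abel
    rw [h3]
    exact ((fin_op_comm U').mul_left _).neg

theorem op_blocks (F : Matrix ι ι (LaurentPolynomial B)) (F' : Matrix κ κ (LaurentPolynomial B)) :
    op (fromBlocks F 0 0 F') = fromBlocks (op F) 0 0 (op F') := by
  unfold op
  rw [Matrix.fromBlocks_map]
  congr 1

theorem pI_blocks : pI B (ι ⊕ κ) = fromBlocks (pI B ι) 0 0 (pI B κ) := by
  unfold pI
  rw [Matrix.fromBlocks_diagonal]
  congr 1
  ext1 r
  rcases r with r | r <;> rfl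

theorem Pol.blocks {F : Matrix ι ι (LaurentPolynomial B)} {F' : Matrix κ κ (LaurentPolynomial B)}
    {R : Matrix ι ι (Op B)} {R' : Matrix κ κ (Op B)} (h : Pol F R) (h' : Pol F' R') :
    Pol (fromBlocks F 0 0 F') (fromBlocks R 0 0 R') := by
  refine ⟨?_, ?_, ?_, ?_⟩
  · rw [fromBlocks_multiply, h.1, h'.1]
    simp
  · rw [op_blocks, fromBlocks_multiply, h.2.1, h'.2.1]
    simp
  · rw [op_blocks, fromBlocks_multiply, h.2.2.1, h'.2.2.1]
    simp
  · rw [op_blocks, pI_blocks, fromBlocks_multiply]
    simp only [Matrix.mul_zero, Matrix.zero_mul, add_zero, zero_add]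
    have h1 : fromBlocks R 0 0 R' - fromBlocks (op F * pI B ι) 0 0 (op F' * pI B κ) =
        fromBlocks (R - op F * pI B ι) 0 0 (R' - op F' * pI B κ) := by
      ext1 r s
      rcases r with r | r <;> rcases s with s | s
      · rfl
      · exact sub_self _
      · exact sub_self _
      · rfl
    rw [h1]
    exact h.2.2.2.blocks h'.2.2.2

/-- transport of a polarisation along an equivalence of idempotents -/
theorem Pol.transfer {F₁ : Matrix ι ι (LaurentPolynomial B)} {F₂ : Matrix κ κ (LaurentPolynomial B)}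
    {R₁ : Matrix ι ι (Op B)} {R₂ : Matrix κ κ (Op B)} (h₁ : Pol F₁ R₁) (h₂ : Pol F₂ R₂)
    (hF : F₂ * F₂ = F₂)
    (x : Matrix ι κ (LaurentPolynomial B)) (y : Matrix κ ι (LaurentPolynomial B)) (hxy : x * y = F₁)
    (hyx : y * x = F₂) :
    op y * R₁ * op x * (op y * R₁ * op x) = op y * R₁ * op x ∧ MFin (op y * R₁ * op x - R₂) := by
  have hxy' : op x * op y = op F₁ := by rw [← op_mul, hxy]
  have hyx' : op y * op x = op F₂ := by rw [← op_mul, hyx]
  have hFF : op F₂ * op F₂ = op F₂ := by rw [← op_mul, hF]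
  constructor
  · calc op y * R₁ * op x * (op y * R₁ * op x)
        = op y * (R₁ * (op x * op y) * R₁) * op x := by simp only [Matrix.mul_assoc]
      _ = _ := by rw [hxy', h₁.2.2.1, h₁.1]
  · have h3 : op y * R₁ * op x - R₂ = op y * (R₁ - op F₁ * pI B ι) * op x -
        op y * op F₁ * (op x * pI B κ - pI B ι * op x) - (R₂ - op F₂ * pI B κ) := by
      have h4 : op y * op F₁ * (op x * pI B κ) = op F₂ * pI B κ := by
        rw [← hxy']
        calc op y * (op x * op y) * (op x * pI B κ)
            = (op y * op x) * (op y * op x) * pI B κ := by simp only [Matrix.mul_assoc]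
          _ = _ := by rw [hyx', hFF]
      rw [Matrix.mul_sub, Matrix.mul_sub, Matrix.sub_mul, h4]
      simp only [Matrix.mul_assoc]
      abel
    rw [h3]
    exact (((h₁.2.2.2.mul_left _).mul_right _).sub ((fin_op_comm x).mul_left _)).sub h₂.2.2.2

theorem Pol.diff {F : Matrix ι ι (LaurentPolynomial B)} {R Q : Matrix ι ι (Op B)} (h : Pol F R)
    (h' : Pol F Q) : MFin (R - Q) := by
  have : R - Q = (R - op F * pI B ι) - (Q - op F * pI B ι) := by abel
  rw [this]
  exact h.2.2.2.sub h'.2.2.2

/-- comparison of two pairs of polarisations -/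
theorem Pol.compare {F₁ : Matrix ι ι (LaurentPolynomial B)} {F₂ : Matrix κ κ (LaurentPolynomial B)}
    {R₁ Q₁ : Matrix ι ι (Op B)} {R₂ Q₂ : Matrix κ κ (Op B)} (h₁ : Pol F₁ R₁) (h₂ : Pol F₂ R₂)
    (k₁ : Pol F₁ Q₁) (k₂ : Pol F₂ Q₂) (hF : F₂ * F₂ = F₂)
    (x : Matrix ι κ (LaurentPolynomial B)) (y : Matrix κ ι (LaurentPolynomial B)) (hxy : x * y = F₁)
    (hyx : y * x = F₂) (τ : B →+ M) (hτ : ∀ x y, τ (x * y) = τ (y * x)) :
    TR τ (op y * R₁ * op x - R₂) - TR τ (op y * Q₁ * op x - Q₂) =
      TR τ (R₁ - Q₁) - TR τ (R₂ - Q₂) := by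
  have hxy' : op x * op y = op F₁ := by rw [← op_mul, hxy]
  have a1 := (h₁.transfer h₂ hF x y hxy hyx).2
  have a2 := (k₁.transfer k₂ hF x y hxy hyx).2
  have a3 := h₁.diff k₁
  have a4 := h₂.diff k₂
  rw [← TR_sub τ a1 a2]
  have h3 : op y * R₁ * op x - R₂ - (op y * Q₁ * op x - Q₂) =
      op y * ((R₁ - Q₁) * op x) - (R₂ - Q₂) := by
    rw [Matrix.sub_mul, Matrix.mul_sub]
    simp only [Matrix.mul_assoc]
    abel
  rw [h3, TR_sub τ ((a3.mul_right _).mul_left _) a4, TR_comm τ hτ (op y) (a3.mul_right _),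
    Matrix.mul_assoc, hxy', Matrix.sub_mul, h₁.2.2.1, k₁.2.2.1]

section base

variable {B' : Type} [Ring B'] {θ : B →+* B'}

theorem MRel.op (X : Matrix ι κ (LaurentPolynomial B)) :
    MRel θ (op X) (NK.op (X.map (AddMonoidAlgebra.mapRingHom ℤ θ))) := MRel.lm X

theorem MRel.pI : MRel θ (pI B ι) (pI B' ι) := fun r s => by
  unfold NK.pI
  rw [Matrix.diagonal_apply, Matrix.diagonal_apply]
  split_ifs
  · exact Rel.tru
  · exact Rel.zero

theorem Pol.base {F : Matrix ι ι (LaurentPolynomial B)} {R : Matrix ι ι (Op B)} (h : Pol F R)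
    {R' : Matrix ι ι (Op B')} (hR : MRel θ R R') :
    Pol (F.map (AddMonoidAlgebra.mapRingHom ℤ θ)) R' := by
  have hF := MRel.op (θ := θ) F
  refine ⟨?_, ?_, ?_, ?_⟩
  · have h1 := hR.mul hR
    rw [h.1] at h1
    exact h1.unique hR
  · have h1 := hF.mul hR
    rw [h.2.1] at h1
    exact h1.unique hR
  · have h1 := hR.mul hF
    rw [h.2.2.1] at h1
    exact h1.unique hR
  · exact (hR.sub (hF.mul MRel.pI)).fin h.2.2.2

end base

end

end Pool.Agent.Y69.NK
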