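import Mathlib
import Pool.Agent.Y69.NK.Pol
import Pool.Agent.Y69.NK.Gal

/-!
# The invariants of the classes in `K₋₁(ℤ[G])`
-/

set_option autoImplicit false
set_option linter.unusedSectionVars false

namespace Pool.Agent.Y69.NK

open LaurentPolynomial Finset Matrix
open Pool.Agent.H23R2.Cyc (ell ell_single ell_mul_comm tf tf_apply)
open Pool.Agent.H26R2.Bass (ind ind_comm tf_zero_of_finite)
open Pool.Agent.H26R2.IdemLI (ch ch_coeff)

noncomputable section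

instance primesFact (p : Nat.Primes) : Fact (p : ℕ).Prime := ⟨p.2⟩

section traces

variable {B : Type} [Ring B] {M N : Type} [AddCommGroup M] [AddCommGroup N]
  {ι : Type} [Fintype ι]

theorem tr_comp (τ : B →+ M) (f : M →+ N) {φ : Op B} (h : Fin φ) :
    tr (f.comp τ) φ = f (tr τ φ) := by
  obtain ⟨K, hK⟩ := h.exists
  have h1 := hK K le_rfl
  rw [tr_eq (f.comp τ) φ _ (fun j hj => h1 j j (Or.inl hj)),
    tr_eq τ φ _ (fun j hj => h1 j j (Or.inl hj)), map_sum]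
  rfl

theorem TR_comp (τ : B →+ M) (f : M →+ N) {Φ : Matrix ι ι (Op B)} (h : MFin Φ) :
    TR (f.comp τ) Φ = f (TR τ Φ) := by
  unfold TR
  rw [map_sum]
  exact Finset.sum_congr rfl fun r _ => tr_comp τ f (h r r)

end traces

variable {G : Type} [Group G]

/-- the trace function at the class of `g` -/
abbrev tg (R : Type) [CommRing R] (g : G) : MonoidAlgebra R G →+ R := ell (ind R g)

theorem tg_comm {R : Type} [CommRing R] (g : G) (x y : MonoidAlgebra R G) :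
    tg R g (x * y) = tg R g (y * x) := ell_mul_comm _ (ind_comm g) x y

theorem tg_one {R : Type} [CommRing R] (g : G) (hg : g ≠ 1) : tg R g 1 = 0 := by
  rw [MonoidAlgebra.one_def, ell_single, one_mul]
  unfold ind
  rw [if_neg]
  intro h
  exact hg (isConj_one_right.1 h)

theorem tg_ch {R S : Type} [CommRing R] [CommRing S] (f : R →+* S) (g : G)
    (x : MonoidAlgebra R G) : tg S g (ch f G x) = f (tg R g x) :=
  Pool.Agent.H26R2.Bass.ell_ch f g x

theorem sum_tg {R : Type} [CommRing R] {n : ℕ} (e : Matrix (_root_.Fin n) (_root_.Fin n)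
    (MonoidAlgebra R G)) (g : G) : ∑ i, tg R g (e i i) = tf (ind R g) e := (tf_apply _ _).symm

section homs

variable (G)

/-- `ℤ[G] → ℚ[G]` -/
abbrev iQ : MonoidAlgebra ℤ G →+* MonoidAlgebra ℚ G := ch (Int.castRingHom ℚ) G

variable (p : ℕ) [Fact p.Prime]

/-- `ℤ[G] → ℤ_p[G]` -/
abbrev iP : MonoidAlgebra ℤ G →+* MonoidAlgebra ℤ_[p] G := ch (Int.castRingHom ℤ_[p]) G

/-- `ℚ[G] → ℚ_p[G]` -/
abbrev jQ : MonoidAlgebra ℚ G →+* MonoidAlgebra ℚ_[p] G := ch (Rat.castHom ℚ_[p]) G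

/-- `ℤ_p[G] → ℚ_p[G]` -/
abbrev jP : MonoidAlgebra ℤ_[p] G →+* MonoidAlgebra ℚ_[p] G := ch (PadicInt.Coe.ringHom (p := p)) G

theorem jQ_iQ : (jQ G p).comp (iQ G) = (jP G p).comp (iP G p) := by
  apply RingHom.ext
  intro x
  ext g
  show (jQ G p (iQ G x)).coeff g = (jP G p (iP G p x)).coeff g
  rw [ch_coeff, ch_coeff, ch_coeff, ch_coeff]
  simp

end homs

/-- change of rings on Laurent polynomials -/
abbrev mL {B B' : Type} [Ring B] [Ring B'] (θ : B →+* B') :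
    LaurentPolynomial B →+* LaurentPolynomial B' := AddMonoidAlgebra.mapRingHom ℤ θ

theorem mL_comp {B B' B'' : Type} [Ring B] [Ring B'] [Ring B''] (θ : B →+* B') (η : B' →+* B'')
    (x : LaurentPolynomial B) : mL η (mL θ x) = mL (η.comp θ) x := by
  apply LaurentPolynomial.ext
  intro i
  rfl

/-- an idempotent matrix over `ℤ[G][t, t⁻¹]` with polarisations over `ℚ[G]` and over all `ℤ_p[G]` -/
def Gen (G : Type) [Group G] :
    Set (K0 (LaurentPolynomial (MonoidAlgebra ℤ G)) × (∀ p : Nat.Primes, G → ℚ_[p])) :=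
  {z | ∃ (ι : Type) (_ : Fintype ι) (_ : DecidableEq ι)
    (F : Matrix ι ι (LaurentPolynomial (MonoidAlgebra ℤ G))) (hF : F * F = F)
    (R₀ : Matrix ι ι (Op (MonoidAlgebra ℚ G))), Pol (F.map (mL (iQ G))) R₀ ∧ z.1 = cl F hF ∧
    ∀ p : Nat.Primes, ∃ (R : Matrix ι ι (Op (MonoidAlgebra ℤ_[p] G)))
      (R' R₀' : Matrix ι ι (Op (MonoidAlgebra ℚ_[p] G))), Pol (F.map (mL (iP G p))) R ∧
      MRel (jP G p) R R' ∧ MRel (jQ G p) R₀ R₀' ∧
      ∀ g : G, z.2 p g = TR (tg ℚ_[p] g) (R' - R₀')}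

theorem Gen.add {z w : K0 (LaurentPolynomial (MonoidAlgebra ℤ G)) × (∀ p : Nat.Primes, G → ℚ_[p])}
    (hz : z ∈ Gen G) (hw : w ∈ Gen G) : z + w ∈ Gen G := by
  obtain ⟨ι, i1, i2, F, hF, R₀, h1, h2, h3⟩ := hz
  obtain ⟨κ, k1, k2, E, hE, Q₀, k3, k4, k5⟩ := hw
  have hm : ∀ {B' : Type} [Ring B'] (θ : MonoidAlgebra ℤ G →+* B'),
      (fromBlocks F 0 0 E).map (mL θ) = fromBlocks (F.map (mL θ)) 0 0 (E.map (mL θ)) := by
    intro B' _ θ
    rw [Matrix.fromBlocks_map, Matrix.map_zero _ (map_zero _), Matrix.map_zero _ (map_zero _)]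
  refine ⟨ι ⊕ κ, inferInstance, inferInstance, fromBlocks F 0 0 E, idem_blocks hF hE,
    fromBlocks R₀ 0 0 Q₀, ?_, ?_, fun p => ?_⟩
  · rw [hm]
    exact h1.blocks k3
  · rw [cl_blocks hF hE, ← h2, ← k4]
    rfl
  · obtain ⟨R, R', R₀', a1, a2, a3, a4⟩ := h3 p
    obtain ⟨Q, Q', Q₀', b1, b2, b3, b4⟩ := k5 p
    refine ⟨fromBlocks R 0 0 Q, fromBlocks R' 0 0 Q', fromBlocks R₀' 0 0 Q₀', ?_, a2.blocks b2,
      a3.blocks b3, fun g => ?_⟩
    · rw [hm]
      exact a1.blocks b1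
    · have h4 : fromBlocks R' 0 0 Q' - fromBlocks R₀' 0 0 Q₀' =
          fromBlocks (R' - R₀') 0 0 (Q' - Q₀') := by
        ext1 r s
        rcases r with r | r <;> rcases s with s | s
        · rfl
        · exact sub_self _
        · exact sub_self _
        · rfl
      rw [h4, TR_blocks, ← a4, ← b4]
      rfl

/-- the identity matrix -/
theorem pol_one {B : Type} [Ring B] (ι : Type) [Fintype ι] [DecidableEq ι] :
    Pol (1 : Matrix ι ι (LaurentPolynomial B)) (pI B ι) := by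
  refine ⟨pI_sq, ?_, ?_, ?_⟩
  · rw [op_one, one_mul]
  · rw [op_one, mul_one]
  · rw [op_one, one_mul, sub_self]
    exact MFin.zero

theorem Gen.one (k : ℕ) : (cl (1 : Matrix (_root_.Fin k) (_root_.Fin k)
    (LaurentPolynomial (MonoidAlgebra ℤ G))) (mul_one _), 0) ∈ Gen G := by
  have hm : ∀ {B' : Type} [Ring B'] (θ : MonoidAlgebra ℤ G →+* B'),
      (1 : Matrix (_root_.Fin k) (_root_.Fin k) (LaurentPolynomial (MonoidAlgebra ℤ G))).map
        (mL θ) = 1 := by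
    intro B' _ θ
    exact Matrix.map_one _ (map_zero _) (map_one _)
  refine ⟨_root_.Fin k, inferInstance, inferInstance, 1, mul_one _, pI _ _, ?_, rfl, fun p => ?_⟩
  · rw [hm]
    exact pol_one _
  · refine ⟨pI _ _, pI _ _, pI _ _, ?_, MRel.pI, MRel.pI, fun g => ?_⟩
    · rw [hm]
      exact pol_one _
    · rw [sub_self, TR_zero]
      rfl

theorem Gen.zero : (0 : K0 (LaurentPolynomial (MonoidAlgebra ℤ G)) ×
    (∀ p : Nat.Primes, G → ℚ_[p])) ∈ Gen G := by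
  have h := Gen.one (G := G) 0
  have h2 : cl (1 : Matrix (_root_.Fin 0) (_root_.Fin 0)
      (LaurentPolynomial (MonoidAlgebra ℤ G))) (mul_one _) = 0 := by
    have h3 : cl (1 : Matrix (_root_.Fin 0) (_root_.Fin 0)
        (LaurentPolynomial (MonoidAlgebra ℤ G))) (mul_one _) =
        K0.cls (Idm.zero (LaurentPolynomial (MonoidAlgebra ℤ G))) := by
      rw [cl_idm]
      apply cl_congr
      refine Eqv.of_submatrix (mul_one _) (Equiv.refl _) ?_
      ext i j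
      exact i.elim0
    rw [h3]
    exact map_zero (K0.ofV _)
  rw [h2] at h
  exact h

/-- Two families of invariants of the same class. -/
theorem Gen.unique {x : K0 (LaurentPolynomial (MonoidAlgebra ℤ G))}
    {δ₁ δ₂ : ∀ p : Nat.Primes, G → ℚ_[p]} (h₁ : (x, δ₁) ∈ Gen G) (h₂ : (x, δ₂) ∈ Gen G) :
    ∃ w : G → ℚ, (∀ g : G, orderOf g ≠ 0 → ∀ a : ℕ, a.Coprime (orderOf g) → w (g ^ a) = w g) ∧
      ∀ (p : Nat.Primes) (g : G), orderOf g ≠ 0 → (p : ℕ) ∣ orderOf g →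
        δ₂ p g - δ₁ p g = (w g : ℚ_[p]) := by
  classical
  obtain ⟨ι, i1, i2, F₁, hF₁, R₀₁, a1, a2, a3⟩ := h₁
  obtain ⟨κ, k1, k2, F₂, hF₂, R₀₂, b1, b2, b3⟩ := h₂
  have hx : cl F₁ hF₁ = cl F₂ hF₂ := a2.symm.trans b2
  obtain ⟨k, hk⟩ := cl_eq hF₁ hF₂ hx
  obtain ⟨X, Y, hXY, hYX⟩ := hk
  have hm : ∀ {ι : Type} {B' : Type} [Ring B'] (θ : MonoidAlgebra ℤ G →+* B')
      (F : Matrix ι ι (LaurentPolynomial (MonoidAlgebra ℤ G))),
      (fromBlocks F 0 0 (1 : Matrix (_root_.Fin k) (_root_.Fin k) _)).map (mL θ) =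
        fromBlocks (F.map (mL θ)) 0 0 1 := by
    intro ι B' _ θ F
    rw [Matrix.fromBlocks_map, Matrix.map_zero _ (map_zero _), Matrix.map_zero _ (map_zero _),
      Matrix.map_one _ (map_zero _) (map_one _)]
  have hidem : fromBlocks F₂ 0 0 (1 : Matrix (_root_.Fin k) (_root_.Fin k) _) *
      fromBlocks F₂ 0 0 (1 : Matrix (_root_.Fin k) (_root_.Fin k) _) =
      fromBlocks F₂ 0 0 (1 : Matrix (_root_.Fin k) (_root_.Fin k) _) :=
    idem_blocks hF₂ (mul_one _)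
  -- over `ℚ[G]`
  have hQ1 := a1.blocks (pol_one (B := MonoidAlgebra ℚ G) (_root_.Fin k))
  have hQ2 := b1.blocks (pol_one (B := MonoidAlgebra ℚ G) (_root_.Fin k))
  rw [← hm] at hQ1 hQ2
  have hQi : (fromBlocks F₂ 0 0 (1 : Matrix (_root_.Fin k) (_root_.Fin k) _)).map (mL (iQ G)) *
      (fromBlocks F₂ 0 0 (1 : Matrix (_root_.Fin k) (_root_.Fin k) _)).map (mL (iQ G)) =
      (fromBlocks F₂ 0 0 (1 : Matrix (_root_.Fin k) (_root_.Fin k) _)).map (mL (iQ G)) :=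
    idem_map hidem _
  have hQXY : X.map (mL (iQ G)) * Y.map (mL (iQ G)) =
      (fromBlocks F₁ 0 0 (1 : Matrix (_root_.Fin k) (_root_.Fin k) _)).map (mL (iQ G)) := by
    rw [← Matrix.map_mul, hXY]
  have hQYX : Y.map (mL (iQ G)) * X.map (mL (iQ G)) =
      (fromBlocks F₂ 0 0 (1 : Matrix (_root_.Fin k) (_root_.Fin k) _)).map (mL (iQ G)) := by
    rw [← Matrix.map_mul, hYX]
  have hQt := hQ1.transfer hQ2 hQi _ _ hQXY hQYX
  obtain ⟨m, e, c, he, hτ⟩ := rel_index ℚ _ _ hQt.1 hQ2.1 hQt.2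
  have hw : ∀ g : G, g ≠ 1 → TR (tg ℚ g) (op (Y.map (mL (iQ G))) *
      fromBlocks R₀₁ 0 0 (pI (MonoidAlgebra ℚ G) (_root_.Fin k)) * op (X.map (mL (iQ G))) -
      fromBlocks R₀₂ 0 0 (pI (MonoidAlgebra ℚ G) (_root_.Fin k))) =
      tf (ind ℚ g) e := by
    intro g hg
    have h1 := hτ (tg ℚ g) (tg_comm g)
    rw [sum_tg, tg_one g hg, smul_zero, zero_add] at h1
    exact h1.symm
  refine ⟨fun g => if g = 1 then 0 else tf (ind ℚ g) e, ?_, fun p g hg hpg => ?_⟩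
  · intro g hg a ha
    by_cases h1 : g = 1
    · simp only [h1, one_pow]
    · have h2 : g ^ a ≠ 1 := by
        intro h3
        have h4 := orderOf_dvd_of_pow_eq_one h3
        have h5 : orderOf g = 1 := Nat.eq_one_of_dvd_coprimes ha h4 dvd_rfl
        exact h1 (orderOf_eq_one_iff.1 h5)
      simp only [if_neg h1, if_neg h2]
      exact (galois e he g hg a ha).symm
  · have hg1 : g ≠ 1 := by
      rintro rfl
      rw [orderOf_one] at hpg
      exact p.2.one_lt.ne' (Nat.dvd_one.1 hpg)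
    simp only [if_neg hg1]
    obtain ⟨R₁, R₁', R₀₁', c1, c2, c3, c4⟩ := a3 p
    obtain ⟨R₂, R₂', R₀₂', d1, d2, d3, d4⟩ := b3 p
    -- over `ℤ_p[G]`
    have hP1 := c1.blocks (pol_one (B := MonoidAlgebra ℤ_[p] G) (_root_.Fin k))
    have hP2 := d1.blocks (pol_one (B := MonoidAlgebra ℤ_[p] G) (_root_.Fin k))
    rw [← hm] at hP1 hP2
    have hPi : (fromBlocks F₂ 0 0 (1 : Matrix (_root_.Fin k) (_root_.Fin k) _)).map
        (mL (iP G p)) *
        (fromBlocks F₂ 0 0 (1 : Matrix (_root_.Fin k) (_root_.Fin k) _)).map (mL (iP G p)) =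
        (fromBlocks F₂ 0 0 (1 : Matrix (_root_.Fin k) (_root_.Fin k) _)).map (mL (iP G p)) :=
      idem_map hidem _
    have hPXY : X.map (mL (iP G p)) * Y.map (mL (iP G p)) =
        (fromBlocks F₁ 0 0 (1 : Matrix (_root_.Fin k) (_root_.Fin k) _)).map (mL (iP G p)) := by
      rw [← Matrix.map_mul, hXY]
    have hPYX : Y.map (mL (iP G p)) * X.map (mL (iP G p)) =
        (fromBlocks F₂ 0 0 (1 : Matrix (_root_.Fin k) (_root_.Fin k) _)).map (mL (iP G p)) := by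
      rw [← Matrix.map_mul, hYX]
    have hPt := hP1.transfer hP2 hPi _ _ hPXY hPYX
    obtain ⟨m', e', c', he', hτ'⟩ := rel_index ℤ_[p] _ _ hPt.1 hP2.1 hPt.2
    have hv : TR (tg ℤ_[p] g) (op (Y.map (mL (iP G p))) *
        fromBlocks R₁ 0 0 (pI (MonoidAlgebra ℤ_[p] G) (_root_.Fin k)) * op (X.map (mL (iP G p))) -
        fromBlocks R₂ 0 0 (pI (MonoidAlgebra ℤ_[p] G) (_root_.Fin k))) =
        0 := by
      have h1 := hτ' (tg ℤ_[p] g) (tg_comm g)
      rw [sum_tg, tg_one g hg1, smul_zero, zero_add] at h1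
      rw [← h1]
      apply tf_zero_of_finite e' he' g hg
      intro hu
      obtain ⟨q, hq⟩ := hpg
      rw [hq] at hu
      push_cast at hu
      have h2 := isUnit_of_mul_isUnit_left hu
      exact PadicInt.p_nonunit h2
    -- over `ℚ_p[G]`
    have e1 := (MRel.op (θ := jP G p) (Y.map (mL (iP G p)))).mul
      (c2.blocks (MRel.pI (θ := jP G p) (ι := _root_.Fin k))) |>.mul
      (MRel.op (θ := jP G p) (X.map (mL (iP G p))))
    have e2 := (MRel.op (θ := jQ G p) (Y.map (mL (iQ G)))).mul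
      (c3.blocks (MRel.pI (θ := jQ G p) (ι := _root_.Fin k))) |>.mul
      (MRel.op (θ := jQ G p) (X.map (mL (iQ G))))
    have e3 := e1.sub (d2.blocks (MRel.pI (θ := jP G p) (ι := _root_.Fin k)))
    have e4 := e2.sub (d3.blocks (MRel.pI (θ := jQ G p) (ι := _root_.Fin k)))
    have e5 := e3.TR (tg ℚ_[p] g)
    have e6 := e4.TR (tg ℚ_[p] g)
    have hcP : (tg ℚ_[p] g).comp ((jP G p : MonoidAlgebra ℤ_[p] G →+* _) : _ →+ _) =
        ((PadicInt.Coe.ringHom (p := p) : ℤ_[p] →+* ℚ_[p]) : ℤ_[p] →+ ℚ_[p]).comp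
          (tg ℤ_[p] g) := by
      apply AddMonoidHom.ext
      intro x
      exact tg_ch _ g x
    have hcQ : (tg ℚ_[p] g).comp ((jQ G p : MonoidAlgebra ℚ G →+* _) : _ →+ _) =
        ((Rat.castHom ℚ_[p] : ℚ →+* ℚ_[p]) : ℚ →+ ℚ_[p]).comp (tg ℚ g) := by
      apply AddMonoidHom.ext
      intro x
      exact tg_ch _ g x
    rw [hcP, TR_comp _ _ hPt.2, hv, map_zero] at e5
    rw [hcQ, TR_comp _ _ hQt.2, hw g hg1] at e6
    -- comparison
    have hθ : ∀ (ι' κ' : Type) (Z : Matrix ι' κ' (LaurentPolynomial (MonoidAlgebra ℤ G))),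
        (Z.map (mL (iP G p))).map (mL (jP G p)) = (Z.map (mL (iQ G))).map (mL (jQ G p)) := by
      intro ι' κ' Z
      ext1 r s
      show mL (jP G p) (mL (iP G p) (Z r s)) = mL (jQ G p) (mL (iQ G) (Z r s))
      rw [mL_comp, mL_comp, jQ_iQ]
    have f1 := hP1.base (θ := jP G p) (c2.blocks (MRel.pI (θ := jP G p) (ι := _root_.Fin k)))
    have f2 := hP2.base (θ := jP G p) (d2.blocks (MRel.pI (θ := jP G p) (ι := _root_.Fin k)))
    have f3 := hQ1.base (θ := jQ G p) (c3.blocks (MRel.pI (θ := jQ G p) (ι := _root_.Fin k)))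
    have f4 := hQ2.base (θ := jQ G p) (d3.blocks (MRel.pI (θ := jQ G p) (ι := _root_.Fin k)))
    rw [hθ] at f1 f2
    rw [hθ, hθ] at e5
    have f5 := Pol.compare f1 f2 f3 f4 (idem_map hQi _) ((X.map (mL (iQ G))).map (mL (jQ G p)))
      ((Y.map (mL (iQ G))).map (mL (jQ G p))) (by rw [← Matrix.map_mul, hQXY])
      (by rw [← Matrix.map_mul, hQYX]) (tg ℚ_[p] g) (tg_comm g)
    rw [e5, e6, zero_sub] at f5
    have g1 : ∀ {ι' : Type} [Fintype ι'] (S S' : Matrix ι' ι' (Op (MonoidAlgebra ℚ_[p] G))),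
        fromBlocks S 0 0 (pI (MonoidAlgebra ℚ_[p] G) (_root_.Fin k)) -
          fromBlocks S' 0 0 (pI (MonoidAlgebra ℚ_[p] G) (_root_.Fin k)) =
          fromBlocks (S - S') 0 0 0 := by
      intro ι' _ S S'
      ext1 r s
      rcases r with r | r <;> rcases s with s | s
      · rfl
      · exact sub_self _
      · exact sub_self _
      · exact sub_self _
    rw [g1, g1, TR_blocks, TR_blocks, TR_zero, add_zero, add_zero, ← c4, ← d4] at f5
    have g2 : δ₂ p g - δ₁ p g = -(δ₁ p g - δ₂ p g) := by ring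
    rw [g2]
    show -((x, δ₁).2 p g - (x, δ₂).2 p g) = _
    rw [← f5, neg_neg]
    rfl

end

end Pool.Agent.Y69.NK
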