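import Mathlib
import Pool.Agent.Y69.NK.Det

/-!
# Invariants: additivity, the nil part, conjugates of coordinate projections
-/

set_option autoImplicit false
set_option linter.unusedSectionVars false

namespace Pool.Agent.Y69.NK

open LaurentPolynomial Finset Matrix
open Pool.Agent.H23R2.Cyc (ell ell_single ell_mul_comm tf tf_apply)
open Pool.Agent.H26R2.Bass (ind ind_comm tf_zero_of_finite)
open Pool.Agent.H26R2.IdemLI (ch ch_coeff)

noncomputable section

variable {G : Type} [Group G]

/-- the group generated by the classes with invariants -/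
def Inv (G : Type) [Group G] :
    AddSubgroup (K0 (LaurentPolynomial (MonoidAlgebra ℤ G)) × (∀ p : Nat.Primes, G → ℚ_[p])) :=
  AddSubgroup.closure (Gen G)

theorem Inv.exists_sub {z : K0 (LaurentPolynomial (MonoidAlgebra ℤ G)) ×
    (∀ p : Nat.Primes, G → ℚ_[p])} (hz : z ∈ Inv G) : ∃ a ∈ Gen G, ∃ b ∈ Gen G, z = a - b := by
  unfold Inv at hz
  induction hz using AddSubgroup.closure_induction with
  | mem x hx => exact ⟨x, hx, 0, Gen.zero, (sub_zero x).symm⟩
  | zero => exact ⟨0, Gen.zero, 0, Gen.zero, (sub_zero 0).symm⟩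
  | add x y _ _ hx hy =>
    obtain ⟨a, ha, b, hb, rfl⟩ := hx
    obtain ⟨c, hc, d, hd, rfl⟩ := hy
    exact ⟨a + c, Gen.add ha hc, b + d, Gen.add hb hd, by abel⟩
  | neg x _ hx =>
    obtain ⟨a, ha, b, hb, rfl⟩ := hx
    exact ⟨b, hb, a, ha, by abel⟩

theorem Inv.detect {δ : ∀ p : Nat.Primes, G → ℚ_[p]}
    (h : ((0 : K0 (LaurentPolynomial (MonoidAlgebra ℤ G))), δ) ∈ Inv G) :
    ∃ w : G → ℚ, (∀ g : G, orderOf g ≠ 0 → ∀ a : ℕ, a.Coprime (orderOf g) → w (g ^ a) = w g) ∧
      ∀ (p : Nat.Primes) (g : G), orderOf g ≠ 0 → (p : ℕ) ∣ orderOf g →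
        δ p g = (w g : ℚ_[p]) := by
  obtain ⟨a, ha, b, hb, hab⟩ := Inv.exists_sub h
  have h1 : a.1 = b.1 := by
    have := congrArg Prod.fst hab
    exact (sub_eq_zero.1 this.symm)
  have h2 : δ = a.2 - b.2 := congrArg Prod.snd hab
  have ha' : (b.1, a.2) ∈ Gen G := by
    rw [← h1]
    exact ha
  obtain ⟨w, hw1, hw2⟩ := Gen.unique (x := b.1) (δ₁ := b.2) (δ₂ := a.2) hb ha'
  refine ⟨w, hw1, fun p g hg hpg => ?_⟩
  rw [← hw2 p g hg hpg, h2]
  rfl

theorem incPos_coeff {A : Type} [Ring A] (f : Polynomial A) (i : ℤ) (hi : i < 0) :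
    (incPos A f).coeff i = 0 := by
  unfold incPos
  induction f using Polynomial.induction_on' with
  | add p q hp hq =>
    rw [map_add, AddMonoidAlgebra.coeff_add, Finsupp.add_apply, hp, hq, add_zero]
  | monomial n a =>
    rw [Polynomial.toLaurent_C_mul_T, coeff_mul_T, C_apply, if_neg]
    omega

theorem incNeg_coeff {A : Type} [Ring A] (f : Polynomial A) (i : ℤ) (hi : 0 < i) :
    (incNeg A f).coeff i = 0 := by
  unfold incNeg
  induction f using Polynomial.induction_on' with
  | add p q hp hq =>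
    rw [map_add, AddMonoidAlgebra.coeff_add, Finsupp.add_apply, hp, hq, add_zero]
  | monomial n a =>
    rw [RingHom.comp_apply, Polynomial.toLaurent_C_mul_T, ← single_eq_C_mul_T,
      AddMonoidAlgebra.mapDomainRingHom_apply, AddMonoidAlgebra.mapDomain_single,
      AddMonoidAlgebra.coeff_single, Finsupp.single_apply, if_neg]
    show ¬ (-(n : ℤ) = i)
    omega

theorem mL_coeff {B B' : Type} [Ring B] [Ring B'] (θ : B →+* B') (x : LaurentPolynomial B)
    (i : ℤ) : (mL θ x).coeff i = θ (x.coeff i) := rfl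

/-- matrices with a polarisation that is compatible with change of rings -/
theorem gen_of_pol {ι : Type} [Fintype ι] [DecidableEq ι]
    (F : Matrix ι ι (LaurentPolynomial (MonoidAlgebra ℤ G))) (hF : F * F = F)
    (h : ∀ {B' : Type} [Ring B'] (θ : MonoidAlgebra ℤ G →+* B'),
      Pol (F.map (mL θ)) (op (F.map (mL θ)) * pI B' ι * op (F.map (mL θ)))) :
    (cl F hF, 0) ∈ Gen G := by
  refine ⟨ι, inferInstance, inferInstance, F, hF, _, h (iQ G), rfl, fun p => ?_⟩
  have h1 := ((MRel.op (θ := jP G p) (F.map (mL (iP G p)))).mul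
    (MRel.pI (θ := jP G p))).mul (MRel.op (θ := jP G p) (F.map (mL (iP G p))))
  have h2 := ((MRel.op (θ := jQ G p) (F.map (mL (iQ G)))).mul
    (MRel.pI (θ := jQ G p))).mul (MRel.op (θ := jQ G p) (F.map (mL (iQ G))))
  have hθ : (F.map (mL (iP G p))).map (mL (jP G p)) = (F.map (mL (iQ G))).map (mL (jQ G p)) := by
    ext1 r s
    show mL (jP G p) (mL (iP G p) (F r s)) = mL (jQ G p) (mL (iQ G) (F r s))
    rw [mL_comp, mL_comp, jQ_iQ]
  refine ⟨_, _, _, h (iP G p), h1, h2, fun g => ?_⟩
  rw [hθ, sub_self, TR_zero]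
  rfl

theorem gen_pos {ι : Type} [Fintype ι] [DecidableEq ι]
    (P : Matrix ι ι (Polynomial (MonoidAlgebra ℤ G))) (hP : P * P = P) :
    (cl (P.map (incPos _)) (idem_map hP _), 0) ∈ Gen G := by
  apply gen_of_pol
  intro B' _ θ
  apply pol_pos
  · exact idem_map (idem_map hP _) _
  · intro r s i hi
    show (mL θ (incPos _ (P r s))).coeff i = 0
    rw [mL_coeff, incPos_coeff _ i hi, map_zero]

theorem gen_neg {ι : Type} [Fintype ι] [DecidableEq ι]
    (P : Matrix ι ι (Polynomial (MonoidAlgebra ℤ G))) (hP : P * P = P) :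
    (cl (P.map (incNeg _)) (idem_map hP _), 0) ∈ Gen G := by
  apply gen_of_pol
  intro B' _ θ
  apply pol_neg
  · exact idem_map (idem_map hP _) _
  · intro r s i hi
    show (mL θ (incNeg _ (P r s))).coeff i = 0
    rw [mL_coeff, incNeg_coeff _ i hi, map_zero]

/-- the nil part has no invariants -/
theorem nil_inv {x : K0 (LaurentPolynomial (MonoidAlgebra ℤ G))}
    (hx : x ∈ NilPart (MonoidAlgebra ℤ G)) : (x, 0) ∈ Inv G := by
  unfold NilPart at hx
  obtain ⟨y, ⟨y', rfl⟩, z, ⟨z', rfl⟩, rfl⟩ := AddSubgroup.mem_sup.1 hx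
  obtain ⟨n, m, P, Q, hP, hQ, rfl⟩ := exists_cl y'
  obtain ⟨n', m', P', Q', hP', hQ', rfl⟩ := exists_cl z'
  have h1 := AddSubgroup.subset_closure (gen_pos P hP)
  have h2 := AddSubgroup.subset_closure (gen_pos Q hQ)
  have h3 := AddSubgroup.subset_closure (gen_neg P' hP')
  have h4 := AddSubgroup.subset_closure (gen_neg Q' hQ')
  have h5 := AddSubgroup.add_mem _ (AddSubgroup.sub_mem _ h1 h2) (AddSubgroup.sub_mem _ h3 h4)
  rw [map_sub, map_sub, map_cl, map_cl, map_cl, map_cl]
  have h6 : ((cl (P.map (incPos _)) (idem_map hP _) - cl (Q.map (incPos _)) (idem_map hQ _) +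
      (cl (P'.map (incNeg _)) (idem_map hP' _) - cl (Q'.map (incNeg _)) (idem_map hQ' _)),
      (0 : ∀ p : Nat.Primes, G → ℚ_[p])) : K0 (LaurentPolynomial (MonoidAlgebra ℤ G)) × _) =
      (cl (P.map (incPos _)) (idem_map hP _), 0) - (cl (Q.map (incPos _)) (idem_map hQ _), 0) +
      ((cl (P'.map (incNeg _)) (idem_map hP' _), 0) -
        (cl (Q'.map (incNeg _)) (idem_map hQ' _), 0)) := by
    ext1
    · rfl
    · show (0 : ∀ p : Nat.Primes, G → ℚ_[p]) = 0 - 0 + (0 - 0)
      simp
  rw [h6]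
  exact h5

section formula

variable {B : Type} [Ring B] {M : Type} [AddCommGroup M]

/-- the element `1 - F + F t` -/
def al (F : B) : LaurentPolynomial B := C (1 - F) + C F * T 1

/-- the element `1 - F + F t⁻¹` -/
def al' (F : B) : LaurentPolynomial B := C (1 - F) + C F * T (-1)

theorem al_coeff (F : B) (i : ℤ) :
    (al F).coeff i = (if i = 0 then 1 - F else 0) + (if i = 1 then F else 0) := by
  unfold al
  rw [AddMonoidAlgebra.coeff_add, Finsupp.add_apply, C_apply, coeff_mul_T, C_apply]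
  congr 1
  by_cases h : i = 1
  · rw [if_pos h, if_pos (by omega)]
  · rw [if_neg h, if_neg (by omega)]

theorem al'_coeff (F : B) (i : ℤ) :
    (al' F).coeff i = (if i = 0 then 1 - F else 0) + (if i = -1 then F else 0) := by
  unfold al'
  rw [AddMonoidAlgebra.coeff_add, Finsupp.add_apply, C_apply, coeff_mul_T, C_apply]
  congr 1
  by_cases h : i = -1
  · rw [if_pos h, if_pos (by omega)]
  · rw [if_neg h, if_neg (by omega)]

theorem C_comm_T (b : B) (i : ℤ) : T i * C b = C b * T i := by
  apply LaurentPolynomial.ext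
  intro k
  rw [coeff_mul_C, coeff_mul_T, T_apply, C_apply]
  by_cases h : i = k
  · rw [if_pos h, if_pos (by omega), one_mul]
  · rw [if_neg h, if_neg (by omega), zero_mul]

theorem al_mul_aux {F : B} (hF : F * F = F) (i j : ℤ) (hij : i + j = 0) :
    (C (1 - F) + C F * T i) * (C (1 - F) + C F * T j) = 1 := by
  have h1 : F * (1 - F) = 0 := by rw [mul_sub, mul_one, hF, sub_self]
  have h2 : (1 - F) * F = 0 := by rw [sub_mul, one_mul, hF, sub_self]
  have h3 : (1 - F) * (1 - F) = 1 - F := by rw [mul_sub, mul_one, h2, sub_zero]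
  have e1 : C (1 - F) * C (1 - F) = C (1 - F) := by rw [← map_mul, h3]
  have e2 : C (1 - F) * (C F * T j) = 0 := by rw [← mul_assoc, ← map_mul, h2, map_zero, zero_mul]
  have e3 : C F * T i * C (1 - F) = 0 := by
    rw [mul_assoc, C_comm_T, ← mul_assoc, ← map_mul, h1, map_zero, zero_mul]
  have e4 : C F * T i * (C F * T j) = C F := by
    rw [mul_assoc, ← mul_assoc (T i), C_comm_T, mul_assoc, ← mul_assoc (C F), ← map_mul, hF,
      ← T_add, hij, T_zero, mul_one]
  rw [mul_add, add_mul, add_mul, e1, e2, e3, e4, add_zero, zero_add, ← map_add, sub_add_cancel,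
    map_one]

theorem al'_mul_al {F : B} (hF : F * F = F) : al' F * al F = 1 :=
  al_mul_aux hF (-1) 1 (by norm_num)

theorem al_mul_al' {F : B} (hF : F * F = F) : al F * al' F = 1 :=
  al_mul_aux hF 1 (-1) (by norm_num)

theorem fin_al {F : B} (hF : F * F = F) :
    Fin (lm B (al' F) * tru B * lm B (al F) - tru B) := by
  have h1 : lm B (al' F) * tru B * lm B (al F) - tru B =
      -(lm B (al' F) * (lm B (al F) * tru B - tru B * lm B (al F))) := by
    have h2 : lm B (al' F) * (lm B (al F) * tru B) = tru B := by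
      rw [← mul_assoc, ← map_mul, al'_mul_al hF, map_one, one_mul]
    rw [mul_sub, h2, neg_sub, mul_assoc]
  rw [h1]
  exact ((fin_comm _).mul_left _).neg

theorem tr_al {F : B} (hF : F * F = F) (τ : B →+ M) :
    tr τ (lm B (al' F) * tru B * lm B (al F) - tru B) = τ F := by
  have h2 : (1 - F) * F = 0 := by rw [sub_mul, one_mul, hF, sub_self]
  have h3 : (1 - F) * (1 - F) = 1 - F := by rw [mul_sub, mul_one, h2, sub_zero]
  have h1 : ∀ j : ℤ, ent (lm B (al' F) * tru B * lm B (al F) - tru B) j j =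
      if j = -1 then F else 0 := by
    intro j
    rw [ent_sub, mul_assoc, ent_mul (lm B (al' F)) (tru B * lm B (al F)) j j {j, j + 1}
      (fun k hk => by
        rw [ent_tru_mul, ent_lm, al_coeff]
        simp only [Finset.mem_insert, Finset.mem_singleton, not_or] at hk
        rw [if_neg (by omega : ¬ k - j = 0), if_neg (by omega : ¬ k - j = 1), add_zero, ite_self]),
      Finset.sum_pair (by omega), ent_tru_mul, ent_tru_mul, ent_lm, ent_lm, ent_lm, ent_lm,
      al_coeff, al_coeff, al'_coeff, al'_coeff, ent_tru]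
    rw [if_pos (by omega : j - j = 0), if_neg (by omega : ¬ j - j = -1),
      if_neg (by omega : ¬ j - j = 1),
      if_neg (by omega : ¬ j - (j + 1) = 0), if_pos (by omega : j - (j + 1) = -1),
      if_neg (by omega : ¬ j + 1 - j = 0), if_pos (by omega : j + 1 - j = 1), add_zero,
      zero_add]
    by_cases h4 : 0 ≤ j
    · rw [if_pos h4, if_pos (by omega : 0 ≤ j + 1), if_pos ⟨rfl, h4⟩, if_neg (by omega : ¬ j = -1),
        h3, hF]
      abel
    · by_cases h5 : j = -1
      · rw [if_neg h4, if_pos (by omega : 0 ≤ j + 1), if_neg (fun h => h4 h.2), if_pos h5, hF,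
          mul_zero, zero_add, sub_zero]
      · rw [if_neg h4, if_neg (by omega : ¬ 0 ≤ j + 1), if_neg (fun h => h4 h.2), if_neg h5,
          mul_zero, mul_zero, add_zero, sub_zero]
  rw [tr_eq τ _ {-1} (fun j hj => by
    rw [h1, if_neg (fun h => hj (Finset.mem_singleton.2 h))]), Finset.sum_singleton, h1, if_pos rfl]

/-- the diagonal matrices -/
def dAl (F : B) : Matrix (_root_.Fin 2) (_root_.Fin 2) (LaurentPolynomial B) :=
  Matrix.diagonal ![al' F, al F]

/-- the diagonal matrices -/
def dAl' (F : B) : Matrix (_root_.Fin 2) (_root_.Fin 2) (LaurentPolynomial B) :=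
  Matrix.diagonal ![al F, al' F]

/-- the first coordinate -/
abbrev c0 : _root_.Fin 2 → Prop := fun r => r = 0

theorem TR_al {F : B} (hF : F * F = F) (τ : B →+ M) (hτ : ∀ x y, τ (x * y) = τ (y * x))
    {ι : Type} [Fintype ι] [DecidableEq ι]
    (U : Matrix ι (_root_.Fin 2) (LaurentPolynomial B))
    (U' : Matrix (_root_.Fin 2) ι (LaurentPolynomial B)) (hU : U' * U = 1) :
    TR τ (op (U * dAl F) * (op (eD B c0) * pI B _) * op (dAl' F * U') -
      op U * (op (eD B c0) * pI B _) * op U') = τ F := by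
  have h0 : op U' * op U = 1 := by rw [← op_mul, hU, op_one]
  set D : Matrix (_root_.Fin 2) (_root_.Fin 2) (Op B) :=
    op (dAl F) * (op (eD B c0) * pI B _) * op (dAl' F) - op (eD B c0) * pI B _ with hD
  have hDe : D = Matrix.diagonal ![lm B (al' F) * tru B * lm B (al F) - tru B, 0] := by
    have h1 : op (dAl F) = Matrix.diagonal ![lm B (al' F), lm B (al F)] := by
      unfold op dAl
      rw [Matrix.diagonal_map (map_zero _)]
      congr 1
      ext1 i
      fin_cases i <;> rfl
    have h2 : op (dAl' F) = Matrix.diagonal ![lm B (al F), lm B (al' F)] := by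
      unfold op dAl'
      rw [Matrix.diagonal_map (map_zero _)]
      congr 1
      ext1 i
      fin_cases i <;> rfl
    have h3 : op (eD B c0) * pI B (_root_.Fin 2) = Matrix.diagonal ![tru B, 0] := by
      unfold op eD pI
      rw [Matrix.diagonal_map (map_zero _), Matrix.diagonal_mul_diagonal]
      congr 1
      ext1 i
      fin_cases i
      · simp
      · simp
    rw [hD, h1, h2, h3, Matrix.diagonal_mul_diagonal, Matrix.diagonal_mul_diagonal,
      Matrix.diagonal_sub]
    congr 1
    ext1 i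
    fin_cases i
    · rfl
    · simp
  have hDF : MFin D := by
    intro r s
    rw [hDe, Matrix.diagonal_apply]
    split_ifs with h
    · fin_cases r
      · exact fin_al hF
      · exact Fin.zero
    · exact Fin.zero
  have h3 : op (U * dAl F) * (op (eD B c0) * pI B _) * op (dAl' F * U') -
      op U * (op (eD B c0) * pI B _) * op U' = op U * (D * op U') := by
    rw [op_mul, op_mul, hD, Matrix.sub_mul, Matrix.mul_sub]
    simp only [Matrix.mul_assoc]
  rw [h3, TR_comm τ hτ (op U) (hDF.mul_right _), Matrix.mul_assoc, h0, Matrix.mul_one, hDe]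
  unfold TR
  rw [Fin.sum_univ_two]
  simp only [Matrix.diagonal_apply_eq]
  have h4 : tr τ (![lm B (al' F) * tru B * lm B (al F) - tru B, 0] (0 : _root_.Fin 2)) = τ F :=
    tr_al hF τ
  have h5 : tr τ (![lm B (al' F) * tru B * lm B (al F) - tru B, 0] (1 : _root_.Fin 2)) = 0 :=
    tr_zero τ
  rw [h4, h5, add_zero]

end formula

end

end Pool.Agent.Y69.NK
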