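import Mathlib
import Pool.Agent.Y69.NK.Inv

/-!
# Patching: idempotents over `ℤ[C][t, t⁻¹]` from idempotents of `ℚ_p[C]`
-/

set_option autoImplicit false
set_option linter.unusedSectionVars false

namespace Pool.Agent.Y69.NK

open LaurentPolynomial Finset Matrix
open Pool.Agent.H26R2.IdemLI (ch ch_coeff)

noncomputable section

/-- the ring `ℤ[1/p]` -/
def Lam (p : ℕ) : Subring ℚ where
  carrier := {x | ∃ (k : ℕ) (n : ℤ), x * (p : ℚ) ^ k = n}
  mul_mem' := by
    rintro x y ⟨k, n, h⟩ ⟨l, m, h'⟩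
    refine ⟨k + l, n * m, ?_⟩
    push_cast
    rw [← h, ← h', pow_add]
    ring
  one_mem' := ⟨0, 1, by simp⟩
  add_mem' := by
    rintro x y ⟨k, n, h⟩ ⟨l, m, h'⟩
    refine ⟨k + l, n * p ^ l + m * p ^ k, ?_⟩
    push_cast
    rw [← h, ← h', pow_add]
    ring
  zero_mem' := ⟨0, 0, by simp⟩
  neg_mem' := by
    rintro x ⟨k, n, h⟩
    refine ⟨k, -n, ?_⟩
    push_cast
    rw [← h]
    ring

variable (p : ℕ) [hp : Fact p.Prime]

/-- `ℤ[1/p] → ℚ` -/
abbrev lamQ (p : ℕ) : Lam p →+* ℚ := (Lam p).subtype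

/-- `ℤ[1/p] → ℚ_q` -/
abbrev lamK (p q : ℕ) [Fact q.Prime] : Lam p →+* ℚ_[q] := (Rat.castHom ℚ_[q]).comp (lamQ p)

/-- `ℤ[1/p] → ℤ_q` -/
def lamZ (p q : ℕ) [hp : Fact p.Prime] [hq : Fact q.Prime] (hqp : q ≠ p) : Lam p →+* ℤ_[q] :=
  (lamK p q).codRestrict (PadicInt.subring q) (by
    rintro ⟨x, k, n, h⟩
    show ‖((x : ℚ) : ℚ_[q])‖ ≤ 1
    have h1 := congrArg (fun y : ℚ => ‖(y : ℚ_[q])‖) h
    simp only [Rat.cast_mul, Rat.cast_pow, Rat.cast_natCast, Rat.cast_intCast, norm_mul,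
      norm_pow] at h1
    have h2 : ‖(p : ℚ_[q])‖ = 1 := by
      rw [Padic.norm_natCast_eq_one_iff]
      exact (Nat.coprime_primes hq.out hp.out).2 hqp
    rw [h2, one_pow, mul_one] at h1
    rw [h1]
    exact Padic.norm_int_le_one n)

theorem lamZ_coe (p q : ℕ) [hp : Fact p.Prime] [hq : Fact q.Prime] (hqp : q ≠ p) :
    (PadicInt.Coe.ringHom (p := q)).comp (lamZ p q hqp) = lamK p q := by
  apply RingHom.ext
  intro x
  rfl

theorem lam_descend (x : Lam p) (h : ‖((x : ℚ) : ℚ_[p])‖ ≤ 1) : ∃ n : ℤ, (x : ℚ) = n := by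
  obtain ⟨x, k, n, hx⟩ := x
  have h1 := congrArg (fun y : ℚ => ‖(y : ℚ_[p])‖) hx
  simp only [Rat.cast_mul, Rat.cast_pow, Rat.cast_natCast, Rat.cast_intCast, norm_mul,
    norm_pow] at h1
  have h2 : ‖(n : ℚ_[p])‖ ≤ (p : ℝ) ^ (-(k : ℤ)) := by
    rw [← h1, Padic.norm_p]
    have h3 : ((p : ℝ)⁻¹) ^ k = (p : ℝ) ^ (-(k : ℤ)) := by
      rw [_root_.zpow_neg, zpow_natCast, inv_pow]
    rw [h3]
    exact mul_le_of_le_one_left (by positivity) h
  rw [Padic.norm_int_le_pow_iff_dvd] at h2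
  obtain ⟨m, hm⟩ := h2
  refine ⟨m, ?_⟩
  have hp0 : (p : ℚ) ^ k ≠ 0 := pow_ne_zero _ (Nat.cast_ne_zero.2 hp.out.ne_zero)
  show x = m
  have h4 : x * (p : ℚ) ^ k = m * (p : ℚ) ^ k := by
    rw [hx, hm]
    push_cast
    ring
  exact mul_right_cancel₀ hp0 h4

theorem exists_pow_mul (x : ℚ_[p]) : ∃ s : ℕ, ‖(p : ℚ_[p]) ^ s * x‖ ≤ 1 := by
  by_cases h0 : x = 0
  · exact ⟨0, by rw [h0, mul_zero, norm_zero]; exact zero_le_one⟩
  · have hn := Padic.norm_eq_zpow_neg_valuation h0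
    refine ⟨x.valuation.natAbs, ?_⟩
    rw [norm_mul, norm_pow, Padic.norm_p, hn]
    have h1 : (1 : ℝ) ≤ p := by exact_mod_cast hp.out.one_lt.le
    rw [inv_pow, ← zpow_natCast, ← _root_.zpow_neg, ← zpow_add₀ (by positivity)]
    exact zpow_le_one_of_nonpos₀ h1 (by omega)

theorem lam_dense (x : ℚ_[p]) (m : ℕ) :
    ∃ l : Lam p, ‖lamK p p l - x‖ ≤ (p : ℝ) ^ (-(m : ℤ)) := by
  obtain ⟨s, hs⟩ := exists_pow_mul p x
  have hp0 : (p : ℚ_[p]) ≠ 0 := Nat.cast_ne_zero.2 hp.out.ne_zero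
  have hpR : (0 : ℝ) < p := by exact_mod_cast hp.out.pos
  have h1 := PadicInt.appr_spec (m + s) ⟨(p : ℚ_[p]) ^ s * x, hs⟩
  rw [← PadicInt.norm_le_pow_iff_mem_span_pow] at h1
  set n := PadicInt.appr ⟨(p : ℚ_[p]) ^ s * x, hs⟩ (m + s) with hn
  refine ⟨⟨(n : ℚ) / (p : ℚ) ^ s, s, n, ?_⟩, ?_⟩
  · rw [div_mul_cancel₀]
    · simp
    · exact pow_ne_zero _ (Nat.cast_ne_zero.2 hp.out.ne_zero)
  · have h2 : lamK p p ⟨(n : ℚ) / (p : ℚ) ^ s, s, n, by
      rw [div_mul_cancel₀]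
      · simp
      · exact pow_ne_zero _ (Nat.cast_ne_zero.2 hp.out.ne_zero)⟩ - x =
        -(((p : ℚ_[p]) ^ s)⁻¹ * ((p : ℚ_[p]) ^ s * x - n)) := by
      show (((n : ℚ) / (p : ℚ) ^ s : ℚ) : ℚ_[p]) - x = _
      push_cast
      field_simp
      ring
    rw [h2, norm_neg, norm_mul, norm_inv, norm_pow, Padic.norm_p]
    have h3 : ‖(p : ℚ_[p]) ^ s * x - n‖ ≤ (p : ℝ) ^ (-((m + s : ℕ) : ℤ)) := by
      have := h1
      rw [PadicInt.norm_def] at this
      push_cast at this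
      push_cast
      exact this
    calc (((p : ℝ)⁻¹ ^ s)⁻¹) * ‖(p : ℚ_[p]) ^ s * x - n‖
        ≤ (((p : ℝ)⁻¹ ^ s)⁻¹) * (p : ℝ) ^ (-((m + s : ℕ) : ℤ)) := by gcongr
      _ = (p : ℝ) ^ (-(m : ℤ)) := by
        rw [inv_pow, inv_inv, ← zpow_natCast, ← zpow_add₀ hpR.ne']
        congr 1
        push_cast
        ring

section lift

variable {R S : Type} [CommRing R] [CommRing S] {C : Type} [Group C]

theorem exists_ch (f : R →+* S) (x : MonoidAlgebra S C) (h : ∀ c, ∃ r, f r = x.coeff c) :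
    ∃ y : MonoidAlgebra R C, ch f C y = x := by
  classical
  choose a ha using h
  refine ⟨∑ g ∈ x.coeff.support, MonoidAlgebra.single g (a g), ?_⟩
  rw [map_sum]
  ext g
  rw [MonoidAlgebra.coeff_sum, Finsupp.finsetSum_apply]
  have h1 : ∀ y ∈ x.coeff.support, (ch f C (MonoidAlgebra.single y (a y))).coeff g =
      if y = g then x.coeff y else 0 := by
    intro y _
    rw [ch_coeff, MonoidAlgebra.coeff_single, Finsupp.single_apply]
    split_ifs
    · exact ha y
    · exact map_zero _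
  rw [Finset.sum_congr rfl h1, Finset.sum_ite_eq']
  split_ifs with h2
  · rfl
  · exact (Finsupp.notMem_support_iff.1 h2).symm

theorem exists_mL {B B' : Type} [Ring B] [Ring B'] (θ : B →+* B') (x : LaurentPolynomial B')
    (h : ∀ i, ∃ r, θ r = x.coeff i) : ∃ y : LaurentPolynomial B, mL θ y = x := by
  classical
  choose a ha using h
  refine ⟨∑ i ∈ x.coeff.support, AddMonoidAlgebra.single i (a i), ?_⟩
  apply LaurentPolynomial.ext
  intro g
  rw [mL_coeff, AddMonoidAlgebra.coeff_sum, Finsupp.finsetSum_apply, map_sum]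
  have h1 : ∀ y ∈ x.coeff.support, θ ((AddMonoidAlgebra.single y (a y) :
      LaurentPolynomial B).coeff g) = if y = g then x.coeff y else 0 := by
    intro y _
    rw [AddMonoidAlgebra.coeff_single, Finsupp.single_apply]
    split_ifs
    · exact ha y
    · exact map_zero _
  rw [Finset.sum_congr rfl h1, Finset.sum_ite_eq']
  split_ifs with h2
  · rfl
  · exact (Finsupp.notMem_support_iff.1 h2).symm

theorem exists_mLch (f : R →+* S) (x : LaurentPolynomial (MonoidAlgebra S C))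
    (h : ∀ i c, ∃ r, f r = (x.coeff i).coeff c) :
    ∃ y : LaurentPolynomial (MonoidAlgebra R C), mL (ch f C) y = x :=
  exists_mL _ x fun i => exists_ch f (x.coeff i) (h i)

theorem mLch_coeff (f : R →+* S) (x : LaurentPolynomial (MonoidAlgebra R C)) (i : ℤ) (c : C) :
    ((mL (ch f C) x).coeff i).coeff c = f ((x.coeff i).coeff c) := by
  rw [mL_coeff, ch_coeff]

theorem mLch_injective (f : R →+* S) (hf : Function.Injective f) :
    Function.Injective (mL (ch f C)) := by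
  intro x y hxy
  apply LaurentPolynomial.ext
  intro i
  ext c
  apply hf
  rw [← mLch_coeff, ← mLch_coeff, hxy]

end lift

/-- the entries of the patching matrices are integral -/
theorem entries_mem {R : Type} [CommRing R] (L : Subring R) (α α' P u v : R) (hα : α * α' = 1)
    (hA : P * α ∈ L) (hA' : P * α' ∈ L) (hP : P ∈ L) (hu : u ∈ L) (hv : v ∈ L) (a b : R)
    (ha : a = α + P ^ 3 * u) (hb : b = α' + P ^ 3 * v) :
    (2 - a * b) * a * α' ∈ L ∧ (a * b - 1) * α ∈ L ∧ (1 - b * a) * α' ∈ L ∧ b * α ∈ L := by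
  subst ha
  subst hb
  have hw : P ^ 2 * (P * α) * v + P ^ 2 * u * (P * α') + P ^ 6 * u * v ∈ L :=
    add_mem (add_mem (mul_mem (mul_mem (pow_mem hP _) hA) hv)
      (mul_mem (mul_mem (pow_mem hP _) hu) hA')) (mul_mem (mul_mem (pow_mem hP _) hu) hv)
  have hz : P ^ 2 * u * (P * α') ∈ L := mul_mem (mul_mem (pow_mem hP _) hu) hA'
  refine ⟨?_, ?_, ?_, ?_⟩
  · have h1 : (2 - (α + P ^ 3 * u) * (α' + P ^ 3 * v)) * (α + P ^ 3 * u) * α' =
        (1 - (P ^ 2 * (P * α) * v + P ^ 2 * u * (P * α') + P ^ 6 * u * v)) *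
          (1 + P ^ 2 * u * (P * α')) := by
      linear_combination (1 - α * α' - (α * P ^ 3 * v + P ^ 3 * u * α' + P ^ 6 * u * v) -
        P ^ 3 * u * α') * hα
    rw [h1]
    exact mul_mem (sub_mem (one_mem _) hw) (add_mem (one_mem _) hz)
  · have h1 : ((α + P ^ 3 * u) * (α' + P ^ 3 * v) - 1) * α =
        (P * α) ^ 2 * P * v + P ^ 3 * u + P ^ 5 * u * v * (P * α) := by
      linear_combination (α + P ^ 3 * u) * hα
    rw [h1]
    exact add_mem (add_mem (mul_mem (mul_mem (pow_mem hA _) hP) hv) (mul_mem (pow_mem hP _) hu))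
      (mul_mem (mul_mem (mul_mem (pow_mem hP _) hu) hv) hA)
  · have h1 : (1 - (α' + P ^ 3 * v) * (α + P ^ 3 * u)) * α' =
        -(P ^ 3 * v + P * u * (P * α') ^ 2 + P ^ 5 * u * v * (P * α')) := by
      linear_combination (-α' - P ^ 3 * v) * hα
    rw [h1]
    exact neg_mem (add_mem (add_mem (mul_mem (pow_mem hP _) hv)
      (mul_mem (mul_mem hP hu) (pow_mem hA' _)))
      (mul_mem (mul_mem (mul_mem (pow_mem hP _) hu) hv) hA'))
  · have h1 : (α' + P ^ 3 * v) * α = 1 + P ^ 2 * v * (P * α) := by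
      linear_combination hα
    rw [h1]
    exact add_mem (one_mem _) (mul_mem (mul_mem (pow_mem hP _) hv) hA)


theorem WW {R : Type} [CommRing R] (a b : R) :
    (!![b, 1 - b * a; a * b - 1, (2 - a * b) * a] : Matrix (_root_.Fin 2) (_root_.Fin 2) R) *
      !![(2 - a * b) * a, a * b - 1; 1 - b * a, b] = 1 := by
  rw [Matrix.mul_fin_two, Matrix.one_fin_two]
  have h1 : b * ((2 - a * b) * a) + (1 - b * a) * (1 - b * a) = 1 := by ring
  have h2 : b * (a * b - 1) + (1 - b * a) * b = 0 := by ring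
  have h3 : (a * b - 1) * ((2 - a * b) * a) + (2 - a * b) * a * (1 - b * a) = 0 := by ring
  have h4 : (a * b - 1) * (a * b - 1) + (2 - a * b) * a * b = 1 := by ring
  rw [h1, h2, h3, h4]


section patch

variable {Γ : Type} [CommGroup Γ]

theorem d_eD {B : Type} [Ring B] {F : B} (hF : F * F = F) :
    dAl F * eD B c0 * dAl' F = eD B c0 := by
  unfold dAl dAl' eD
  rw [Matrix.diagonal_mul_diagonal, Matrix.diagonal_mul_diagonal]
  congr 1
  ext1 i
  fin_cases i
  · show al' F * (if (0 : _root_.Fin 2) = 0 then 1 else 0) * al F = _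
    rw [if_pos rfl, mul_one, al'_mul_al hF]
    rfl
  · show al F * (if (1 : _root_.Fin 2) = 0 then 1 else 0) * al' F = _
    rw [if_neg (by decide), mul_zero, zero_mul]
    rfl

theorem mL_al {B B' : Type} [Ring B] [Ring B'] (θ : B →+* B') (F : B) :
    mL θ (al F) = al (θ F) := by
  apply LaurentPolynomial.ext
  intro i
  rw [mL_coeff, al_coeff, al_coeff, map_add, apply_ite θ, apply_ite θ, map_sub, map_one, map_zero]

theorem mL_al' {B B' : Type} [Ring B] [Ring B'] (θ : B →+* B') (F : B) :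
    mL θ (al' F) = al' (θ F) := by
  apply LaurentPolynomial.ext
  intro i
  rw [mL_coeff, al'_coeff, al'_coeff, map_add, apply_ite θ, apply_ite θ, map_sub, map_one,
    map_zero]

/-- A common integral form of an idempotent over `ℤ[1/p]` and over `ℤ_p`. -/
theorem descend (x : LaurentPolynomial (MonoidAlgebra (Lam p) Γ))
    (y : LaurentPolynomial (MonoidAlgebra ℤ_[p] Γ))
    (h : mL (ch (lamK p p) Γ) x = mL (jP Γ p) y) :
    ∃ z : LaurentPolynomial (MonoidAlgebra ℤ Γ), mL (ch (Int.castRingHom (Lam p)) Γ) z = x ∧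
      mL (iP Γ p) z = y := by
  obtain ⟨z, hz⟩ := exists_mLch (Int.castRingHom (Lam p)) x (by
    intro i c
    have h1 := congrArg (fun w => (w.coeff i).coeff c) h
    simp only [mLch_coeff] at h1
    obtain ⟨n, hn⟩ := lam_descend p ((x.coeff i).coeff c) (by
      have h2 : ((((x.coeff i).coeff c : Lam p) : ℚ) : ℚ_[p]) =
        (PadicInt.Coe.ringHom (p := p)) ((y.coeff i).coeff c) := h1
      rw [h2]
      exact PadicInt.norm_le_one _)
    refine ⟨n, Subtype.ext ?_⟩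
    rw [hn]
    simp)
  refine ⟨z, hz, ?_⟩
  apply mLch_injective (PadicInt.Coe.ringHom (p := p)) Subtype.val_injective
  rw [← h, ← hz]
  apply LaurentPolynomial.ext
  intro i
  ext c
  rw [mLch_coeff, mLch_coeff, mLch_coeff, mLch_coeff]
  simp

theorem mL_C {B B' : Type} [Ring B] [Ring B'] (θ : B →+* B') (b : B) : mL θ (C b) = C (θ b) := by
  apply LaurentPolynomial.ext
  intro i
  rw [mL_coeff, C_apply, C_apply, apply_ite θ, map_zero]

theorem mL_T {B B' : Type} [Ring B] [Ring B'] (θ : B →+* B') (i : ℤ) : mL θ (T i) = T i := by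
  apply LaurentPolynomial.ext
  intro j
  rw [mL_coeff, T_apply, T_apply, apply_ite θ, map_one, map_zero]

theorem eD_map {B B' : Type} [Ring B] [Ring B'] (θ : B →+* B') :
    (eD B c0).map (mL θ) = eD B' c0 := by
  unfold eD
  rw [Matrix.diagonal_map (map_zero _)]
  congr 1
  ext1 r
  show mL θ (if c0 r then 1 else 0) = _
  rw [apply_ite (mL θ), map_one, map_zero]

theorem al_scale {B : Type} [CommRing B] (F c : B) :
    C c * al F = C (c - c * F) + C (c * F) * T 1 := by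
  unfold al
  simp only [map_sub, map_mul, map_one]
  ring

theorem al'_scale {B : Type} [CommRing B] (F c : B) :
    C c * al' F = C (c - c * F) + C (c * F) * T (-1) := by
  unfold al'
  simp only [map_sub, map_mul, map_one]
  ring

theorem al_pert {B : Type} [CommRing B] (F c y : B) :
    al (F + c * y) = al F + C c * (C y * (T 1 - 1)) := by
  unfold al
  simp only [map_sub, map_add, map_mul, map_one]
  ring

theorem al'_pert {B : Type} [CommRing B] (F c y : B) :
    al' (F + c * y) = al' F + C c * (C y * (T (-1) - 1)) := by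
  unfold al'
  simp only [map_sub, map_add, map_mul, map_one]
  ring

/-- the abstract patching of the matrices -/
theorem glue {R S R' : Type} [CommRing R] [CommRing S] [CommRing R'] (f : R →+* S) (g : R' →+* S)
    (hg : Function.Injective g) (a b : R) (α α' : S) (hα : α * α' = 1)
    (m1 : (2 - f a * f b) * f a * α' ∈ g.range) (m2 : (f a * f b - 1) * α ∈ g.range)
    (m3 : (1 - f b * f a) * α' ∈ g.range) (m4 : f b * α ∈ g.range) :
    ∃ (W W' : Matrix (_root_.Fin 2) (_root_.Fin 2) R)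
      (V V' : Matrix (_root_.Fin 2) (_root_.Fin 2) R'),
      W' * W = 1 ∧ V' * V = 1 ∧ V.map g = W.map f * Matrix.diagonal ![α', α] ∧
      V'.map g = Matrix.diagonal ![α, α'] * W'.map f := by
  obtain ⟨v1, hv1⟩ := m1
  obtain ⟨v2, hv2⟩ := m2
  obtain ⟨v3, hv3⟩ := m3
  obtain ⟨v4, hv4⟩ := m4
  have hVm : (!![v1, v2; v3, v4] : Matrix (_root_.Fin 2) (_root_.Fin 2) R').map g =
      (!![(2 - a * b) * a, a * b - 1; 1 - b * a, b] :
        Matrix (_root_.Fin 2) (_root_.Fin 2) R).map f * Matrix.diagonal ![α', α] := by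
    ext1 i j
    rw [Matrix.mul_diagonal]
    fin_cases i <;> fin_cases j
    · show g v1 = f ((2 - a * b) * a) * α'
      rw [hv1]
      simp only [map_mul, map_sub, map_ofNat]
    · show g v2 = f (a * b - 1) * α
      rw [hv2]
      simp only [map_mul, map_sub, map_one]
    · show g v3 = f (1 - b * a) * α'
      rw [hv3]
      simp only [map_mul, map_sub, map_one]
    · show g v4 = f b * α
      rw [hv4]
  have hVm' : (!![v4, -v2; -v3, v1] : Matrix (_root_.Fin 2) (_root_.Fin 2) R').map g =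
      Matrix.diagonal ![α, α'] * (!![b, 1 - b * a; a * b - 1, (2 - a * b) * a] :
        Matrix (_root_.Fin 2) (_root_.Fin 2) R).map f := by
    ext1 i j
    rw [Matrix.diagonal_mul]
    fin_cases i <;> fin_cases j
    · show g v4 = α * f b
      rw [hv4, mul_comm]
    · show g (-v2) = α * f (1 - b * a)
      rw [map_neg, hv2]
      simp only [map_mul, map_sub, map_one]
      ring
    · show g (-v3) = α' * f (a * b - 1)
      rw [map_neg, hv3]
      simp only [map_mul, map_sub, map_one]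
      ring
    · show g v1 = α' * f ((2 - a * b) * a)
      rw [hv1]
      simp only [map_mul, map_sub, map_ofNat]
      ring
  refine ⟨_, _, _, _, WW a b, ?_, hVm, hVm'⟩
  have hdd : (Matrix.diagonal ![α, α'] * Matrix.diagonal ![α', α] :
      Matrix (_root_.Fin 2) (_root_.Fin 2) S) = 1 := by
    rw [Matrix.diagonal_mul_diagonal, ← Matrix.diagonal_one]
    congr 1
    ext1 i
    fin_cases i
    · exact hα
    · show α' * α = 1
      rw [mul_comm]
      exact hα
  have hWK := congrArg (fun M => M.map f) (WW a b)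
  rw [Matrix.map_mul, Matrix.map_one _ (map_zero _) (map_one _)] at hWK
  have h1 : ((!![v4, -v2; -v3, v1] : Matrix (_root_.Fin 2) (_root_.Fin 2) R') *
      !![v1, v2; v3, v4]).map g =
      (1 : Matrix (_root_.Fin 2) (_root_.Fin 2) _).map g := by
    rw [Matrix.map_mul, hVm, hVm', Matrix.map_one _ (map_zero _) (map_one _)]
    rw [Matrix.mul_assoc, ← Matrix.mul_assoc _ _ (Matrix.diagonal ![α', α]), hWK, Matrix.one_mul,
      hdd]
  ext1 i j
  exact hg (congrFun (congrFun h1 i) j)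

/-- the abstract descent of the idempotent -/
theorem glueE {R S R' Z : Type} [CommRing R] [CommRing S] [CommRing R'] [CommRing Z]
    (f : R →+* S) (g : R' →+* S) (i : Z →+* R) (j : Z →+* R') (hi : Function.Injective i)
    (hpb : ∀ x y, f x = g y → ∃ z, i z = x ∧ j z = y)
    (W W' e : Matrix (_root_.Fin 2) (_root_.Fin 2) R)
    (V V' e' : Matrix (_root_.Fin 2) (_root_.Fin 2) R')
    (D D' e'' : Matrix (_root_.Fin 2) (_root_.Fin 2) S) (he : e * e = e)
    (hWW : W' * W = 1) (hV : V.map g = W.map f * D) (hV' : V'.map g = D' * W'.map f)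
    (hD : D * e'' * D' = e'') (h1 : e.map f = e'') (h2 : e'.map g = e'') :
    ∃ E : Matrix (_root_.Fin 2) (_root_.Fin 2) Z, E * E = E ∧ E.map i = W * e * W' ∧
      E.map j = V * e' * V' := by
  have h3 : (W * e * W').map f = (V * e' * V').map g := by
    rw [Matrix.map_mul, Matrix.map_mul, Matrix.map_mul, Matrix.map_mul, hV, hV', h1, h2,
      ← hD]
    conv_rhs => rw [hD]
    simp only [Matrix.mul_assoc]
  have hE : ∀ r s, ∃ z : Z, i z = (W * e * W') r s ∧ j z = (V * e' * V') r s :=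
    fun r s => hpb _ _ (congrFun (congrFun h3 r) s)
  choose E hE1 hE2 using hE
  have hEm : (Matrix.of E).map i = W * e * W' := by
    ext1 r s
    exact hE1 r s
  refine ⟨Matrix.of E, ?_, hEm, ?_⟩
  · have h4 : (Matrix.of E * Matrix.of E).map i = (Matrix.of E).map i := by
      rw [Matrix.map_mul, hEm]
      rw [← Matrix.mul_assoc, ← Matrix.mul_assoc, Matrix.mul_assoc (W * e) W' W, hWW,
        Matrix.mul_one, Matrix.mul_assoc W e e, he]
    ext1 r s
    exact hi (congrFun (congrFun h4 r) s)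
  · ext1 r s
    exact hE2 r s

theorem natCast_pow_mul_coeff {R : Type} [CommRing R] (m : ℕ) (z : MonoidAlgebra R Γ) (c : Γ) :
    ((p : MonoidAlgebra R Γ) ^ m * z).coeff c = (p : R) ^ m * z.coeff c := by
  have h1 : (p : MonoidAlgebra R Γ) ^ m = MonoidAlgebra.single 1 ((p : R) ^ m) := by
    rw [← Nat.cast_pow, MonoidAlgebra.natCast_def, Nat.cast_pow]
  rw [h1, MonoidAlgebra.coeff_single_one_mul]

theorem denominators (F : MonoidAlgebra ℚ_[p] Γ) :
    ∃ (s : ℕ) (f : MonoidAlgebra ℤ_[p] Γ), jP Γ p f = (p : MonoidAlgebra ℚ_[p] Γ) ^ s * F := by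
  classical
  obtain ⟨s, hs⟩ : ∃ s : ℕ, ∀ c, ‖(p : ℚ_[p]) ^ s * F.coeff c‖ ≤ 1 := by
    choose t ht using fun c => exists_pow_mul p (F.coeff c)
    refine ⟨F.coeff.support.sup t, fun c => ?_⟩
    by_cases hc : c ∈ F.coeff.support
    · obtain ⟨d, hd⟩ := Nat.exists_eq_add_of_le (Finset.le_sup (f := t) hc)
      rw [hd, pow_add, mul_comm ((p : ℚ_[p]) ^ t c), mul_assoc, norm_mul, norm_pow, Padic.norm_p]
      have h1 : ((p : ℝ)⁻¹) ^ d ≤ 1 := pow_le_one₀ (by positivity)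
        (inv_le_one_of_one_le₀ (by exact_mod_cast hp.out.one_lt.le))
      exact mul_le_one₀ h1 (norm_nonneg _) (ht c)
    · rw [Finsupp.notMem_support_iff.1 hc, mul_zero, norm_zero]
      exact zero_le_one
  obtain ⟨f, hf⟩ := exists_ch (PadicInt.Coe.ringHom (p := p))
    ((p : MonoidAlgebra ℚ_[p] Γ) ^ s * F) (by
      intro c
      have h1 : ‖((p : MonoidAlgebra ℚ_[p] Γ) ^ s * F).coeff c‖ ≤ 1 := by
        rw [natCast_pow_mul_coeff]
        exact hs c
      exact ⟨⟨_, h1⟩, rfl⟩)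
  exact ⟨s, f, hf⟩

theorem approximation (F : MonoidAlgebra ℚ_[p] Γ) (m : ℕ) :
    ∃ (F' : MonoidAlgebra (Lam p) Γ) (y : MonoidAlgebra ℤ_[p] Γ),
      ch (lamK p p) Γ F' = F + (p : MonoidAlgebra ℚ_[p] Γ) ^ m * jP Γ p y := by
  classical
  have hpne : ((p : ℚ_[p])) ≠ 0 := Nat.cast_ne_zero.2 hp.out.ne_zero
  choose l hl using fun c => lam_dense p (F.coeff c) m
  let F' : MonoidAlgebra (Lam p) Γ := ∑ c ∈ F.coeff.support, MonoidAlgebra.single c (l c)
  have hco : ∀ c, F'.coeff c = if c ∈ F.coeff.support then l c else 0 := by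
    intro c
    show (∑ c ∈ F.coeff.support, MonoidAlgebra.single c (l c) : MonoidAlgebra _ Γ).coeff c = _
    rw [MonoidAlgebra.coeff_sum, Finsupp.finsetSum_apply]
    simp only [MonoidAlgebra.coeff_single, Finsupp.single_apply]
    rw [Finset.sum_ite_eq']
  obtain ⟨y, hy⟩ := exists_ch (PadicInt.Coe.ringHom (p := p))
    (((p : ℚ_[p]) ^ m)⁻¹ • (ch (lamK p p) Γ F' - F)) (by
      intro c
      have h1 : ‖(((p : ℚ_[p]) ^ m)⁻¹ • (ch (lamK p p) Γ F' - F)).coeff c‖ ≤ 1 := by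
        rw [MonoidAlgebra.coeff_smul, Finsupp.smul_apply, MonoidAlgebra.coeff_sub,
          Finsupp.sub_apply, ch_coeff, hco, smul_eq_mul, norm_mul, norm_inv, norm_pow,
          Padic.norm_p]
        have h2 : ‖lamK p p (if c ∈ F.coeff.support then l c else 0) - F.coeff c‖ ≤
            (p : ℝ) ^ (-(m : ℤ)) := by
          split_ifs with hc
          · exact_mod_cast hl c
          · rw [Finsupp.notMem_support_iff.1 hc, map_zero, sub_zero, norm_zero]
            positivity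
        have hpR : (0 : ℝ) < p := by exact_mod_cast hp.out.pos
        calc ((p : ℝ)⁻¹ ^ m)⁻¹ *
            ‖lamK p p (if c ∈ F.coeff.support then l c else 0) - F.coeff c‖
            ≤ ((p : ℝ)⁻¹ ^ m)⁻¹ * (p : ℝ) ^ (-(m : ℤ)) := by gcongr
          _ = 1 := by
            rw [inv_pow, inv_inv, _root_.zpow_neg, zpow_natCast, mul_inv_cancel₀]
            positivity
      exact ⟨⟨_, h1⟩, rfl⟩)
  refine ⟨F', y, ?_⟩
  ext c
  have h3 : jP Γ p y = ((p : ℚ_[p]) ^ m)⁻¹ • (ch (lamK p p) Γ F' - F) := hy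
  rw [MonoidAlgebra.coeff_add, Finsupp.add_apply, natCast_pow_mul_coeff, h3,
    MonoidAlgebra.coeff_smul, Finsupp.smul_apply, smul_eq_mul, ← mul_assoc,
    mul_inv_cancel₀ (pow_ne_zero _ hpne), one_mul, MonoidAlgebra.coeff_sub, Finsupp.sub_apply,
    add_sub_cancel]

theorem al_mem (F : MonoidAlgebra ℚ_[p] Γ) (s : ℕ) (f : MonoidAlgebra ℤ_[p] Γ)
    (hf : jP Γ p f = (p : MonoidAlgebra ℚ_[p] Γ) ^ s * F) :
    C ((p : MonoidAlgebra ℚ_[p] Γ) ^ s) * al F ∈ (mL (jP Γ p)).range := by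
  refine ⟨C ((p : MonoidAlgebra ℤ_[p] Γ) ^ s - f) + C f * T 1, ?_⟩
  rw [al_scale, map_add, map_mul, mL_C, mL_C, mL_T, map_sub, hf, map_pow, map_natCast]

theorem al'_mem (F : MonoidAlgebra ℚ_[p] Γ) (s : ℕ) (f : MonoidAlgebra ℤ_[p] Γ)
    (hf : jP Γ p f = (p : MonoidAlgebra ℚ_[p] Γ) ^ s * F) :
    C ((p : MonoidAlgebra ℚ_[p] Γ) ^ s) * al' F ∈ (mL (jP Γ p)).range := by
  refine ⟨C ((p : MonoidAlgebra ℤ_[p] Γ) ^ s - f) + C f * T (-1), ?_⟩
  rw [al'_scale, map_add, map_mul, mL_C, mL_C, mL_T, map_sub, hf, map_pow, map_natCast]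

theorem pert_mem (y : MonoidAlgebra ℤ_[p] Γ) (i : ℤ) :
    C (jP Γ p y) * (T i - 1) ∈ (mL (jP Γ p)).range := by
  refine ⟨C y * (T i - 1), ?_⟩
  rw [map_mul, map_sub, mL_C, mL_T, map_one]

theorem patch (F : MonoidAlgebra ℚ_[p] Γ) (hF : F * F = F) :
    ∃ (E : Matrix (_root_.Fin 2) (_root_.Fin 2) (LaurentPolynomial (MonoidAlgebra ℤ Γ)))
      (W W' : Matrix (_root_.Fin 2) (_root_.Fin 2) (LaurentPolynomial (MonoidAlgebra (Lam p) Γ)))
      (V V' : Matrix (_root_.Fin 2) (_root_.Fin 2) (LaurentPolynomial (MonoidAlgebra ℤ_[p] Γ))),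
      E * E = E ∧ W' * W = 1 ∧ V' * V = 1 ∧
      E.map (mL (ch (Int.castRingHom (Lam p)) Γ)) = W * eD _ c0 * W' ∧
      E.map (mL (iP Γ p)) = V * eD _ c0 * V' ∧
      V.map (mL (jP Γ p)) = W.map (mL (ch (lamK p p) Γ)) * dAl F ∧
      V'.map (mL (jP Γ p)) = dAl' F * W'.map (mL (ch (lamK p p) Γ)) := by
  obtain ⟨s, f, hf⟩ := denominators p F
  obtain ⟨F', y, hF'⟩ := approximation p F (s * 3)
  have hP : C ((p : MonoidAlgebra ℚ_[p] Γ) ^ s) ∈ (mL (jP Γ p)).range :=
    ⟨C ((p : MonoidAlgebra ℤ_[p] Γ) ^ s), by rw [mL_C, map_pow, map_natCast]⟩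
  have ha : mL (ch (lamK p p) Γ) (al F') =
      al F + (C ((p : MonoidAlgebra ℚ_[p] Γ) ^ s)) ^ 3 * (C (jP Γ p y) * (T 1 - 1)) := by
    rw [mL_al, hF', al_pert, pow_mul, ← map_pow]
  have hb : mL (ch (lamK p p) Γ) (al' F') =
      al' F + (C ((p : MonoidAlgebra ℚ_[p] Γ) ^ s)) ^ 3 * (C (jP Γ p y) * (T (-1) - 1)) := by
    rw [mL_al', hF', al'_pert, pow_mul, ← map_pow]
  obtain ⟨m1, m2, m3, m4⟩ := entries_mem (mL (jP Γ p)).range (al F) (al' F) _ _ _
    (al_mul_al' hF) (al_mem p F s f hf) (al'_mem p F s f hf) hP (pert_mem p y 1)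
    (pert_mem p y (-1)) _ _ ha hb
  obtain ⟨W, W', V, V', hWW, hVV, hV, hV'⟩ := glue (mL (ch (lamK p p) Γ)) (mL (jP Γ p))
    (mLch_injective (PadicInt.Coe.ringHom (p := p)) Subtype.val_injective) (al F') (al' F')
    (al F) (al' F) (al_mul_al' hF) m1 m2 m3 m4
  obtain ⟨E, hE, hE1, hE2⟩ := glueE (mL (ch (lamK p p) Γ)) (mL (jP Γ p))
    (mL (ch (Int.castRingHom (Lam p)) Γ)) (mL (iP Γ p))
    (mLch_injective (Int.castRingHom (Lam p)) (by
        intro m n h
        have := congrArg (Lam p).subtype h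
        simpa using this)) (descend p) W W' (eD _ c0) V V' (eD _ c0)
    (dAl F) (dAl' F) (eD _ c0) (eD_sq _) hWW hV hV' (d_eD hF) (eD_map _) (eD_map _)
  exact ⟨E, W, W', V, V', hE, hWW, hVV, hE1, hE2, hV, hV'⟩

end patch

end

end Pool.Agent.Y69.NK
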