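import Mathlib
import Pool.Agent.Y69.NK.Patch

/-!
# Classes in `K₋₁(ℤ[G])` coming from commutative subgroups
-/

set_option autoImplicit false
set_option linter.unusedSectionVars false

namespace Pool.Agent.Y69.NK

open LaurentPolynomial Finset Matrix
open Pool.Agent.H23R2.Cyc (ell ell_single ell_mul_comm tf tf_apply)
open Pool.Agent.H26R2.Bass (ind ind_comm tf_zero_of_finite)
open Pool.Agent.H26R2.IdemLI (ch ch_coeff)

noncomputable section

section functor

/-- the homomorphism of polynomial rings -/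
abbrev mP {A B : Type} [Ring A] [Ring B] (θ : A →+* B) : Polynomial A →+* Polynomial B :=
  Polynomial.mapRingHom θ

theorem mL_incPos {A B : Type} [Ring A] [Ring B] (θ : A →+* B) :
    (mL θ).comp (incPos A) = (incPos B).comp (mP θ) := by
  unfold incPos
  apply RingHom.ext
  intro f
  induction f using Polynomial.induction_on' with
  | add p q hp hq => rw [map_add, map_add, hp, hq]
  | monomial n a =>
    simp only [RingHom.comp_apply, Polynomial.coe_mapRingHom, Polynomial.map_monomial,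
      Polynomial.toLaurent_C_mul_T, map_mul, mL_C, mL_T]

theorem incNeg_monomial {A : Type} [Ring A] (n : ℕ) (a : A) :
    incNeg A (Polynomial.monomial n a) = AddMonoidAlgebra.single (-(n : ℤ)) a := by
  unfold incNeg
  rw [RingHom.comp_apply, Polynomial.toLaurent_C_mul_T, ← single_eq_C_mul_T,
    AddMonoidAlgebra.mapDomainRingHom_apply, AddMonoidAlgebra.mapDomain_single]
  rfl

theorem mL_incNeg {A B : Type} [Ring A] [Ring B] (θ : A →+* B) :
    (mL θ).comp (incNeg A) = (incNeg B).comp (mP θ) := by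
  apply RingHom.ext
  intro f
  induction f using Polynomial.induction_on' with
  | add p q hp hq => rw [map_add, map_add, hp, hq]
  | monomial n a =>
    rw [RingHom.comp_apply, RingHom.comp_apply, Polynomial.coe_mapRingHom,
      Polynomial.map_monomial, incNeg_monomial, incNeg_monomial]
    exact AddMonoidAlgebra.mapRingHom_single _ _ _

theorem NilPart_le {A B : Type} [Ring A] [Ring B] (θ : A →+* B) :
    NilPart A ≤ (NilPart B).comap (K0.map (mL θ)) := by
  refine sup_le ?_ ?_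
  · rintro _ ⟨y, rfl⟩
    rw [AddSubgroup.mem_comap, K0.map_comp, mL_incPos, ← K0.map_comp]
    exact AddSubgroup.mem_sup_left ⟨_, rfl⟩
  · rintro _ ⟨y, rfl⟩
    rw [AddSubgroup.mem_comap, K0.map_comp, mL_incNeg, ← K0.map_comp]
    exact AddSubgroup.mem_sup_right ⟨_, rfl⟩

/-- the homomorphism `K₋₁(A) → K₋₁(B)` induced by a ring homomorphism -/
def KNegOne.map {A B : Type} [Ring A] [Ring B] (θ : A →+* B) : KNegOne A →+ KNegOne B :=
  QuotientAddGroup.map (NilPart A) (NilPart B) (K0.map (AddMonoidAlgebra.mapRingHom ℤ θ))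
    (NilPart_le θ)

/-- the class in `K₋₁(A)` of a class in `K₀(A[t, t⁻¹])` -/
def KNegOne.of (A : Type) [Ring A] : K0 (LaurentPolynomial A) →+ KNegOne A :=
  QuotientAddGroup.mk' (NilPart A)

theorem KNegOne.map_of {A B : Type} [Ring A] [Ring B] (θ : A →+* B)
    (x : K0 (LaurentPolynomial A)) :
    KNegOne.map θ (KNegOne.of A x) = KNegOne.of B (K0.map (mL θ) x) := rfl

theorem KNegOne.of_eq_zero {A : Type} [Ring A] {x : K0 (LaurentPolynomial A)} :
    KNegOne.of A x = 0 ↔ x ∈ NilPart A := QuotientAddGroup.eq_zero_iff x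

end functor

variable {Γ G : Type} [CommGroup Γ] [Group G]

/-- the homomorphism of group rings -/
abbrev pf (R : Type) [CommRing R] (φ : Γ →* G) : MonoidAlgebra R Γ →+* MonoidAlgebra R G :=
  MonoidAlgebra.mapDomainRingHom R φ

theorem ch_pf {R S : Type} [CommRing R] [CommRing S] (f : R →+* S) (φ : Γ →* G) :
    (ch f G).comp (pf R φ) = (pf S φ).comp (ch f Γ) :=
  MonoidAlgebra.mapRingHom_comp_mapDomainRingHom f φ

theorem ch_comp {R S T : Type} [CommRing R] [CommRing S] [CommRing T] (f : R →+* S) (g : S →+* T)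
    (G : Type) [Group G] : (ch g G).comp (ch f G) = ch (g.comp f) G := by
  apply RingHom.ext
  intro x
  ext c
  rw [RingHom.comp_apply, ch_coeff, ch_coeff, ch_coeff]
  rfl

theorem map_map_mL {A B C : Type} [Ring A] [Ring B] [Ring C] (θ : A →+* B) (η : B →+* C)
    {ι κ : Type} (X : Matrix ι κ (LaurentPolynomial A)) :
    (X.map (mL θ)).map (mL η) = X.map (mL (η.comp θ)) := by
  ext1 r s
  exact mL_comp _ _ _

theorem dAl_map {B B' : Type} [Ring B] [Ring B'] (θ : B →+* B') (F : B) :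
    (dAl F).map (mL θ) = dAl (θ F) := by
  unfold dAl
  rw [Matrix.diagonal_map (map_zero _)]
  congr 1
  ext1 r
  fin_cases r
  · exact mL_al' θ F
  · exact mL_al θ F

theorem dAl'_map {B B' : Type} [Ring B] [Ring B'] (θ : B →+* B') (F : B) :
    (dAl' F).map (mL θ) = dAl' (θ F) := by
  unfold dAl'
  rw [Matrix.diagonal_map (map_zero _)]
  congr 1
  ext1 r
  fin_cases r
  · exact mL_al θ F
  · exact mL_al' θ F

theorem MRel.conj {B B' : Type} [Ring B] [Ring B'] {θ : B →+* B'} {ι : Type} [Fintype ι]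
    [DecidableEq ι] (U : Matrix ι (_root_.Fin 2) (LaurentPolynomial B))
    (U' : Matrix (_root_.Fin 2) ι (LaurentPolynomial B)) :
    MRel θ (NK.op U * (NK.op (eD B c0) * NK.pI B _) * NK.op U')
      (NK.op (U.map (mL θ)) * (NK.op (eD B' c0) * NK.pI B' _) * NK.op (U'.map (mL θ))) := by
  have h1 := MRel.op (θ := θ) (eD B c0)
  have h2 : (eD B c0).map (mL θ) = eD B' c0 := eD_map θ
  rw [h2] at h1
  exact ((MRel.op (θ := θ) U).mul (h1.mul (MRel.pI (θ := θ)))).mul (MRel.op (θ := θ) U')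

theorem mul_map_eq {A B : Type} [Ring A] [Ring B] (θ : A →+* B) {ι κ : Type} [Fintype ι]
    [Fintype κ] [DecidableEq κ] {U' : Matrix κ ι (LaurentPolynomial A)}
    {U : Matrix ι κ (LaurentPolynomial A)} (h : U' * U = 1) :
    U'.map (mL θ) * U.map (mL θ) = 1 := by
  rw [← Matrix.map_mul, h]
  exact Matrix.map_one _ (map_zero _) (map_one _)

open Classical in
/-- the invariants of the class that is patched from an idempotent of `ℚ_p[Γ]` -/
def del (φ : Γ →* G) (p : Nat.Primes) (F : MonoidAlgebra ℚ_[p] Γ) :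
    ∀ q : Nat.Primes, G → ℚ_[q] :=
  Pi.single p (fun g => tg ℚ_[p] g (pf ℚ_[p] φ F))

theorem del_same (φ : Γ →* G) (p : Nat.Primes) (F : MonoidAlgebra ℚ_[p] Γ) (g : G) :
    del φ p F p g = tg ℚ_[p] g (pf ℚ_[p] φ F) := by
  unfold del
  rw [Pi.single_eq_same]

theorem del_ne (φ : Γ →* G) (p : Nat.Primes) (F : MonoidAlgebra ℚ_[p] Γ) (g : G) (q : Nat.Primes)
    (h : q ≠ p) : del φ p F q g = 0 := by
  unfold del
  rw [Pi.single_eq_of_ne h]
  rfl

/-- The invariants of the class that is patched from an idempotent of `ℚ_p[Γ]`. -/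
theorem gen_patch (φ : Γ →* G) (p : Nat.Primes) (F : MonoidAlgebra ℚ_[p] Γ)
    (E : Matrix (_root_.Fin 2) (_root_.Fin 2) (LaurentPolynomial (MonoidAlgebra ℤ Γ)))
    (W W' : Matrix (_root_.Fin 2) (_root_.Fin 2) (LaurentPolynomial (MonoidAlgebra (Lam p) Γ)))
    (V V' : Matrix (_root_.Fin 2) (_root_.Fin 2) (LaurentPolynomial (MonoidAlgebra ℤ_[p] Γ)))
    (hF : F * F = F) (hE : E * E = E) (hW : W' * W = 1) (hV : V' * V = 1)
    (h1 : E.map (mL (ch (Int.castRingHom (Lam p)) Γ)) = W * eD _ c0 * W')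
    (h2 : E.map (mL (iP Γ p)) = V * eD _ c0 * V')
    (h3 : V.map (mL (jP Γ p)) = W.map (mL (ch (lamK p p) Γ)) * dAl F)
    (h4 : V'.map (mL (jP Γ p)) = dAl' F * W'.map (mL (ch (lamK p p) Γ))) :
    (cl (E.map (mL (pf ℤ φ))) (idem_map hE _), del φ p F) ∈ Gen G := by
  -- the rational polarisation
  set θ₀ : MonoidAlgebra (Lam p) Γ →+* MonoidAlgebra ℚ G := (pf ℚ φ).comp (ch (lamQ p) Γ) with hθ₀
  have hE₀ : (E.map (mL (pf ℤ φ))).map (mL (iQ G)) = W.map (mL θ₀) * eD _ c0 * W'.map (mL θ₀) := by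
    have e1 : (iQ G).comp (pf ℤ φ) = θ₀.comp (ch (Int.castRingHom (Lam p)) Γ) := by
      rw [hθ₀, RingHom.comp_assoc, ch_comp, ch_pf]
      congr 2
    rw [map_map_mL, e1, ← map_map_mL, h1, Matrix.map_mul, Matrix.map_mul, eD_map]
  refine ⟨_root_.Fin 2, inferInstance, inferInstance, _, idem_map hE _,
    op (W.map (mL θ₀)) * (op (eD _ c0) * pI _ _) * op (W'.map (mL θ₀)), ?_, rfl, fun q => ?_⟩
  · rw [hE₀]
    exact pol_conj _ _ (mul_map_eq θ₀ hW) c0
  have hR₀ := MRel.conj (θ := jQ G q) (W.map (mL θ₀)) (W'.map (mL θ₀))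
  have e2 : (jQ G q).comp θ₀ = (pf ℚ_[q] φ).comp (ch (lamK p q) Γ) := by
    rw [hθ₀, ← RingHom.comp_assoc, ch_pf, RingHom.comp_assoc, ch_comp]
  rw [map_map_mL, map_map_mL, e2] at hR₀
  by_cases hq : q = p
  · subst hq
    have hEp : (E.map (mL (pf ℤ φ))).map (mL (iP G q)) =
        V.map (mL (pf ℤ_[q] φ)) * eD _ c0 * V'.map (mL (pf ℤ_[q] φ)) := by
      rw [map_map_mL, ch_pf, ← map_map_mL, h2, Matrix.map_mul, Matrix.map_mul, eD_map]
    have hRp := MRel.conj (θ := jP G q) (V.map (mL (pf ℤ_[q] φ))) (V'.map (mL (pf ℤ_[q] φ)))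
    rw [map_map_mL, map_map_mL, ch_pf, ← map_map_mL, ← map_map_mL, h3, h4, Matrix.map_mul,
      Matrix.map_mul, map_map_mL, map_map_mL, dAl_map, dAl'_map] at hRp
    refine ⟨_, _, _, ?_, hRp, hR₀, fun g => ?_⟩
    · rw [hEp]
      exact pol_conj _ _ (mul_map_eq _ hV) c0
    · rw [TR_al (by rw [← map_mul, hF]) (tg ℚ_[q] g) (tg_comm g) _ _ (mul_map_eq _ hW)]
      exact del_same φ q F g
  · have hqp : (q : ℕ) ≠ p := fun h => hq (Subtype.ext h)
    set θq : MonoidAlgebra (Lam p) Γ →+* MonoidAlgebra ℤ_[q] G :=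
      (pf ℤ_[q] φ).comp (ch (lamZ p q hqp) Γ) with hθq
    have hEq : (E.map (mL (pf ℤ φ))).map (mL (iP G q)) =
        W.map (mL θq) * eD _ c0 * W'.map (mL θq) := by
      have e1 : (iP G q).comp (pf ℤ φ) = θq.comp (ch (Int.castRingHom (Lam p)) Γ) := by
        rw [hθq, RingHom.comp_assoc, ch_comp, ch_pf]
        congr 2
      rw [map_map_mL, e1, ← map_map_mL, h1, Matrix.map_mul, Matrix.map_mul, eD_map]
    have hRq := MRel.conj (θ := jP G q) (W.map (mL θq)) (W'.map (mL θq))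
    have e3 : (jP G q).comp θq = (pf ℚ_[q] φ).comp (ch (lamK p q) Γ) := by
      rw [hθq, ← RingHom.comp_assoc, ch_pf, RingHom.comp_assoc, ch_comp, lamZ_coe]
    rw [map_map_mL, map_map_mL, e3] at hRq
    refine ⟨_, _, _, ?_, hRq, hR₀, fun g => ?_⟩
    · rw [hEq]
      exact pol_conj _ _ (mul_map_eq _ hW) c0
    · rw [sub_self, TR_zero]
      exact del_ne φ p F g q hq

theorem exists_class (φ : Γ →* G) (p : Nat.Primes) (F : MonoidAlgebra ℚ_[p] Γ)
    (hF : F * F = F) : ∃ x : K0 (LaurentPolynomial (MonoidAlgebra ℤ Γ)),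
      (K0.map (mL (pf ℤ φ)) x, del φ p F) ∈ Inv G := by
  obtain ⟨E, W, W', V, V', hE, hW, hV, h1, h2, h3, h4⟩ := patch (p : ℕ) F hF
  refine ⟨cl E hE, ?_⟩
  rw [map_cl]
  exact AddSubgroup.subset_closure (gen_patch φ p F E W W' V V' hF hE hW hV h1 h2 h3 h4)

end

end Pool.Agent.Y69.NK
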