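import Mathlib
import Pool.Agent.Y69.NK.Patch

/-!
# Elements of `ℚ_p[Γ]` in the span of the idempotents
-/

set_option autoImplicit false
set_option linter.unusedSectionVars false

namespace Pool.Agent.Y69.NK

open Finset Polynomial
open Pool.Agent.H26R2.IdemLI (ch ch_coeff)

noncomputable section

section zp

variable (p : ℕ) [hp : Fact p.Prime] {Γ : Type} [CommGroup Γ]

theorem zp_pow_card (r : ℤ_[p]) : (p : ℤ_[p]) ∣ r ^ p - r := by
  have h1 : r ^ p - r ∈ RingHom.ker (PadicInt.toZMod (p := p)) := by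
    rw [RingHom.mem_ker, map_sub, map_pow, ZMod.pow_card, sub_self]
  rw [PadicInt.ker_toZMod, PadicInt.maximalIdeal_eq_span_p, Ideal.mem_span_singleton] at h1
  exact h1

theorem zp_eq_zero (r : ℤ_[p]) (h : ∀ n : ℕ, (p : ℤ_[p]) ^ n ∣ r) : r = 0 := by
  by_contra h0
  obtain ⟨n, hn⟩ := FiniteMultiplicity.of_not_isUnit (PadicInt.p_nonunit (p := p)) h0
  exact hn (h (n + 1))

variable {p}

theorem dvd_iff [Finite Γ] (n : ℕ) (x : MonoidAlgebra ℤ_[p] Γ) :
    (p : MonoidAlgebra ℤ_[p] Γ) ^ n ∣ x ↔ ∀ g, (p : ℤ_[p]) ^ n ∣ x.coeff g := by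
  classical
  have := Fintype.ofFinite Γ
  constructor
  · rintro ⟨y, rfl⟩ g
    rw [natCast_pow_mul_coeff]
    exact dvd_mul_right _ _
  · intro h
    choose y hy using h
    refine ⟨∑ g, MonoidAlgebra.single g (y g), ?_⟩
    ext g
    rw [natCast_pow_mul_coeff, hy, MonoidAlgebra.coeff_sum, Finsupp.finsetSum_apply]
    simp only [MonoidAlgebra.coeff_single, Finsupp.single_apply]
    rw [Finset.sum_ite_eq' Finset.univ g y, if_pos (Finset.mem_univ g)]

theorem eq_of_dvd [Finite Γ] (x y : MonoidAlgebra ℤ_[p] Γ)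
    (h : ∀ n : ℕ, (p : MonoidAlgebra ℤ_[p] Γ) ^ n ∣ x - y) : x = y := by
  ext g
  apply sub_eq_zero.1
  apply zp_eq_zero p
  intro n
  have := (dvd_iff n _).1 (h n) g
  rwa [MonoidAlgebra.coeff_sub, Finsupp.sub_apply] at this

variable (p) in
/-- the Adams operation `ψ^p` -/
def psi : MonoidAlgebra ℤ_[p] Γ →+* MonoidAlgebra ℤ_[p] Γ :=
  MonoidAlgebra.mapDomainRingHom ℤ_[p] (powMonoidHom p)

theorem psi_single (g : Γ) (r : ℤ_[p]) :
    psi p (MonoidAlgebra.single g r) = MonoidAlgebra.single (g ^ p) r := by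
  unfold psi
  rw [MonoidAlgebra.mapDomainRingHom_apply, MonoidAlgebra.mapDomain_single]
  rfl

theorem frob (x : MonoidAlgebra ℤ_[p] Γ) : (p : MonoidAlgebra ℤ_[p] Γ) ∣ x ^ p - psi p x := by
  classical
  induction x using MonoidAlgebra.induction_linear with
  | zero => rw [zero_pow hp.out.ne_zero, map_zero, sub_zero]; exact dvd_zero _
  | add x y hx hy =>
    obtain ⟨r, hr⟩ := exists_add_pow_prime_eq hp.out x y
    rw [hr, map_add]
    obtain ⟨a, ha⟩ := hx
    obtain ⟨b, hb⟩ := hy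
    refine ⟨a + b + x * y * r, ?_⟩
    rw [mul_add, mul_add, ← ha, ← hb]
    ring
  | single g r =>
    obtain ⟨s, hs⟩ := zp_pow_card p r
    refine ⟨MonoidAlgebra.single (g ^ p) s, ?_⟩
    rw [MonoidAlgebra.single_pow, psi_single, ← MonoidAlgebra.single_sub, hs]
    ext c
    have h1 := natCast_pow_mul_coeff p 1 (MonoidAlgebra.single (g ^ p) s) c
    rw [pow_one, pow_one] at h1
    rw [h1, MonoidAlgebra.coeff_single, MonoidAlgebra.coeff_single, Finsupp.single_apply,
      Finsupp.single_apply, mul_ite, mul_zero]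

theorem exists_lim (f : ℕ → ℤ_[p]) (hf : ∀ n, (p : ℤ_[p]) ^ n ∣ f (n + 1) - f n) :
    ∃ L : ℤ_[p], ∀ n, (p : ℤ_[p]) ^ n ∣ L - f n := by
  have h1 : ∀ {m n : ℕ}, m ≤ n → (p : ℤ_[p]) ^ m ∣ f n - f m := by
    intro m n hmn
    induction n, hmn using Nat.le_induction with
    | base => rw [sub_self]; exact dvd_zero _
    | succ n hn ih =>
      have : f (n + 1) - f m = (f (n + 1) - f n) + (f n - f m) := by ring
      rw [this]
      exact dvd_add ((pow_dvd_pow _ hn).trans (hf n)) ih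
  have hI : ∀ (n : ℕ) (x : ℤ_[p]),
      x ∈ (IsLocalRing.maximalIdeal ℤ_[p] ^ n • ⊤ : Submodule ℤ_[p] ℤ_[p]) ↔
        (p : ℤ_[p]) ^ n ∣ x := by
    intro n x
    rw [PadicInt.maximalIdeal_eq_span_p, Ideal.span_singleton_pow, smul_eq_mul, Ideal.mul_top,
      Ideal.mem_span_singleton]
  obtain ⟨L, hL⟩ := IsPrecomplete.prec (I := IsLocalRing.maximalIdeal ℤ_[p]) (M := ℤ_[p])
    inferInstance (f := f) (by
      intro m n hmn
      rw [SModEq.sub_mem, hI, ← dvd_neg, neg_sub]
      exact h1 hmn)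
  refine ⟨L, fun n => ?_⟩
  have h2 := hL n
  rw [SModEq.sub_mem, hI] at h2
  rw [← dvd_neg, neg_sub]
  exact h2

theorem pow_sub_dvd {R : Type} [CommRing R] (p z : R) (hz : p ∣ z * z - z) (k : ℕ)
    (hk : 0 < k) : p ∣ z ^ k - z := by
  induction k, hk using Nat.le_induction with
  | base =>
    have h0 : z ^ Nat.succ 0 - z = 0 := by rw [Nat.succ_eq_add_one, zero_add, pow_one, sub_self]
    rw [h0]
    exact dvd_zero _
  | succ k _ ih =>
    have : z ^ (k + 1) - z = z * (z ^ k - z) + (z * z - z) := by ring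
    rw [this]
    exact dvd_add (ih.mul_left _) hz

theorem lift_idem [Finite Γ] (z : MonoidAlgebra ℤ_[p] Γ)
    (hz : (p : MonoidAlgebra ℤ_[p] Γ) ∣ z * z - z) :
    ∃ e : MonoidAlgebra ℤ_[p] Γ, e * e = e ∧
      ∀ n : ℕ, (p : MonoidAlgebra ℤ_[p] Γ) ^ n ∣ e - z ^ p ^ n := by
  classical
  have := Fintype.ofFinite Γ
  have hzp : (p : MonoidAlgebra ℤ_[p] Γ) ∣ z ^ p - z := pow_sub_dvd _ z hz p hp.out.pos
  have h2 : ∀ n : ℕ, (p : MonoidAlgebra ℤ_[p] Γ) ^ n ∣ z ^ p ^ (n + 1) - z ^ p ^ n := by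
    intro n
    have h3 := dvd_sub_pow_of_dvd_sub (a := z ^ p) (b := z) hzp n
    rw [← pow_mul, ← pow_succ'] at h3
    exact (pow_dvd_pow _ (Nat.le_succ n)).trans h3
  have h3 : ∀ g : Γ, ∃ L : ℤ_[p], ∀ n : ℕ, (p : ℤ_[p]) ^ n ∣ L - (z ^ p ^ n).coeff g := by
    intro g
    apply exists_lim (fun n => (z ^ p ^ n).coeff g)
    intro n
    have := (dvd_iff n _).1 (h2 n) g
    rwa [MonoidAlgebra.coeff_sub, Finsupp.sub_apply] at this
  choose L hL using h3
  have h4 : ∀ g : Γ, (∑ g, MonoidAlgebra.single g (L g) : MonoidAlgebra ℤ_[p] Γ).coeff g =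
      L g := by
    intro g
    rw [MonoidAlgebra.coeff_sum, Finsupp.finsetSum_apply]
    simp only [MonoidAlgebra.coeff_single, Finsupp.single_apply]
    rw [Finset.sum_ite_eq' Finset.univ g L, if_pos (Finset.mem_univ g)]
  set e : MonoidAlgebra ℤ_[p] Γ := ∑ g, MonoidAlgebra.single g (L g) with he
  have h5 : ∀ n : ℕ, (p : MonoidAlgebra ℤ_[p] Γ) ^ n ∣ e - z ^ p ^ n := by
    intro n
    rw [dvd_iff]
    intro g
    rw [MonoidAlgebra.coeff_sub, Finsupp.sub_apply, h4]
    exact hL g n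
  refine ⟨e, ?_, h5⟩
  apply eq_of_dvd
  intro n
  have h6 : e * e - e = (e - z ^ p ^ n) * (e + z ^ p ^ n) +
      ((z * z) ^ p ^ n - z ^ p ^ n) - (e - z ^ p ^ n) := by
    rw [mul_pow]
    ring
  rw [h6]
  exact dvd_sub (dvd_add ((h5 n).mul_right _)
    ((pow_dvd_pow _ (Nat.le_succ n)).trans (dvd_sub_pow_of_dvd_sub hz n))) (h5 n)

end zp

section interp

variable (p : ℕ) [hp : Fact p.Prime]

/-- the interpolation polynomial of the identity -/
theorem interp : ∃ Q : ℤ[X], X - ∑ c ∈ range p, C (c : ℤ) * (1 - (X - C (c : ℤ)) ^ (p - 1)) =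
    C (p : ℤ) * Q := by
  have hmap : (X - ∑ c ∈ range p, C (c : ℤ) * (1 - (X - C (c : ℤ)) ^ (p - 1)) : ℤ[X]).map
      (Int.castRingHom (ZMod p)) = 0 := by
    apply Polynomial.eq_zero_of_natDegree_lt_card_of_eval_eq_zero _
      (f := (id : ZMod p → ZMod p)) Function.injective_id
    · intro a
      have hval : ((a.val : ℕ) : ZMod p) = a := ZMod.natCast_zmod_val a
      rw [Polynomial.map_sub, Polynomial.eval_sub, Polynomial.map_X, Polynomial.eval_X,
        Polynomial.map_sum, Polynomial.eval_finsetSum,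
        Finset.sum_eq_single a.val]
      · simp only [Polynomial.map_mul, Polynomial.map_sub, Polynomial.map_pow, Polynomial.map_C,
          Polynomial.map_one, Polynomial.map_X, Polynomial.eval_mul, Polynomial.eval_sub,
          Polynomial.eval_pow, Polynomial.eval_C, Polynomial.eval_one, Polynomial.eval_X, id]
        rw [map_natCast, hval, sub_self, zero_pow (by have := hp.out.two_le; omega), sub_zero,
          mul_one, sub_self]
      · intro c hc hca
        simp only [Polynomial.map_mul, Polynomial.map_sub, Polynomial.map_pow, Polynomial.map_C,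
          Polynomial.map_one, Polynomial.map_X, Polynomial.eval_mul, Polynomial.eval_sub,
          Polynomial.eval_pow, Polynomial.eval_C, Polynomial.eval_one, Polynomial.eval_X, id]
        rw [map_natCast, ZMod.pow_card_sub_one_eq_one, sub_self, mul_zero]
        intro h0
        apply hca
        have h1 : ((c : ℕ) : ZMod p) = (a.val : ZMod p) := by
          rw [hval]
          exact (sub_eq_zero.1 h0).symm
        have h2 := (ZMod.natCast_eq_natCast_iff' _ _ _).1 h1
        rw [Nat.mod_eq_of_lt (Finset.mem_range.1 hc), Nat.mod_eq_of_lt (ZMod.val_lt a)] at h2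
        exact h2
      · intro h
        exact absurd (Finset.mem_range.2 (ZMod.val_lt a)) h
    · rw [ZMod.card]
      have h2 := hp.out.two_le
      refine lt_of_le_of_lt (Polynomial.natDegree_map_le.trans ?_) (by omega : p - 1 < p)
      refine (Polynomial.natDegree_sub_le _ _).trans (max_le ?_ ?_)
      · rw [Polynomial.natDegree_X]
        omega
      · apply Polynomial.natDegree_sum_le_of_forall_le
        intro c _
        refine (Polynomial.natDegree_C_mul_le _ _).trans ?_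
        refine (Polynomial.natDegree_sub_le _ _).trans (max_le ?_ ?_)
        · rw [Polynomial.natDegree_one]
          omega
        · refine Polynomial.natDegree_pow_le.trans ?_
          rw [Polynomial.natDegree_X_sub_C, mul_one]
  have h3 : C (p : ℤ) ∣
      X - ∑ c ∈ range p, C (c : ℤ) * (1 - (X - C (c : ℤ)) ^ (p - 1)) := by
    rw [Polynomial.C_dvd_iff_dvd_coeff]
    intro i
    have h4 := congrArg (fun P => P.coeff i) hmap
    simp only [Polynomial.coeff_map, Polynomial.coeff_zero, eq_intCast] at h4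
    exact (ZMod.intCast_zmod_eq_zero_iff_dvd _ _).1 h4
  exact h3

end interp

section fixed

variable {p : ℕ} [hp : Fact p.Prime] {Γ : Type} [CommGroup Γ] [Finite Γ]

theorem exists_fixed_idem (x : MonoidAlgebra ℤ_[p] Γ) (hx : psi p x = x) (c : ℕ) :
    ∃ e : MonoidAlgebra ℤ_[p] Γ, e * e = e ∧ psi p e = e ∧
      (p : MonoidAlgebra ℤ_[p] Γ) ∣ e - (1 - (x - (c : MonoidAlgebra ℤ_[p] Γ)) ^ (p - 1)) := by
  set y := x - (c : MonoidAlgebra ℤ_[p] Γ) with hy
  have hpy : psi p y = y := by rw [hy, map_sub, hx, map_natCast]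
  have h1 : (p : MonoidAlgebra ℤ_[p] Γ) ∣ y ^ p - y := by
    have := frob y
    rwa [hpy] at this
  set z := 1 - y ^ (p - 1) with hz
  have hpz : psi p z = z := by rw [hz, map_sub, map_one, map_pow, hpy]
  have hzz : (p : MonoidAlgebra ℤ_[p] Γ) ∣ z * z - z := by
    have h2 : z * z - z = y ^ (p - 2) * (y ^ p - y) := by
      obtain ⟨k, hk⟩ := Nat.exists_eq_add_of_le hp.out.two_le
      have h3 : p - 1 = k + 1 := by omega
      have h4 : p - 2 = k := by omega
      have h5 : y ^ p = y ^ (2 + k) := by rw [← hk]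
      rw [hz, h3, h4, h5]
      ring
    rw [h2]
    exact h1.mul_left _
  obtain ⟨e, he, hn⟩ := lift_idem z hzz
  refine ⟨e, he, ?_, ?_⟩
  · apply eq_of_dvd
    intro n
    have h3 : psi p e - e = psi p (e - z ^ p ^ n) - (e - z ^ p ^ n) := by
      rw [map_sub, map_pow, hpz]
      ring
    rw [h3]
    obtain ⟨w, hw⟩ := hn n
    refine dvd_sub ?_ (hn n)
    rw [hw, map_mul, map_pow, map_natCast]
    exact dvd_mul_right _ _
  · have h3 := hn 1
    rw [pow_one, pow_one] at h3
    have h4 : e - z = (e - z ^ p) + (z ^ p - z) := by ring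
    rw [h4]
    exact dvd_add h3 (pow_sub_dvd _ z hzz p hp.out.pos)

theorem mul_p_injective (x y : MonoidAlgebra ℤ_[p] Γ)
    (h : (p : MonoidAlgebra ℤ_[p] Γ) * x = (p : MonoidAlgebra ℤ_[p] Γ) * y) : x = y := by
  ext g
  have h1 := congrArg (fun w => w.coeff g) h
  have h2 := natCast_pow_mul_coeff p 1 x g
  have h3 := natCast_pow_mul_coeff p 1 y g
  rw [pow_one, pow_one] at h2 h3
  simp only [h2, h3] at h1
  exact mul_left_cancel₀ (Nat.cast_ne_zero.2 hp.out.ne_zero) h1

theorem fixed_step (x : MonoidAlgebra ℤ_[p] Γ) (hx : psi p x = x) :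
    ∃ (e : ℕ → MonoidAlgebra ℤ_[p] Γ) (y : MonoidAlgebra ℤ_[p] Γ), (∀ c, e c * e c = e c) ∧
      psi p y = y ∧ x = ∑ c ∈ range p, (c : MonoidAlgebra ℤ_[p] Γ) * e c +
        (p : MonoidAlgebra ℤ_[p] Γ) * y := by
  choose e he1 he2 he3 using exists_fixed_idem x hx
  have h1 : (p : MonoidAlgebra ℤ_[p] Γ) ∣ x - ∑ c ∈ range p, (c : MonoidAlgebra ℤ_[p] Γ) * e c := by
    obtain ⟨Q, hQ⟩ := interp p
    have h2 := congrArg (Polynomial.aeval x) hQ
    rw [map_mul, map_sub, map_sum, Polynomial.aeval_X] at h2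
    simp only [map_mul, map_sub, map_pow, map_one, Polynomial.aeval_X, map_natCast] at h2
    have h3 : x - ∑ c ∈ range p, (c : MonoidAlgebra ℤ_[p] Γ) * e c =
        (x - ∑ c ∈ range p, (c : MonoidAlgebra ℤ_[p] Γ) *
          (1 - (x - (c : MonoidAlgebra ℤ_[p] Γ)) ^ (p - 1))) -
        ∑ c ∈ range p, (c : MonoidAlgebra ℤ_[p] Γ) *
          (e c - (1 - (x - (c : MonoidAlgebra ℤ_[p] Γ)) ^ (p - 1))) := by
      rw [sub_sub, ← Finset.sum_add_distrib]
      congr 1
      apply Finset.sum_congr rfl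
      intro c _
      ring
    rw [h3, h2]
    refine dvd_sub (dvd_mul_right _ _) (Finset.dvd_sum fun c _ => (he3 c).mul_left _)
  obtain ⟨y, hy⟩ := h1
  refine ⟨e, y, he1, ?_, ?_⟩
  · apply mul_p_injective
    have h2 : psi p ((p : MonoidAlgebra ℤ_[p] Γ) * y) = (p : MonoidAlgebra ℤ_[p] Γ) * y := by
      rw [← hy, map_sub, map_sum, hx]
      congr 1
      apply Finset.sum_congr rfl
      intro c _
      rw [map_mul, map_natCast, he2]
    rwa [map_mul, map_natCast] at h2
  · rw [← hy]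
    ring

variable (p Γ) in
/-- the fixed elements of the Adams operation -/
def fixedSub : Submodule ℤ_[p] (MonoidAlgebra ℤ_[p] Γ) where
  carrier := {x | psi p x = x}
  add_mem' := by
    intro x y hx hy
    show psi p (x + y) = x + y
    rw [map_add, hx, hy]
  zero_mem' := map_zero _
  smul_mem' := by
    intro c x hx
    show psi p (c • x) = c • x
    have h1 : c • x = MonoidAlgebra.single 1 c * x := by
      ext g
      rw [MonoidAlgebra.coeff_single_one_mul]
      rfl
    rw [h1, map_mul, psi_single, one_pow]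
    rw [show psi p x = x from hx]

theorem fixed_le_span : fixedSub p Γ ≤
    Submodule.span ℤ_[p] {e : MonoidAlgebra ℤ_[p] Γ | e * e = e} := by
  have := Fintype.ofFinite Γ
  have hfin : Module.Finite ℤ_[p] (MonoidAlgebra ℤ_[p] Γ) := inferInstance
  refine Submodule.le_of_le_smul_of_le_jacobson_bot (I := Ideal.span {(p : ℤ_[p])})
    (IsNoetherian.noetherian _) ?_ ?_
  · rw [← PadicInt.maximalIdeal_eq_span_p]
    exact IsLocalRing.maximalIdeal_le_jacobson _
  · intro x hx
    obtain ⟨e, y, he, hy, hxy⟩ := fixed_step x hx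
    rw [hxy]
    apply Submodule.add_mem_sup
    · apply Submodule.sum_mem
      intro c _
      have h1 : (c : MonoidAlgebra ℤ_[p] Γ) * e c = (c : ℤ_[p]) • e c := by
        rw [← nsmul_eq_mul, Nat.cast_smul_eq_nsmul]
      rw [h1]
      exact Submodule.smul_mem _ _ (Submodule.subset_span (he c))
    · have h1 : (p : MonoidAlgebra ℤ_[p] Γ) * y = (p : ℤ_[p]) • y := by
        rw [← nsmul_eq_mul, Nat.cast_smul_eq_nsmul]
      rw [h1]
      exact Submodule.smul_mem_smul (Ideal.mem_span_singleton_self _) hy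

end fixed

end

end Pool.Agent.Y69.NK
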