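import Mathlib
import Pool.Agent.Y69.NK.Span
import Pool.Agent.Y69.NK.Fwd

/-!
# The elements attached to the `p`-adic classes of the generators of a cyclic group
-/

set_option autoImplicit false
set_option linter.unusedSectionVars false

namespace Pool.Agent.Y69.NK

open Finset
open Pool.Agent.H26R2.IdemLI (ch ch_coeff)
open Pool.Agent.H26R2.Bass (ind)
open Pool.Agent.H23R2.Cyc (ell ell_single)

noncomputable section

variable (p : ℕ) [hp : Fact p.Prime] {Γ : Type} [CommGroup Γ]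

variable (Γ) in
/-- the span of the idempotents of `ℚ_p[Γ]` -/
def SI : Submodule ℚ_[p] (MonoidAlgebra ℚ_[p] Γ) :=
  Submodule.span ℚ_[p] {F : MonoidAlgebra ℚ_[p] Γ | F * F = F}

variable {p}

theorem SI.mul_mem {x y : MonoidAlgebra ℚ_[p] Γ} (hx : x ∈ SI p Γ) (hy : y ∈ SI p Γ) :
    x * y ∈ SI p Γ := by
  unfold SI at *
  have h := Submodule.mul_mem_mul hx hy
  rw [Submodule.span_mul_span] at h
  refine Submodule.span_mono ?_ h
  rintro _ ⟨a, ha, b, hb, rfl⟩
  show a * b * (a * b) = a * b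
  have ha' : a * a = a := ha
  have hb' : b * b = b := hb
  calc a * b * (a * b) = (a * a) * (b * b) := by ring
    _ = a * b := by rw [ha', hb']

theorem jP_smul (a : ℤ_[p]) (x : MonoidAlgebra ℤ_[p] Γ) :
    jP Γ p (a • x) = (a : ℚ_[p]) • jP Γ p x := by
  ext g
  rw [MonoidAlgebra.coeff_smul, Finsupp.smul_apply, ch_coeff, ch_coeff, MonoidAlgebra.coeff_smul,
    Finsupp.smul_apply, smul_eq_mul, smul_eq_mul, map_mul]
  rfl

theorem jP_span (x : MonoidAlgebra ℤ_[p] Γ)
    (h : x ∈ Submodule.span ℤ_[p] {e : MonoidAlgebra ℤ_[p] Γ | e * e = e}) :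
    jP Γ p x ∈ SI p Γ := by
  induction h using Submodule.span_induction with
  | mem x h =>
    apply Submodule.subset_span
    show jP Γ p x * jP Γ p x = jP Γ p x
    rw [← map_mul, show x * x = x from h]
  | zero => rw [map_zero]; exact Submodule.zero_mem _
  | add x y _ _ hx hy => rw [map_add]; exact Submodule.add_mem _ hx hy
  | smul a x _ hx =>
    rw [jP_smul]
    exact Submodule.smul_mem _ _ hx

theorem jP_mem [Finite Γ] (x : MonoidAlgebra ℤ_[p] Γ) (hx : psi p x = x) : jP Γ p x ∈ SI p Γ :=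
  jP_span x (fixed_le_span hx)

theorem geom_mem (x : MonoidAlgebra ℚ_[p] Γ) (n : ℕ) (hn : 0 < n) (hx : x ^ n = 1) :
    ∑ i ∈ range n, x ^ i ∈ SI p Γ := by
  set N := ∑ i ∈ range n, x ^ i with hN
  have h1 : N * (x - 1) = 0 := by rw [hN, geom_sum_mul, hx, sub_self]
  have h2 : N * x = N := by
    rw [mul_sub, mul_one] at h1
    exact sub_eq_zero.1 h1
  have h3 : ∀ i, N * x ^ i = N := by
    intro i
    induction i with
    | zero => rw [pow_zero, mul_one]
    | succ i ih => rw [pow_succ, ← mul_assoc, ih, h2]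
  have h4 : N * N = n • N := by
    calc N * N = N * ∑ i ∈ range n, x ^ i := rfl
      _ = ∑ i ∈ range n, N * x ^ i := Finset.mul_sum _ _ _
      _ = n • N := by
        rw [Finset.sum_congr rfl (fun i _ => h3 i), Finset.sum_const, Finset.card_range]
  have hn0 : (n : ℚ_[p]) ≠ 0 := Nat.cast_ne_zero.2 hn.ne'
  have h5 : N = (n : ℚ_[p]) • ((n : ℚ_[p])⁻¹ • N) := by
    rw [smul_smul, mul_inv_cancel₀ hn0, one_smul]
  rw [h5]
  apply Submodule.smul_mem
  apply Submodule.subset_span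
  show (n : ℚ_[p])⁻¹ • N * ((n : ℚ_[p])⁻¹ • N) = (n : ℚ_[p])⁻¹ • N
  rw [smul_mul_smul_comm, h4, ← Nat.cast_smul_eq_nsmul ℚ_[p], smul_smul, mul_assoc,
    inv_mul_cancel₀ hn0, mul_one]

variable (p) in
/-- the sum of the elements `a ^ i * b ^ (p ^ j)` -/
def xel (a b : Γ) (k r : ℕ) : MonoidAlgebra ℚ_[p] Γ :=
  (∑ i ∈ (range (p ^ k)).filter (fun i => ¬ p ∣ i), MonoidAlgebra.single (a ^ i) 1) *
    ∑ j ∈ range r, MonoidAlgebra.single (b ^ (p ^ j)) 1

theorem xel_mem [Finite Γ] (a b : Γ) (k r : ℕ) (hk : 0 < k) (ha : a ^ (p ^ k) = 1)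
    (hb : b ^ (p ^ r) = b) : xel p a b k r ∈ SI p Γ := by
  unfold xel
  apply SI.mul_mem
  · have h1 : (∑ i ∈ (range (p ^ k)).filter (fun i => ¬ p ∣ i),
        (MonoidAlgebra.single (a ^ i) 1 : MonoidAlgebra ℚ_[p] Γ)) =
        ∑ i ∈ range (p ^ k), (MonoidAlgebra.single a 1 : MonoidAlgebra ℚ_[p] Γ) ^ i -
        ∑ i ∈ range (p ^ (k - 1)), (MonoidAlgebra.single (a ^ p) 1 : MonoidAlgebra ℚ_[p] Γ) ^ i := by
      have h2 : ∑ i ∈ (range (p ^ k)).filter (fun i => p ∣ i),
          (MonoidAlgebra.single (a ^ i) 1 : MonoidAlgebra ℚ_[p] Γ) =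
          ∑ i ∈ range (p ^ (k - 1)),
            (MonoidAlgebra.single (a ^ p) 1 : MonoidAlgebra ℚ_[p] Γ) ^ i := by
        symm
        apply Finset.sum_bij (fun i _ => p * i)
        · intro i hi
          rw [Finset.mem_filter, Finset.mem_range]
          refine ⟨?_, dvd_mul_right _ _⟩
          have h3 : p ^ k = p * p ^ (k - 1) := by
            rw [← pow_succ', Nat.sub_add_cancel hk]
          rw [h3]
          exact Nat.mul_lt_mul_of_pos_left (Finset.mem_range.1 hi) hp.out.pos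
        · intro i _ j _ h
          exact Nat.eq_of_mul_eq_mul_left hp.out.pos h
        · intro i hi
          rw [Finset.mem_filter, Finset.mem_range] at hi
          obtain ⟨hi, j, rfl⟩ := hi
          refine ⟨j, ?_, rfl⟩
          rw [Finset.mem_range]
          have h3 : p ^ k = p * p ^ (k - 1) := by
            rw [← pow_succ', Nat.sub_add_cancel hk]
          rw [h3] at hi
          exact lt_of_mul_lt_mul_left hi (Nat.zero_le p)
        · intro i _
          rw [MonoidAlgebra.single_pow, one_pow, ← pow_mul]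
      rw [← h2, eq_sub_iff_add_eq, add_comm, Finset.sum_filter_add_sum_filter_not]
      apply Finset.sum_congr rfl
      intro i _
      rw [MonoidAlgebra.single_pow, one_pow]
    rw [h1]
    apply Submodule.sub_mem
    · apply geom_mem _ _ (pow_pos hp.out.pos _)
      rw [MonoidAlgebra.single_pow, ha, one_pow]
      rfl
    · apply geom_mem _ _ (pow_pos hp.out.pos _)
      rw [MonoidAlgebra.single_pow, ← pow_mul, ← pow_succ', Nat.sub_add_cancel hk, ha, one_pow]
      rfl
  · have h1 : (∑ j ∈ range r, MonoidAlgebra.single (b ^ (p ^ j)) 1 : MonoidAlgebra ℚ_[p] Γ) =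
        jP Γ p (∑ j ∈ range r, MonoidAlgebra.single (b ^ (p ^ j)) 1) := by
      rw [map_sum]
      apply Finset.sum_congr rfl
      intro j _
      unfold jP ch
      rw [MonoidAlgebra.mapRingHom_single, map_one]
    rw [h1]
    apply jP_mem
    rw [map_sum]
    have h2 : ∀ j, psi p (MonoidAlgebra.single (b ^ (p ^ j)) 1 : MonoidAlgebra ℤ_[p] Γ) =
        MonoidAlgebra.single (b ^ (p ^ (j + 1))) 1 := by
      intro j
      rw [psi_single, ← pow_mul, ← pow_succ]
    simp only [h2]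
    have h3 := Finset.sum_range_succ' (fun j => (MonoidAlgebra.single (b ^ (p ^ j)) 1 :
      MonoidAlgebra ℤ_[p] Γ)) r
    have h4 := Finset.sum_range_succ (fun j => (MonoidAlgebra.single (b ^ (p ^ j)) 1 :
      MonoidAlgebra ℤ_[p] Γ)) r
    rw [h3, hb, pow_zero, pow_one] at h4
    exact add_right_cancel h4

variable {G : Type} [Group G]

open Classical in
theorem tg_xel (φ : Γ →* G) (a b : Γ) (k r : ℕ) (h : G) :
    tg ℚ_[p] h (pf ℚ_[p] φ (xel p a b k r)) =
      (((((range (p ^ k)).filter (fun i => ¬ p ∣ i)) ×ˢ range r).filter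
        (fun ij => IsConj (φ (a ^ ij.1 * b ^ (p ^ ij.2))) h)).card : ℚ_[p]) := by
  unfold xel
  rw [Finset.sum_mul_sum, ← Finset.sum_product', map_sum, map_sum, Finset.card_filter]
  push_cast
  apply Finset.sum_congr rfl
  rintro ⟨i, j⟩ _
  rw [MonoidAlgebra.single_mul_single, mul_one, MonoidAlgebra.mapDomainRingHom_apply,
    MonoidAlgebra.mapDomain_single, ell_single, one_mul]
  rfl

theorem tg_xel_ne (φ : Γ →* G) (a b : Γ) (k r : ℕ) (h : G)
    (hne : tg ℚ_[p] h (pf ℚ_[p] φ (xel p a b k r)) ≠ 0) :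
    ∃ i j : ℕ, ¬ p ∣ i ∧ IsConj (φ (a ^ i * b ^ (p ^ j))) h := by
  classical
  rw [tg_xel, Nat.cast_ne_zero, Finset.card_ne_zero] at hne
  obtain ⟨⟨i, j⟩, hij⟩ := hne
  rw [Finset.mem_filter, Finset.mem_product, Finset.mem_filter] at hij
  exact ⟨i, j, hij.1.1.2, hij.2⟩

theorem tg_xel_self (φ : Γ →* G) (a b : Γ) (k r : ℕ) (hk : 0 < k) (hr : 0 < r) :
    tg ℚ_[p] (φ (a * b)) (pf ℚ_[p] φ (xel p a b k r)) ≠ 0 := by
  classical
  rw [tg_xel, Nat.cast_ne_zero, Finset.card_ne_zero]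
  refine ⟨(1, 0), ?_⟩
  rw [Finset.mem_filter, Finset.mem_product, Finset.mem_filter, Finset.mem_range,
    Finset.mem_range, pow_one, pow_zero, pow_one]
  refine ⟨⟨⟨Nat.one_lt_pow hk.ne' hp.out.one_lt, ?_⟩, hr⟩, IsConj.refl _⟩
  intro h
  exact hp.out.one_lt.ne' (Nat.dvd_one.1 h)

end

end Pool.Agent.Y69.NK
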