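import Mathlib

/-!
# Linear algebra for the count
-/

set_option autoImplicit false
set_option linter.unusedSectionVars false

namespace Pool.Agent.Y69.NK

open Finset Module

/-- Many of the vectors `Φ F` are linearly independent over `ℤ`, if the relations between them
are relations modulo a small subspace between linearly independent vectors `T F`. -/
theorem exists_independent {𝓕 ι U M : Type} [Fintype 𝓕] [Fintype ι] [AddCommGroup U]
    [Module ℚ U] [AddCommGroup M] (Φ : 𝓕 → M) (T : 𝓕 → U) (hT : LinearIndependent ℚ T)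
    (d : (ι → ℚ) →ₗ[ℚ] U)
    (h : ∀ n : 𝓕 → ℤ, ∑ F, n F • Φ F = 0 → ∃ w, ∑ F, n F • T F = d w)
    (N : ℕ) (hN : N + Fintype.card ι ≤ Fintype.card 𝓕) :
    ∃ f : Fin N → 𝓕, LinearIndependent ℤ (Φ ∘ f) := by
  classical
  let D : Submodule ℚ U := LinearMap.range d
  let v : 𝓕 → U ⧸ D := D.mkQ ∘ T
  obtain ⟨κ, a, ha, hsp, hli⟩ := exists_linearIndependent' ℚ v
  have : Finite κ := Finite.of_injective a ha
  have : Fintype κ := Fintype.ofFinite κ
  have hcard : N ≤ Fintype.card κ := by
    have h1 : finrank ℚ (Submodule.span ℚ (Set.range v)) = Fintype.card κ := by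
      rw [← hsp]
      exact finrank_span_eq_card hli
    let S : Submodule ℚ U := Submodule.span ℚ (Set.range T)
    have h2 : finrank ℚ S = Fintype.card 𝓕 := finrank_span_eq_card hT
    have : FiniteDimensional ℚ S := FiniteDimensional.span_of_finite ℚ (Set.finite_range T)
    let g : S →ₗ[ℚ] U ⧸ D := D.mkQ.domRestrict S
    have h3 := LinearMap.finrank_range_add_finrank_ker g
    have h4 : LinearMap.range g = Submodule.span ℚ (Set.range v) := by
      have h5 : LinearMap.range g = S.map D.mkQ := by
        ext x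
        constructor
        · rintro ⟨y, rfl⟩
          exact ⟨y, y.2, rfl⟩
        · rintro ⟨y, hy, rfl⟩
          exact ⟨⟨y, hy⟩, rfl⟩
      rw [h5, Submodule.map_span, ← Set.range_comp]
    have h6 : finrank ℚ (LinearMap.ker g) ≤ Fintype.card ι := by
      have h7 : finrank ℚ D ≤ Fintype.card ι := by
        refine (LinearMap.finrank_range_le d).trans ?_
        rw [finrank_fintype_fun_eq_card]
      refine le_trans ?_ h7
      let k : LinearMap.ker g →ₗ[ℚ] D :=
        LinearMap.codRestrict D (S.subtype.comp (LinearMap.ker g).subtype) (by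
          rintro ⟨x, hx⟩
          have h8 : D.mkQ (x : U) = 0 := hx
          rw [Submodule.mkQ_apply, Submodule.Quotient.mk_eq_zero] at h8
          exact h8)
      apply LinearMap.finrank_le_finrank_of_injective (f := k)
      intro x y hxy
      have h8 := congrArg (fun z : D => (z : U)) hxy
      exact Subtype.ext (Subtype.ext h8)
    rw [h4, h1, h2] at h3
    omega
  obtain ⟨e⟩ : Nonempty (Fin N ↪ κ) := by
    rw [Function.Embedding.nonempty_iff_card_le, Fintype.card_fin]
    exact hcard
  refine ⟨a ∘ e, ?_⟩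
  have hli2 : LinearIndependent ℚ ((v ∘ a) ∘ e) := hli.comp e e.injective
  rw [Fintype.linearIndependent_iff] at hli2 ⊢
  intro n hn k
  let n' : 𝓕 → ℤ := fun F => ∑ k, if a (e k) = F then n k else 0
  have hsum : ∀ {X : Type} [AddCommGroup X] (Ψ : 𝓕 → X),
      ∑ F, n' F • Ψ F = ∑ k, n k • Ψ (a (e k)) := by
    intro X _ Ψ
    simp only [n', Finset.sum_smul]
    rw [Finset.sum_comm]
    apply Finset.sum_congr rfl
    intro k _
    simp only [ite_smul, zero_smul]
    rw [Finset.sum_ite_eq Finset.univ (a (e k)), if_pos (Finset.mem_univ _)]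
  obtain ⟨w, hw⟩ := h n' (by rw [hsum]; exact hn)
  have h9 : ∑ k, (n k : ℚ) • ((v ∘ a) ∘ e) k = 0 := by
    have h10 : D.mkQ (∑ F, n' F • T F) = 0 := by
      rw [hw, Submodule.mkQ_apply, Submodule.Quotient.mk_eq_zero]
      exact ⟨w, rfl⟩
    rw [hsum, map_sum] at h10
    rw [← h10]
    apply Finset.sum_congr rfl
    intro k _
    rw [map_zsmul, Int.cast_smul_eq_zsmul]
    rfl
  exact_mod_cast hli2 (fun k => (n k : ℚ)) h9 k

/-- A basis out of a spanning family. -/
theorem exists_basis_family {K J I : Type} [Field K] [Fintype J] (t : I → (J → K))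
    (ht : Submodule.span K (Set.range t) = ⊤) :
    ∃ v : J → I, LinearIndependent K (t ∘ v) := by
  classical
  obtain ⟨κ, a, ha, hsp, hli⟩ := exists_linearIndependent' K t
  rw [ht] at hsp
  let b : Basis κ K (J → K) := Basis.mk hli hsp.ge
  let e : J ≃ κ := (Pi.basisFun K J).indexEquiv b
  exact ⟨a ∘ e, hli.comp e e.injective⟩

end Pool.Agent.Y69.NK
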