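import Mathlib
import Pool.Agent.Y69.NK.Cyc
import Pool.Agent.Y69.NK.Lin

/-!
# The rank of the image of the finite cyclic subgroups in `K₋₁(ℤ[G])`
-/

set_option autoImplicit false
set_option linter.unusedSectionVars false

namespace Pool.Agent.Y69.NK

open Finset Module
open Pool.Agent.H26R2.IdemLI (ch ch_coeff)
open Pool.Agent.H26R2.Bass (ind)
open Pool.Agent.H23R2.Cyc (ell ell_single)

noncomputable section

variable {G : Type} [Group G]

/-- the generators of a subgroup -/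
def Gens (C : Subgroup G) : Type := {h : G // Subgroup.zpowers h = C}

/-- `h` is conjugate in `G` to `h' ^ u`, where `p` does not divide `u` and `u` is congruent to a
power of `p` modulo the prime-to-`p` part of the order of `C` -/
def PRel (p : ℕ) (C : Subgroup G) (h h' : Gens C) : Prop :=
  ∃ u j : ℕ, ¬ p ∣ u ∧ u ≡ p ^ j [MOD Nat.card C / p ^ (Nat.card C).factorization p] ∧
    IsConj (h'.1 ^ u) h.1

/-- the number of classes of generators of `C` -/
def numClasses (p : ℕ) (C : Subgroup G) : ℕ := Nat.card (Quot (PRel p C))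

theorem crt (n p : ℕ) (hp : p.Prime) (hn : n ≠ 0) (hpn : p ∣ n) :
    ∃ α β k m : ℕ, 0 < k ∧ n = p ^ k * m ∧ m = n / p ^ n.factorization p ∧ p.Coprime m ∧
      0 < m ∧ α ≡ 1 [MOD p ^ k] ∧ α ≡ 0 [MOD m] ∧ β ≡ 0 [MOD p ^ k] ∧ β ≡ 1 [MOD m] := by
  have hco : p.Coprime (n / p ^ n.factorization p) := Nat.coprime_ordCompl hp hn
  have hco' : (p ^ n.factorization p).Coprime (n / p ^ n.factorization p) := hco.pow_left _
  obtain ⟨α, h1, h2⟩ := Nat.chineseRemainder hco' 1 0
  obtain ⟨β, h3, h4⟩ := Nat.chineseRemainder hco' 0 1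
  exact ⟨α, β, n.factorization p, _, hp.factorization_pos_of_dvd hn hpn,
    (Nat.ordProj_mul_ordCompl_eq_self n p).symm, rfl, hco, Nat.ordCompl_pos p hn, h1, h2, h3, h4⟩

/-- The element attached to a generator of a finite cyclic group. -/
theorem exists_xel (p : ℕ) [hp : Fact p.Prime] {Γ : Type} [CommGroup Γ] [Finite Γ] (φ : Γ →* G)
    (g : Γ) (hpg : p ∣ orderOf g) : ∃ x ∈ SI p Γ,
      tg ℚ_[p] (φ g) (pf ℚ_[p] φ x) ≠ 0 ∧
      ∀ h : G, tg ℚ_[p] h (pf ℚ_[p] φ x) ≠ 0 → ∃ u j : ℕ, ¬ p ∣ u ∧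
        u ≡ p ^ j [MOD orderOf g / p ^ (orderOf g).factorization p] ∧ IsConj (φ g ^ u) h := by
  have ho : orderOf g ≠ 0 := (orderOf_pos g).ne'
  obtain ⟨α, β, k, m, hk, hn, hm, hco, hm0, a1, a2, b1, b2⟩ := crt (orderOf g) p hp.out ho hpg
  have hφ : 0 < m.totient := Nat.totient_pos.2 hm0
  have key : ∀ i j : ℕ, (g ^ α) ^ i * (g ^ β) ^ (p ^ j) = g ^ (α * i + β * p ^ j) := by
    intro i j
    rw [← pow_mul, ← pow_mul, ← pow_add]
  refine ⟨xel p (g ^ α) (g ^ β) k m.totient, xel_mem _ _ _ _ hk ?_ ?_, ?_, ?_⟩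
  · rw [← pow_mul]
    apply orderOf_dvd_iff_pow_eq_one.1
    rw [hn, mul_comm α]
    exact Nat.mul_dvd_mul_left _ ((Nat.modEq_zero_iff_dvd).1 a2)
  · rw [← pow_mul]
    rw [pow_eq_pow_iff_modEq, hn]
    rw [← Nat.modEq_and_modEq_iff_modEq_mul (hco.pow_left k)]
    constructor
    · have h1 := b1.mul_right (p ^ m.totient)
      rw [zero_mul] at h1
      exact h1.trans b1.symm
    · have h1 := (Nat.ModEq.refl β).mul (Nat.ModEq.pow_totient hco)
      rwa [mul_one] at h1
  · have h1 : g = g ^ α * g ^ β := by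
      rw [← pow_add]
      conv_lhs => rw [← pow_one g]
      rw [pow_eq_pow_iff_modEq, hn, ← Nat.modEq_and_modEq_iff_modEq_mul (hco.pow_left k)]
      exact ⟨(a1.add b1).symm, (a2.add b2).symm⟩
    have h2 := tg_xel_self (p := p) φ (g ^ α) (g ^ β) k m.totient hk hφ
    rwa [← h1] at h2
  · intro h hne
    obtain ⟨i, j, hi, hc⟩ := tg_xel_ne φ (g ^ α) (g ^ β) k m.totient h hne
    rw [key, map_pow] at hc
    refine ⟨α * i + β * p ^ j, j, ?_, ?_, hc⟩
    · intro hdvd
      have h1 : α * i + β * p ^ j ≡ i [MOD p ^ k] := by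
        have h2 := (a1.mul_right i).add (b1.mul_right (p ^ j))
        rwa [one_mul, zero_mul, add_zero] at h2
      have h3 : α * i + β * p ^ j ≡ i [MOD p] := h1.of_dvd (dvd_pow_self p hk.ne')
      exact hi ((h3.dvd_iff dvd_rfl).1 hdvd)
    · rw [← hm]
      have h2 := (a2.mul_right i).add (b2.mul_right (p ^ j))
      rwa [zero_mul, zero_add, one_mul] at h2

theorem pf_smul {R : Type} [CommRing R] {Γ : Type} [CommGroup Γ] (φ : Γ →* G) (c : R)
    (x : MonoidAlgebra R Γ) (h : G) : tg R h (pf R φ (c • x)) = c * tg R h (pf R φ x) := by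
  classical
  induction x using MonoidAlgebra.induction_linear with
  | zero => rw [smul_zero, map_zero, map_zero, mul_zero]
  | add x y hx hy => rw [smul_add, map_add, map_add, hx, hy, map_add, map_add, mul_add]
  | single g r =>
    rw [MonoidAlgebra.smul_single, MonoidAlgebra.mapDomainRingHom_apply,
      MonoidAlgebra.mapDomain_single, ell_single, MonoidAlgebra.mapDomainRingHom_apply,
      MonoidAlgebra.mapDomain_single, ell_single, smul_eq_mul, mul_assoc]

/-- the traces as a linear map -/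
def tgL {p : ℕ} [Fact p.Prime] {Γ : Type} [CommGroup Γ] (φ : Γ →* G) {J : Type} (r : J → G) :
    MonoidAlgebra ℚ_[p] Γ →ₗ[ℚ_[p]] (J → ℚ_[p]) where
  toFun x := fun j => tg ℚ_[p] (r j) (pf ℚ_[p] φ x)
  map_add' x y := by
    ext1 j
    show tg ℚ_[p] (r j) (pf ℚ_[p] φ (x + y)) =
      tg ℚ_[p] (r j) (pf ℚ_[p] φ x) + tg ℚ_[p] (r j) (pf ℚ_[p] φ y)
    rw [map_add, map_add]
  map_smul' c x := by
    ext1 j
    exact pf_smul φ c x (r j)

section main

variable {ι : Type} [Fintype ι] {Γ : ι → Type} [∀ i, CommGroup (Γ i)] [∀ i, Finite (Γ i)]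
  (φ : ∀ i, Γ i →* G)

/-- the classes of generators for the prime `p` -/
abbrev Cl (p : Nat.Primes) : Type :=
  Σ i : ι, {_q : Quot (PRel (p : ℕ) (φ i).range) // (p : ℕ) ∣ Nat.card (Γ i)}

/-- a representative of a class -/
def rep {p : Nat.Primes} (j : Cl φ p) : Gens (φ j.1).range := Quot.out j.2.1

theorem gens_lift {Γ : Type} [CommGroup Γ] [Finite Γ] (φ : Γ →* G) (hφ : Function.Injective φ)
    (h : Gens φ.range) : ∃ x : Γ, φ x = h.1 ∧ orderOf x = Nat.card Γ := by
  have h1 : h.1 ∈ φ.range := by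
    have h2 := Subgroup.mem_zpowers h.1
    rw [h.2] at h2
    exact h2
  obtain ⟨x, hx⟩ := h1
  refine ⟨x, hx, ?_⟩
  rw [← orderOf_injective φ hφ, hx, ← Nat.card_zpowers, h.2]
  exact Nat.card_congr (MonoidHom.ofInjective hφ).toEquiv.symm

theorem zpowers_pow_eq {g : G} {u : ℕ} (h : u.Coprime (orderOf g)) :
    Subgroup.zpowers (g ^ u) = Subgroup.zpowers g := by
  apply le_antisymm
  · rw [Subgroup.zpowers_le]
    exact Subgroup.pow_mem _ (Subgroup.mem_zpowers g) u
  · rw [Subgroup.zpowers_le]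
    obtain ⟨m, hm⟩ := exists_pow_eq_self_of_coprime h
    have h1 := Subgroup.pow_mem _ (Subgroup.mem_zpowers (g ^ u)) m
    rwa [hm] at h1

theorem coprime_of_rel {p n u j : ℕ} (hp : p.Prime) (hn : n ≠ 0) (hu : ¬ p ∣ u)
    (h : u ≡ p ^ j [MOD n / p ^ n.factorization p]) : u.Coprime n := by
  have h1 : (p ^ n.factorization p) * (n / p ^ n.factorization p) = n :=
    Nat.ordProj_mul_ordCompl_eq_self n p
  rw [← h1]
  apply Nat.Coprime.mul_right
  · exact Nat.Coprime.pow_right _ ((Nat.Prime.coprime_iff_not_dvd hp).2 hu).symm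
  · have h2 : (p ^ j).Coprime (n / p ^ n.factorization p) := (Nat.coprime_ordCompl hp hn).pow_left _
    rw [Nat.Coprime, h.gcd_eq]
    exact h2

theorem finite_gens (C : Subgroup G) [Finite C] : Finite (Gens C) := by
  apply Finite.of_injective (β := C) (fun h => ⟨h.1, by
    have h2 := Subgroup.mem_zpowers h.1
    rw [h.2] at h2
    exact h2⟩)
  intro x y hxy
  exact Subtype.ext (congrArg (fun z : C => (z : G)) hxy)

theorem finite_quot (C : Subgroup G) [Finite C] (p : ℕ) : Finite (Quot (PRel p C)) := by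
  have := finite_gens C
  exact Finite.of_surjective (Quot.mk _) Quot.mk_surjective

theorem finite_Cl (p : Nat.Primes) : Finite (Cl φ p) := by
  have h1 : ∀ i, Finite {_q : Quot (PRel (p : ℕ) (φ i).range) // (p : ℕ) ∣ Nat.card (Γ i)} := by
    intro i
    have : Finite (φ i).range := Finite.of_surjective _ (φ i).rangeRestrict_surjective
    have := finite_quot (φ i).range p
    infer_instance
  infer_instance

theorem exists_basis_p (hφ : ∀ i, Function.Injective (φ i))
    (hconj : ∀ i j, (∃ g : G, (φ i).range.map (MulAut.conj g).toMonoidHom = (φ j).range) → i = j)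
    (p : Nat.Primes) :
    ∃ v : Cl φ p → (Σ i, {F : MonoidAlgebra ℚ_[p] (Γ i) // F * F = F}),
      LinearIndependent ℚ_[p] (fun j : Cl φ p =>
        tgL (p := p) (φ (v j).1) (fun j' : Cl φ p => (rep φ j').1) (v j).2.1) := by
  classical
  have hfin : Finite (Cl φ p) := finite_Cl φ p
  have : Fintype (Cl φ p) := Fintype.ofFinite _
  let t : (Σ i, {F : MonoidAlgebra ℚ_[p] (Γ i) // F * F = F}) → (Cl φ p → ℚ_[p]) :=
    fun iF => tgL (p := p) (φ iF.1) (fun j' : Cl φ p => (rep φ j').1) iF.2.1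
  refine exists_basis_family t ?_
  rw [eq_top_iff]
  intro y _
  rw [← Finset.univ_sum_single y]
  apply Submodule.sum_mem
  intro j _
  have h0 : (Pi.single j (y j) : Cl φ p → ℚ_[p]) = y j • Pi.single j 1 := by
    rw [← Pi.single_smul, smul_eq_mul, mul_one]
  rw [h0]
  apply Submodule.smul_mem
  obtain ⟨g, hg, ho⟩ := gens_lift (φ j.1) (hφ j.1) (rep φ j)
  obtain ⟨x, hx, hx1, hx2⟩ := exists_xel (p : ℕ) (φ j.1) g (by rw [ho]; exact j.2.2)
  let L := tgL (p := p) (φ j.1) (fun j' : Cl φ p => (rep φ j').1)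
  have hL : L x ∈ Submodule.span ℚ_[p] (Set.range t) := by
    have h1 : L x ∈ (SI p (Γ j.1)).map L := ⟨x, hx, rfl⟩
    unfold SI at h1
    rw [Submodule.map_span] at h1
    refine Submodule.span_mono ?_ h1
    rintro _ ⟨F, hF, rfl⟩
    exact ⟨⟨j.1, F, hF⟩, rfl⟩
  have hLs : L x = (L x j) • Pi.single j 1 := by
    ext1 j'
    by_cases hj : j' = j
    · subst hj
      rw [Pi.smul_apply, Pi.single_eq_same, smul_eq_mul, mul_one]
    · rw [Pi.smul_apply, Pi.single_eq_of_ne hj, smul_zero]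
      by_contra hne
      apply hj
      obtain ⟨u, e, hu, hue, hc⟩ := hx2 (rep φ j').1 hne
      rw [ho] at hue
      rw [hg] at hc
      have hcard : Nat.card (φ j.1).range = Nat.card (Γ j.1) :=
        Nat.card_congr (MonoidHom.ofInjective (hφ j.1)).toEquiv.symm
      have hog : orderOf (rep φ j).1 = Nat.card (Γ j.1) := by
        rw [← hg, orderOf_injective _ (hφ j.1), ho]
      have hcop : u.Coprime (orderOf (rep φ j).1) := by
        rw [hog]
        exact coprime_of_rel p.2 Nat.card_pos.ne' hu hue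
      have hij : j.1 = j'.1 := by
        apply hconj
        obtain ⟨c, hc⟩ := isConj_iff.1 hc
        refine ⟨c, ?_⟩
        rw [← (rep φ j).2, ← (rep φ j').2, ← zpowers_pow_eq hcop, MonoidHom.map_zpowers, ← hc]
        rfl
      obtain ⟨i, q⟩ := j
      obtain ⟨i', q'⟩ := j'
      simp only at hij
      subst hij
      congr 1
      apply Subtype.ext
      have h1 : PRel (p : ℕ) (φ i).range (Quot.out q'.1) (Quot.out q.1) :=
        ⟨u, e, hu, by rw [hcard]; exact hue, hc⟩
      have h2 := Quot.sound h1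
      rwa [Quot.out_eq, Quot.out_eq] at h2
  have hc0 : L x j ≠ 0 := by
    show tg ℚ_[p] (rep φ j).1 (pf ℚ_[p] (φ j.1) x) ≠ 0
    rw [← hg]
    exact hx1
  have h3 : (Pi.single j 1 : Cl φ p → ℚ_[p]) = (L x j)⁻¹ • L x := by
    conv_rhs => rw [hLs]
    rw [smul_smul, Pi.smul_apply, Pi.single_eq_same, smul_eq_mul, mul_one, inv_mul_cancel₀ hc0,
      one_smul]
  rw [h3]
  exact Submodule.smul_mem _ _ hL

variable (ι) in
/-- the primes that divide an order -/
abbrev PP (n : ι → ℕ) : Type := {p : Nat.Primes // ∃ i, (p : ℕ) ∣ n i}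

theorem finite_PP (n : ι → ℕ) (hn : ∀ i, n i ≠ 0) : Finite (PP ι n) := by
  classical
  let S : Finset ℕ := Finset.univ.biUnion (fun i => (n i).primeFactors)
  apply Finite.of_injective (β := S) (fun p => ⟨(p.1 : ℕ), by
    obtain ⟨i, hi⟩ := p.2
    exact Finset.mem_biUnion.2 ⟨i, Finset.mem_univ i,
      Nat.mem_primeFactors.2 ⟨p.1.2, hi, hn i⟩⟩⟩)
  intro x y hxy
  exact Subtype.ext (Subtype.ext (congrArg (fun z : S => (z : ℕ)) hxy))

theorem sum_PP (n : ι → ℕ) (hn : ∀ i, n i ≠ 0) [Fintype (PP ι n)] (i : ι) (a : ℕ → ℕ) :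
    ∑ p : PP ι n, (if (p.1 : ℕ) ∣ n i then a p.1 else 0) = ∑ p ∈ (n i).primeFactors, a p := by
  classical
  rw [← Finset.sum_filter]
  apply Finset.sum_bij (fun p _ => (p.1 : ℕ))
  · intro p hp
    exact Nat.mem_primeFactors.2 ⟨p.1.2, (Finset.mem_filter.1 hp).2, hn i⟩
  · intro p _ q _ h
    exact Subtype.ext (Subtype.ext h)
  · intro q hq
    obtain ⟨h1, h2, h3⟩ := Nat.mem_primeFactors.1 hq
    exact ⟨⟨⟨q, h1⟩, i, h2⟩, Finset.mem_filter.2 ⟨Finset.mem_univ _, h2⟩, rfl⟩
  · intro p _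
    rfl

theorem card_const {Q : Type} [Finite Q] (P : Prop) [Decidable P] :
    Nat.card {_q : Q // P} = if P then Nat.card Q else 0 := by
  split_ifs with h
  · exact Nat.card_congr (Equiv.subtypeUnivEquiv fun _ => h)
  · have : IsEmpty {_q : Q // P} := ⟨fun x => h x.2⟩
    exact Nat.card_of_isEmpty

theorem card_Cl (p : Nat.Primes) : Nat.card (Cl φ p) =
    ∑ i, if (p : ℕ) ∣ Nat.card (Γ i) then numClasses p (φ i).range else 0 := by
  have h1 : ∀ i, Finite (Quot (PRel (p : ℕ) (φ i).range)) := by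
    intro i
    have : Finite (φ i).range := Finite.of_surjective _ (φ i).rangeRestrict_surjective
    exact finite_quot (φ i).range p
  rw [Nat.card_sigma]
  apply Finset.sum_congr rfl
  intro i _
  rw [card_const]
  rfl

theorem inv_sum {𝓕 : Type} [Fintype 𝓕] (n : 𝓕 → ℤ)
    (x : 𝓕 → K0 (LaurentPolynomial (MonoidAlgebra ℤ G)))
    (δ : 𝓕 → ∀ p : Nat.Primes, G → ℚ_[p]) (h : ∀ F, (x F, δ F) ∈ Inv G) :
    (∑ F, n F • x F, ∑ F, n F • δ F) ∈ Inv G := by
  have h1 : (∑ F, n F • x F, ∑ F, n F • δ F) = ∑ F, n F • (x F, δ F) := by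
    ext1
    · rw [Prod.fst_sum]
      rfl
    · rw [Prod.snd_sum]
      rfl
  rw [h1]
  exact AddSubgroup.sum_mem _ fun F _ => AddSubgroup.zsmul_mem _ (h F) (n F)

theorem nc_pos {C : Subgroup G} [Finite C] (h : Gens C) (p : ℕ) : 1 ≤ numClasses p C := by
  have := finite_quot C p
  have : Nonempty (Quot (PRel p C)) := ⟨Quot.mk _ h⟩
  exact Nat.card_pos

/-- The main theorem for a family of monomorphisms. -/
theorem main_rank (hφ : ∀ i, Function.Injective (φ i)) (γ : ∀ i, Γ i)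
    (hγ : ∀ i (x : Γ i), x ∈ Subgroup.zpowers (γ i)) (hne : ∀ i, Nat.card (Γ i) ≠ 1)
    (hconj : ∀ i j, (∃ g : G, (φ i).range.map (MulAut.conj g).toMonoidHom = (φ j).range) →
      i = j) :
    ∃ f : _root_.Fin (∑ i, (∑ p ∈ (Nat.card (Γ i)).primeFactors, numClasses p (φ i).range - 1)) →
      KNegOne (MonoidAlgebra ℤ G), LinearIndependent ℤ f ∧
      ∀ k, ∃ i, f k ∈ (KNegOne.map (pf ℤ (φ i))).range := by
  classical
  set n : ι → ℕ := fun i => Nat.card (Γ i) with hn
  have hn0 : ∀ i, n i ≠ 0 := fun i => Nat.card_pos.ne'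
  have hPP : Finite (PP ι n) := finite_PP n hn0
  have : Fintype (PP ι n) := Fintype.ofFinite _
  choose v hv using fun p : Nat.Primes => exists_basis_p φ hφ hconj p
  choose X hX using fun (i : ι) (p : Nat.Primes)
    (F : {F : MonoidAlgebra ℚ_[p] (Γ i) // F * F = F}) => exists_class (φ i) p F.1 F.2
  have : ∀ p : PP ι n, Finite (Cl φ p.1) := fun p => finite_Cl φ p.1
  have : ∀ p : PP ι n, Fintype (Cl φ p.1) := fun p => Fintype.ofFinite _
  let δ : (Σ p : PP ι n, Cl φ p.1) → ∀ q : Nat.Primes, G → ℚ_[q] := fun F =>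
    del (φ (v F.1.1 F.2).1) F.1.1 (v F.1.1 F.2).2.1
  let x : (Σ p : PP ι n, Cl φ p.1) → K0 (LaurentPolynomial (MonoidAlgebra ℤ G)) := fun F =>
    K0.map (mL (pf ℤ (φ (v F.1.1 F.2).1))) (X (v F.1.1 F.2).1 F.1.1 (v F.1.1 F.2).2)
  have hxδ : ∀ F, (x F, δ F) ∈ Inv G := fun F => hX _ _ _
  let Φ : (Σ p : PP ι n, Cl φ p.1) → KNegOne (MonoidAlgebra ℤ G) := fun F => KNegOne.of _ (x F)
  let T : (Σ p : PP ι n, Cl φ p.1) → (∀ p : PP ι n, Cl φ p.1 → ℚ_[p.1]) := fun F p j' =>
    δ F p.1 (rep φ j').1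
  have hT : LinearIndependent ℚ T := by
    have h1 : T = fun ji : (Σ p : PP ι n, Cl φ p.1) =>
        Pi.single (M := fun p : PP ι n => (Cl φ p.1 → ℚ_[p.1])) ji.1
          (tgL (p := ji.1.1) (φ (v ji.1.1 ji.2).1) (fun j' : Cl φ ji.1.1 => (rep φ j').1)
            (v ji.1.1 ji.2).2.1) := by
      ext1 F
      ext1 p
      ext1 j'
      by_cases h2 : p = F.1
      · subst h2
        rw [Pi.single_eq_same]
        exact del_same _ _ _ _
      · rw [Pi.single_eq_of_ne h2]
        exact del_ne _ _ _ _ _ (fun h3 => h2 (Subtype.ext h3))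
    rw [h1]
    apply Pi.linearIndependent_single
      (v := fun (p : PP ι n) (j : Cl φ p.1) => tgL (p := p.1) (φ (v p.1 j).1)
        (fun j' : Cl φ p.1 => (rep φ j').1) (v p.1 j).2.1)
    intro p
    exact (hv p.1).restrict_scalars' ℚ
  let d : (ι → ℚ) →ₗ[ℚ] (∀ p : PP ι n, Cl φ p.1 → ℚ_[p.1]) :=
    { toFun := fun w p j' => ((w j'.1 : ℚ) : ℚ_[p.1])
      map_add' := by
        intro w w'
        ext1 p
        ext1 j'
        exact Rat.cast_add _ _
      map_smul' := by
        intro c w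
        ext1 p
        ext1 j'
        show (((c * w j'.1 : ℚ)) : ℚ_[p.1]) = c • ((w j'.1 : ℚ) : ℚ_[p.1])
        rw [Rat.cast_mul, Rat.smul_def] }
  have hcount : ∑ i, (∑ p ∈ (n i).primeFactors, numClasses p (φ i).range - 1) +
      Fintype.card ι ≤ Fintype.card (Σ p : PP ι n, Cl φ p.1) := by
    have h1 : Fintype.card (Σ p : PP ι n, Cl φ p.1) =
        ∑ i, ∑ p ∈ (n i).primeFactors, numClasses p (φ i).range := by
      rw [Fintype.card_sigma]
      have h2 : ∀ p : PP ι n, Fintype.card (Cl φ p.1) =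
          ∑ i, if (p.1 : ℕ) ∣ n i then numClasses p.1 (φ i).range else 0 := by
        intro p
        rw [← Nat.card_eq_fintype_card]
        exact card_Cl φ p.1
      simp only [h2]
      rw [Finset.sum_comm]
      apply Finset.sum_congr rfl
      intro i _
      exact sum_PP n hn0 i (fun q => numClasses q (φ i).range)
    rw [h1, Fintype.card_eq_sum_ones, ← Finset.sum_add_distrib]
    apply Finset.sum_le_sum
    intro i _
    have h3 : 1 ≤ ∑ p ∈ (n i).primeFactors, numClasses p (φ i).range := by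
      obtain ⟨p, hp⟩ : (n i).primeFactors.Nonempty := by
        rw [Nat.nonempty_primeFactors]
        have := hn0 i
        have := hne i
        have h4 : n i = Nat.card (Γ i) := rfl
        omega
      refine le_trans ?_ (Finset.single_le_sum (f := fun p => numClasses p (φ i).range)
        (fun _ _ => Nat.zero_le _) hp)
      have : Finite (φ i).range := Finite.of_surjective _ (φ i).rangeRestrict_surjective
      apply nc_pos (⟨φ i (γ i), ?_⟩ : Gens (φ i).range)
      rw [← MonoidHom.map_zpowers]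
      have h5 : Subgroup.zpowers (γ i) = ⊤ := by
        rw [eq_top_iff]
        intro x _
        exact hγ i x
      rw [h5, ← MonoidHom.range_eq_map]
    omega
  have hrel : ∀ m : (Σ p : PP ι n, Cl φ p.1) → ℤ, ∑ F, m F • Φ F = 0 →
      ∃ w, ∑ F, m F • T F = d w := by
    intro m hm
    have h1 : ∑ F, m F • x F ∈ NilPart (MonoidAlgebra ℤ G) := by
      rw [← KNegOne.of_eq_zero, map_sum, ← hm]
      apply Finset.sum_congr rfl
      intro F _
      exact map_zsmul _ _ _
    have h2 := nil_inv h1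
    have h3 := inv_sum m x δ hxδ
    have h4 := AddSubgroup.sub_mem _ h3 h2
    have h5 : ((0 : K0 (LaurentPolynomial (MonoidAlgebra ℤ G))), ∑ F, m F • δ F) ∈ Inv G := by
      convert h4 using 1
      rw [Prod.mk_sub_mk, sub_self, sub_zero]
    obtain ⟨w, hw1, hw2⟩ := Inv.detect h5
    refine ⟨fun i => w (φ i (γ i)), ?_⟩
    ext1 p
    ext1 j'
    show _ = ((w (φ j'.1 (γ j'.1)) : ℚ) : ℚ_[p.1])
    obtain ⟨g, hg, ho⟩ := gens_lift (φ j'.1) (hφ j'.1) (rep φ j')
    have ho' : orderOf (rep φ j').1 = Nat.card (Γ j'.1) := by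
      rw [← hg, orderOf_injective _ (hφ j'.1), ho]
    have h6 := hw2 p.1 (rep φ j').1 (by rw [ho']; exact hn0 _) (by rw [ho']; exact j'.2.2)
    have h7 : w (rep φ j').1 = w (φ j'.1 (γ j'.1)) := by
      have h8 : g ∈ Submonoid.powers (γ j'.1) := by
        rw [mem_powers_iff_mem_zpowers]
        exact hγ j'.1 g
      obtain ⟨a, ha⟩ := h8
      have h9 : orderOf (γ j'.1) = Nat.card (Γ j'.1) :=
        orderOf_eq_card_of_forall_mem_zpowers (hγ j'.1)
      have h10 : a.Coprime (orderOf (φ j'.1 (γ j'.1))) := by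
        rw [orderOf_injective _ (hφ j'.1), h9]
        have h11 : orderOf (γ j'.1 ^ a) = orderOf (γ j'.1) := by
          rw [h9, ← ho]
          exact congrArg orderOf ha
        rw [orderOf_pow] at h11
        rcases Nat.div_eq_self.1 h11 with h12 | h12
        · exact absurd (h9.symm.trans h12) (hn0 _)
        · rw [← h9]
          exact Nat.Coprime.symm h12
      rw [← hg, ← ha, map_pow]
      apply hw1 _ _ a h10
      rw [orderOf_injective _ (hφ j'.1), h9]
      exact hn0 _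
    rw [← h7, ← h6]
    rw [Finset.sum_apply, Finset.sum_apply, Finset.sum_apply, Finset.sum_apply]
    apply Finset.sum_congr rfl
    intro F _
    rfl
  obtain ⟨f, hf⟩ := exists_independent Φ T hT d hrel _ hcount
  exact ⟨Φ ∘ f, hf, fun k => ⟨_, KNegOne.of _ _, rfl⟩⟩

/-- The main theorem, with names for the images. -/
theorem main_rank' (D : ι → Subgroup G) (hD : ∀ i, (φ i).range = D i)
    (hφ : ∀ i, Function.Injective (φ i)) (γ : ∀ i, Γ i)
    (hγ : ∀ i (x : Γ i), x ∈ Subgroup.zpowers (γ i)) (hne : ∀ i, Nat.card (Γ i) ≠ 1)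
    (hconj : ∀ i j, (∃ g : G, (D i).map (MulAut.conj g).toMonoidHom = D j) → i = j) :
    ∃ f : _root_.Fin (∑ i, (∑ p ∈ (Nat.card (Γ i)).primeFactors, numClasses p (D i) - 1)) →
      KNegOne (MonoidAlgebra ℤ G), LinearIndependent ℤ f ∧
      ∀ k, ∃ i, f k ∈ (KNegOne.map (pf ℤ (φ i))).range := by
  obtain rfl : (fun i => (φ i).range) = D := funext hD
  exact main_rank φ hφ γ hγ hne hconj

end main

end

end Pool.Agent.Y69.NK
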